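import Pool.Agent.W_7d29a1_ZE.Det

/-!
STORM Z, second storey (MP_7d29a1_pr): the probability of the event that the detours are cheap in all the layers of a window, at all
scales and for all column widths. (helper9)
-/

namespace Pool.Agent.W_7d29a1_ZE

open MeasureTheory ProbabilityTheory Filter Topology Finset
open Pool.Agent.W_7d29a1_F Pool.Agent.W_7d29a1_X Pool.Agent.W_7d29a1_Z
open Pool.Agent.W_7d29a1_G (HF2)
open Pool.Agent.W_7d29a1_SR (In wd)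
open Pool.Agent.W_7d29a1_Z9 (Sb CBox WR_mul_le9 WR_mono_on9 WR_off9 ev_ge conf9)
open scoped ENNReal

noncomputable section

variable {μ : Measure ℝ}

/-- The centre of the strip. -/
def cS (V : Win) : ℤ := V.sg * V.Y / 2

theorem cS_dist {V : Win} {L : ℕ} (hV : V.Ok L) {α h : ℕ} {u : ℤ} (hα : α + h ≤ V.N) (h0 : V.Y ≤ V.sg * (2 * u - α))
    (h1 : V.sg * (2 * u - α) ≤ V.Y + V.w) (hL : 1 ≤ h) : |u - cS V| + (h : ℕ) ≤ 2 * L := by
  have hN := hV.NL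
  have hw := hV.wL
  unfold cS
  rcases hV.sgn with hs | hs
  · rw [hs] at h0 h1 ⊢
    rw [one_mul] at h0 h1 ⊢
    have hd : |u - V.Y / 2| ≤ (V.w + α) / 2 + 1 := by
      rw [abs_le]
      constructor <;> omega
    omega
  · rw [hs] at h0 h1 ⊢
    rw [neg_one_mul] at h0 h1 ⊢
    have hd : |u - -V.Y / 2| ≤ (V.w + α) / 2 + 1 := by
      rw [abs_le]
      constructor <;> omega
    omega

theorem WR_shift9 {B : ℝ} (η : Env) (s : ℕ) (x s₀ : ℤ) (m : ℕ) (y : ℤ) :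
    WR μ 0 (Sb B ((s : ℤ), x - s₀)) (sh (0, s₀) η) ((s : ℤ), x - s₀) m y = WR μ 0 (Sb B ((s : ℤ), x)) η ((s : ℤ), x) m y := by
  have h1 := WR_sh (μ := μ) (s := 0) (Sb B ((s : ℤ), x)) η ((s : ℤ), x - s₀) (0, s₀) m y
  have e1 : ((((s : ℤ), x - s₀) : Pt) + ((0, s₀) : Pt)) = ((s : ℤ), x) := by
    refine Prod.ext ?_ ?_
    · show (s : ℤ) + 0 = s
      ring
    · show x - s₀ + s₀ = x
      ring
  rw [e1] at h1
  rw [← h1]
  congr 1
  ext p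
  show |2 * ((p.2 : ℝ) - ((x - s₀ : ℤ) : ℝ)) - ((p.1 : ℝ) - (((s : ℕ) : ℤ) : ℝ))| ≤ B ↔
    |2 * (((p.2 + s₀ : ℤ) : ℝ) - (x : ℝ)) - (((p.1 + 0 : ℤ) : ℝ) - (((s : ℕ) : ℤ) : ℝ))| ≤ B
  push_cast
  have e2 : 2 * ((p.2 : ℝ) - ((x : ℝ) - s₀)) - ((p.1 : ℝ) - s) = 2 * ((p.2 : ℝ) + s₀ - x) - ((p.1 : ℝ) + 0 - s) := by ring
  rw [e2]

theorem W_shift9 (η : Env) (s : ℕ) (x s₀ : ℤ) (m : ℕ) (y : ℤ) :
    W μ 0 (sh (0, s₀) η) ((s : ℤ), x - s₀) m y = W μ 0 η ((s : ℤ), x) m y := by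
  rw [W_sh]
  congr 1
  refine Prod.ext ?_ ?_
  · show (s : ℤ) + 0 = s
    ring
  · show x - s₀ + s₀ = x
    ring

variable [IsProbabilityMeasure μ] {c C : ℝ} {n₀ : ℕ}

/-- **DETOURS**: `LowD` and `DetE` at all the scales and for all the columns. -/
theorem det_prob (h : In μ c C n₀) (hF : HF2 μ) : ∀ e1 ε₂ : ℝ, 0 < e1 → 0 < ε₂ → ∃ e₀ : ℝ, 0 < e₀ ∧ ∀ e : ℝ, 0 < e → e < e₀ →
    ∃ c' : ℝ, 0 < c' ∧ ∃ L₀ : ℕ, ∀ L : ℕ, L₀ ≤ L → ∀ V : Win, V.Ok L →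
      law μ {η | ¬ ∀ i : ℕ, (L : ℝ) ^ e1 ≤ ((2 ^ i : ℕ) : ℝ) → i ≤ V.a → ∀ D : ℕ, (D : ℝ) ≤ (L : ℝ) ^ e * wd' μ (2 ^ i) →
        LowD μ V L e i D ((L : ℝ) ^ ε₂ * EE' μ (2 ^ i)) η ∧ DetE μ V L e i D ((L : ℝ) ^ ε₂ * EE' μ (2 ^ i)) η} ≤
        ENNReal.ofReal (Real.exp (-(L : ℝ) ^ c')) := by
  intro e1 ε₂ he1 hε₂
  obtain ⟨C₇, hC₇, n₁, hn₁, hconf⟩ := conf9 h hF
  obtain ⟨e₀', he₀', hconf'⟩ := hconf e1 (ε₂ / 2) he1 (by positivity)
  refine ⟨min e₀' (ε₂ / 2), lt_min he₀' (by positivity), fun e he hee => ?_⟩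
  obtain ⟨C₅, hC₅⟩ : ∃ C₅ : ℝ, C₅ = 2 * C₇ + 9 := ⟨_, rfl⟩
  obtain ⟨δ, c', hδ, hc', L₁, hL₁⟩ := hconf' e he (hee.trans_le (min_le_left _ _)) C₅ (by rw [hC₅]; linarith)
  have he2 : e < ε₂ / 2 := hee.trans_le (min_le_right _ _)
  obtain ⟨L₂, hL₂⟩ := eventually_atTop.1 (ev_ge e (C₇ + 2 * C₅ + 2) he)
  obtain ⟨L₃, hL₃⟩ := eventually_atTop.1 (ev_ge (ε₂ / 2) 4 (by positivity))
  obtain ⟨L₄, hL₄⟩ := eventually_atTop.1 (ev_ge e1 4 he1)
  refine ⟨c', hc', max (max L₁ L₂) (max (max L₃ L₄) 1), fun L hL V hV => ?_⟩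
  have hLa : L₁ ≤ L := (le_max_left _ _).trans ((le_max_left _ _).trans hL)
  have hLb : L₂ ≤ L := (le_max_right _ _).trans ((le_max_left _ _).trans hL)
  have hLc : L₃ ≤ L := (le_max_left _ _).trans ((le_max_left _ _).trans ((le_max_right _ _).trans hL))
  have hLd : L₄ ≤ L := (le_max_right _ _).trans ((le_max_left _ _).trans ((le_max_right _ _).trans hL))
  have hL1 : 1 ≤ L := (le_max_right _ _).trans ((le_max_right _ _).trans hL)
  have hLR : (1 : ℝ) ≤ L := by exact_mod_cast hL1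
  have hL0 : (0 : ℝ) < L := by linarith
  obtain ⟨hprob, hall⟩ := hL₁ L hLa
  have hsub : {η | ¬ ∀ i : ℕ, (L : ℝ) ^ e1 ≤ ((2 ^ i : ℕ) : ℝ) → i ≤ V.a → ∀ D : ℕ, (D : ℝ) ≤ (L : ℝ) ^ e * wd' μ (2 ^ i) →
        LowD μ V L e i D ((L : ℝ) ^ ε₂ * EE' μ (2 ^ i)) η ∧ DetE μ V L e i D ((L : ℝ) ^ ε₂ * EE' μ (2 ^ i)) η} ⊆
      (sh (0, cS V)) ⁻¹' {η | ¬ CBox μ c n₁ L δ e η} := by
    intro η hη hcb
    refine hη fun i hi hia D hD => ?_
    -- the scale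
    obtain ⟨P, hP⟩ : ∃ P : ℝ, P = (L : ℝ) ^ e := ⟨_, rfl⟩
    obtain ⟨w, hw⟩ : ∃ w : ℝ, w = wd' μ (2 ^ i) := ⟨_, rfl⟩
    obtain ⟨E, hE⟩ : ∃ E : ℝ, E = EE' μ (2 ^ i) := ⟨_, rfl⟩
    have hP1 : 1 ≤ P := by rw [hP]; exact Real.one_le_rpow hLR he.le
    have hw1 : 1 ≤ w := by rw [hw]; exact le_max_left _ _
    have hE1 : 1 ≤ E := by rw [hE]; exact le_max_left _ _
    have hPw : 1 ≤ P * w := one_le_mul_of_one_le_of_one_le hP1 hw1
    have hwP : w ≤ P * w := le_mul_of_one_le_left (by linarith) hP1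
    have h4 : 4 ≤ 2 ^ i := by
      have h5 := (hL₄ L hLd).trans hi
      exact_mod_cast h5
    have hi2 : 2 ≤ i := by
      by_contra hcon
      have : i ≤ 1 := by omega
      have h6 : 2 ^ i ≤ 2 ^ 1 := Nat.pow_le_pow_right (by norm_num) this
      omega
    obtain ⟨r, hr⟩ : ∃ r : ℕ, r = 2 ^ (i - 2) := ⟨_, rfl⟩
    have hr4 : 2 ^ i = 4 * r := by
      have e2 : i = (i - 2) + 2 := by omega
      rw [hr]
      conv_lhs => rw [e2, pow_add]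
      ring
    have hr1 : 1 ≤ r := by rw [hr]; exact Nat.one_le_two_pow
    obtain ⟨A, hA⟩ : ∃ A : ℝ, A = (L : ℝ) ^ (ε₂ / 2) * EE' μ (2 ^ i) := ⟨_, rfl⟩
    have hA4 : 4 * A ≤ (L : ℝ) ^ ε₂ * EE' μ (2 ^ i) := by
      have e2 : (L : ℝ) ^ ε₂ = (L : ℝ) ^ (ε₂ / 2) * (L : ℝ) ^ (ε₂ / 2) := by
        rw [← Real.rpow_add hL0]
        congr 1
        ring
      rw [hA, e2, ← hE]
      have h5 := hL₃ L hLc
      have h6 : 0 ≤ (L : ℝ) ^ (ε₂ / 2) * E := by positivity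
      calc 4 * ((L : ℝ) ^ (ε₂ / 2) * E) ≤ (L : ℝ) ^ (ε₂ / 2) * ((L : ℝ) ^ (ε₂ / 2) * E) := mul_le_mul_of_nonneg_right h5 h6
        _ = _ := by ring
    have hPA : P * E ≤ A := by
      rw [hA, ← hE, hP]
      exact mul_le_mul_of_nonneg_right (Real.rpow_le_rpow_of_exponent_le hLR he2.le) (by linarith)
    have hA0 : 0 ≤ A := le_trans (by positivity) hPA
    obtain ⟨B, hB⟩ : ∃ B : ℕ, B = ⌈C₇ * w + 2⌉₊ := ⟨_, rfl⟩
    have hB1 : C₇ * w + 2 ≤ B := by rw [hB]; exact Nat.le_ceil _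
    have hB2 : (B : ℝ) ≤ C₇ * w + 3 := by
      have := (Nat.ceil_lt_add_one (show 0 ≤ C₇ * w + 2 by positivity)).le
      rw [hB]
      linarith
    have hlow : LowD μ V L e i D (3 * A) η ∧ ∀ T ∈ V.Iv, ∀ k < 2 ^ (V.a - i), ∀ u u' : ℤ, Pr μ V L e i (T + k * 2 ^ i) u u' →
        kL μ V η (T + k * 2 ^ i) (2 ^ i) u u' ≤ Real.exp A := by
      have hgen : ∀ T ∈ V.Iv, ∀ k < 2 ^ (V.a - i), ∀ u u' : ℤ, Pr μ V L e i (T + k * 2 ^ i) u u' →
          T + k * 2 ^ i + 2 ^ i ≤ L ∧ |u - cS V| + (2 ^ i : ℕ) ≤ 2 * L := by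
        intro T hT k hk u u' hp
        have h5 : (k + 1) * 2 ^ i ≤ 2 ^ V.a := by
          have e2 : V.a = (V.a - i) + i := by omega
          calc (k + 1) * 2 ^ i ≤ 2 ^ (V.a - i) * 2 ^ i := Nat.mul_le_mul_right _ (by omega)
            _ = 2 ^ V.a := by rw [← pow_add, ← e2]
        have h6 := hV.le T hT
        have h7 : T + k * 2 ^ i + 2 ^ i ≤ V.N := by
          have : (k + 1) * 2 ^ i = k * 2 ^ i + 2 ^ i := by ring
          omega
        have hNL := hV.NL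
        have hFF : 0 ≤ 2 * ((L : ℝ) ^ (2 * e) * wd' μ (2 ^ i)) := by rw [← hw]; positivity
        have h8 : (V.Y : ℝ) ≤ V.sg * (2 * (u : ℝ) - ((T + k * 2 ^ i : ℕ) : ℝ)) := by linarith [hp.w0]
        have h9 : V.sg * (2 * (u : ℝ) - ((T + k * 2 ^ i : ℕ) : ℝ)) ≤ V.Y + V.w := by linarith [hp.w1]
        have h8' : V.Y ≤ V.sg * (2 * u - ((T + k * 2 ^ i : ℕ) : ℤ)) := by exact_mod_cast h8
        have h9' : V.sg * (2 * u - ((T + k * 2 ^ i : ℕ) : ℤ)) ≤ V.Y + V.w := by exact_mod_cast h9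
        exact ⟨h7.trans hNL, cS_dist hV h7 h8' h9' Nat.one_le_two_pow⟩
      refine ⟨?_, ?_⟩
      · intro T hT k hk u u' hp q
        obtain ⟨g1, g2⟩ := hgen T hT k hk u u' hp
        refine det_legs (μ := μ) (V := V) (L := L) (i := i) (D := D) (r := r) (e := e) (A := A) (C₇ := C₇) (η := η) (s₀ := cS V)
          hr4 hr1 g1 hp g2 hV.sgn (by linarith) (Dv := C₅ * (P * w)) (B := B) ?_ ?_ ?_ ?_
        · rw [← hw]
          exact hB1
        · rw [← hw, ← hP] at hD ⊢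
          rw [hC₅]
          have h5 : C₇ * w ≤ C₇ * (P * w) := mul_le_mul_of_nonneg_left hwP (by linarith)
          linarith
        · have e2 : (L : ℝ) ^ (2 * e) = P * P := by
            rw [hP, ← Real.rpow_add hL0]
            congr 1
            ring
          rw [← hw, e2]
          have h5 : C₇ * w ≤ C₇ * (P * w) := mul_le_mul_of_nonneg_left hwP (by linarith)
          have h6 : (C₇ + 2 * C₅ + 2) * (P * w) ≤ P * (P * w) := by
            refine mul_le_mul_of_nonneg_right ?_ (by linarith)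
            rw [hP]
            exact hL₂ L hLb
          have h7 : 1 ≤ P * (P * w) := one_le_mul_of_one_le_of_one_le hP1 hPw
          linarith
        · intro Dv' hDv0 hDv1 s m hm1 hm2 hsm x hx y hy
          have h5 := hall (sh (0, cS V) η) hcb i hi (by omega) Dv' hDv0 (by rw [← hP, ← hw]; exact hDv1) s m hm1 hm2 hsm
            (x - cS V) hx y hy
          rw [WR_shift9, ← hA] at h5
          exact h5
      · intro T hT k hk u u' hp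
        obtain ⟨g1, g2⟩ := hgen T hT k hk u u' hp
        refine (kL_le V η _ _ u u').trans ?_
        rw [← W_shift9 η (T + k * 2 ^ i) u (cS V)]
        by_cases hy : 0 ≤ u' - u ∧ u' - u ≤ ((2 ^ i : ℕ) : ℤ)
        · have h5 := (hcb.1 (T + k * 2 ^ i) (2 ^ i) g1 (u - cS V) (by omega) (u' - u) hy.1 hy.2).1
          refine h5.trans (Real.exp_le_exp.2 ?_)
          rw [← hP, ← hE]
          exact hPA
        · rw [W_eq_zero _ _ hy]
          exact (Real.exp_pos _).le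
    refine ⟨fun T hT k hk u u' hp q => ?_, fun T hT k hk u u' hp q => ?_⟩
    · refine le_trans (Real.exp_le_exp.2 ?_) (hlow.1 T hT k hk u u' hp q)
      linarith
    · refine le_trans ?_ (hlow.1 T hT k hk u u' hp q)
      have h5 := hlow.2 T hT k hk u u' hp
      calc Real.exp (-((L : ℝ) ^ ε₂ * EE' μ (2 ^ i))) * kL μ V η (T + k * 2 ^ i) (2 ^ i) u u' ≤ Real.exp (-(4 * A)) * Real.exp A :=
            mul_le_mul (Real.exp_le_exp.2 (by linarith)) h5 (Kc_nonneg _ _ _ _ _ _ _) (Real.exp_nonneg _)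
        _ = Real.exp (-(3 * A)) := by
            rw [← Real.exp_add]
            congr 1
            ring
  refine (measure_mono hsub).trans (le_trans ?_ hprob)
  have hmp := mp_sh (μ := μ) ((0, cS V) : Pt)
  calc law μ ((sh (0, cS V)) ⁻¹' {η | ¬ CBox μ c n₁ L δ e η}) ≤ (law μ).map (sh (0, cS V)) {η | ¬ CBox μ c n₁ L δ e η} :=
        Measure.le_map_apply hmp.measurable.aemeasurable _
    _ = law μ {η | ¬ CBox μ c n₁ L δ e η} := by rw [hmp.map_eq]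

end

end Pool.Agent.W_7d29a1_ZE
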