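import Pool.Agent.W_7d29a1_ZE.Step
import Pool.Agent.W_7d29a1_Z15.ChainP
import Pool.Agent.W_7d29a1_Z96.ScaleZ

/-!
STORM Z, SECOND STOREY (MP_7d29a1_pr): the price of a near tie of the class is `M / EE' (2 ^ a)`, from the inputs of the step at all
scales (`AllIn`). (helper15)
-/

namespace Pool.Agent.W_7d29a1_ZE

open MeasureTheory ProbabilityTheory Filter Topology Finset
open Pool.Agent.W_7d29a1_F Pool.Agent.W_7d29a1_X Pool.Agent.W_7d29a1_G Pool.Agent.W_7d29a1_Z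
open Pool.Agent.W_7d29a1_SR (In wd)
open Pool.Agent.W_7d29a1_Z15
open scoped ENNReal

noncomputable section

variable {μ : Measure ℝ}

/-- The inputs of the step at all scales, for given `e`, `C` and the exponents `ε₂`, `e₁`. -/
def AllAt (μ : Measure ℝ) (ε₂ e₁ e C : ℝ) : Prop := ∃ c : ℝ, 0 < c ∧ ∃ L₀ : ℕ, ∀ L : ℕ, L₀ ≤ L → ∀ V : Win, V.Ok L →
  ∀ i i₁ : ℕ, (L : ℝ) ^ e₁ ≤ 2 ^ i → i ≤ i₁ → i₁ ≤ V.a →
    (L : ℝ) ^ e₁ ≤ 2 ^ (V.a - i₁) → ∀ A : Env → Finset ℕ → Prop, Ms A → OffRows V.J A →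
      StepIn μ V L e C i i₁ A ((L : ℝ) ^ ε₂) (Real.exp (-(L : ℝ) ^ c))

/-- The inputs of the step at all scales. -/
def AllIn (μ : Measure ℝ) : Prop := ∀ ε₂ e₁ : ℝ, 0 < ε₂ → 0 < e₁ → ∃ e₀ : ℝ, 0 < e₀ ∧ ∀ e : ℝ, 0 < e → e < e₀ → ∀ C : ℝ, 0 < C →
  ∃ c : ℝ, 0 < c ∧ ∃ L₀ : ℕ, ∀ L : ℕ, L₀ ≤ L → ∀ V : Win, V.Ok L → ∀ i i₁ : ℕ, (L : ℝ) ^ e₁ ≤ 2 ^ i → i ≤ i₁ → i₁ ≤ V.a →
    (L : ℝ) ^ e₁ ≤ 2 ^ (V.a - i₁) → ∀ A : Env → Finset ℕ → Prop, Ms A → OffRows V.J A →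
      StepIn μ V L e C i i₁ A ((L : ℝ) ^ ε₂) (Real.exp (-(L : ℝ) ^ c))

/-- The inputs for one constant `C`. -/
def AllInC (μ : Measure ℝ) (C : ℝ) : Prop := ∀ ε₂ e₁ : ℝ, 0 < ε₂ → 0 < e₁ → ∃ e₀ : ℝ, 0 < e₀ ∧ ∀ e : ℝ, 0 < e → e < e₀ →
  AllAt μ ε₂ e₁ e C

/-- The price of near ties, for given `e`, `C` and the exponents `ε`, `e₁`. -/
def TieAt (μ : Measure ℝ) (ε e₁ e C : ℝ) : Prop := ∃ c : ℝ, 0 < c ∧ ∃ L₀ : ℕ, ∀ L : ℕ, L₀ ≤ L → ∀ V : Win, V.Ok L →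
    (V.w : ℝ) * 2 ^ V.a ≤ (L : ℝ) ^ e * wd' μ (2 ^ V.a) * V.nJ → ∀ i₀ i₁ : ℕ, (L : ℝ) ^ e₁ ≤ 2 ^ i₀ →
    (2 : ℝ) ^ i₀ ≤ 2 * (L : ℝ) ^ e₁ → i₁ ≤ V.a → (L : ℝ) ^ e₁ ≤ 2 ^ (V.a - i₁) → (2 : ℝ) ^ (V.a - i₁) ≤ 2 * (L : ℝ) ^ e₁ →
    ∀ M : ℝ, 1 ≤ M → ∀ A : Env → Finset ℕ → Prop, Ms A → OffRows V.J A →
      P1 μ V.N V.y (fun η S => A η S ∧ NTE μ V L e C i₀ i₁ M η S) ≤
        ENNReal.ofReal ((L : ℝ) ^ ε * (M / EE' μ (2 ^ V.a))) * P1 μ V.N V.y (fun η S => A η S ∧ InL V.sg V.J V.Y S) +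
          ENNReal.ofReal (Real.exp (-(L : ℝ) ^ c))

/-- **The natural price of near ties.** -/
def TieE (μ : Measure ℝ) : Prop := ∀ ε : ℝ, 0 < ε → ∃ e₁ : ℝ, 0 < e₁ ∧ e₁ < ε ∧ ∃ e₀ : ℝ, 0 < e₀ ∧ ∀ e : ℝ, 0 < e → e < e₀ →
  ∀ C : ℝ, 0 < C → ∃ c : ℝ, 0 < c ∧ ∃ L₀ : ℕ, ∀ L : ℕ, L₀ ≤ L → ∀ V : Win, V.Ok L →
    (V.w : ℝ) * 2 ^ V.a ≤ (L : ℝ) ^ e * wd' μ (2 ^ V.a) * V.nJ → ∀ i₀ i₁ : ℕ, (L : ℝ) ^ e₁ ≤ 2 ^ i₀ →
    (2 : ℝ) ^ i₀ ≤ 2 * (L : ℝ) ^ e₁ → i₁ ≤ V.a → (L : ℝ) ^ e₁ ≤ 2 ^ (V.a - i₁) → (2 : ℝ) ^ (V.a - i₁) ≤ 2 * (L : ℝ) ^ e₁ →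
    ∀ M : ℝ, 1 ≤ M → ∀ A : Env → Finset ℕ → Prop, Ms A → OffRows V.J A →
      P1 μ V.N V.y (fun η S => A η S ∧ NTE μ V L e C i₀ i₁ M η S) ≤
        ENNReal.ofReal ((L : ℝ) ^ ε * (M / EE' μ (2 ^ V.a))) * P1 μ V.N V.y (fun η S => A η S ∧ InL V.sg V.J V.Y S) +
          ENNReal.ofReal (Real.exp (-(L : ℝ) ^ c))

/-- The price for one constant `C`. -/
def TieEC (μ : Measure ℝ) (C : ℝ) : Prop := ∀ ε : ℝ, 0 < ε → ∃ e₁ : ℝ, 0 < e₁ ∧ e₁ < ε ∧ ∃ e₀ : ℝ, 0 < e₀ ∧ ∀ e : ℝ, 0 < e →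
  e < e₀ → TieAt μ ε e₁ e C

/-! ### Geometry of the window -/

theorem nJ_le {V : Win} {L : ℕ} (h : V.Ok L) : V.nJ ≤ L := by
  have h1 : V.J.card = V.nJ := by
    unfold Win.J Win.nJ
    rw [card_biUnion]
    · rw [sum_congr rfl (g := fun _ => 2 ^ V.a) fun T _ => by rw [Nat.card_Ioc, Nat.add_sub_cancel_left]]
      rw [sum_const, smul_eq_mul]
    · intro T hT T' hT' hne
      show Disjoint (Ioc T (T + 2 ^ V.a)) (Ioc T' (T' + 2 ^ V.a))
      rw [Finset.disjoint_left]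
      intro i hi hi'
      rw [mem_Ioc] at hi hi'
      rcases h.sep T hT T' hT' hne with h2 | h2
      · omega
      · omega
  have h2 : V.J ⊆ Ioc 0 V.N := by
    intro i hi
    obtain ⟨T, hT, hiT⟩ := mem_biUnion.1 hi
    rw [mem_Ioc] at hiT ⊢
    have := h.le T hT
    omega
  have h3 := card_le_card h2
  rw [Nat.card_Ioc, h1] at h3
  have := h.NL
  omega

theorem two_pow_le {V : Win} {L : ℕ} (h : V.Ok L) : 2 ^ V.a ≤ L := by
  refine le_trans ?_ (nJ_le h)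
  unfold Win.nJ
  exact Nat.le_mul_of_pos_left _ h.ne.card_pos

/-! ### Numbers -/

theorem pow_le_exp {q c : ℝ} (hc : 0 < c) : ∃ L₀ : ℕ, ∀ L : ℕ, L₀ ≤ L → (L : ℝ) ^ q ≤ Real.exp ((L : ℝ) ^ c) := by
  have h1 : ∀ᶠ y : ℝ in atTop, y ^ (q / c) ≤ Real.exp y := by
    have h2 := (isLittleO_rpow_exp_atTop (q / c)).bound (show (0 : ℝ) < 1 by norm_num)
    filter_upwards [h2, eventually_ge_atTop 0] with y hy hy0
    rw [one_mul, Real.norm_of_nonneg (Real.rpow_nonneg hy0 _), Real.norm_of_nonneg (Real.exp_pos _).le] at hy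
    exact hy
  have h2 : Tendsto (fun L : ℕ => (L : ℝ) ^ c) atTop atTop := (tendsto_rpow_atTop hc).comp tendsto_natCast_atTop_atTop
  obtain ⟨L₀, hL₀⟩ := eventually_atTop.1 (h2.eventually h1)
  refine ⟨L₀, fun L hL => ?_⟩
  have h3 := hL₀ L hL
  rw [← Real.rpow_mul (Nat.cast_nonneg L), mul_div_cancel₀ _ hc.ne'] at h3
  exact h3

theorem const_le_pow {K c : ℝ} (hc : 0 < c) : ∃ L₀ : ℕ, ∀ L : ℕ, L₀ ≤ L → K ≤ (L : ℝ) ^ c := by
  have h2 : Tendsto (fun L : ℕ => (L : ℝ) ^ c) atTop atTop := (tendsto_rpow_atTop hc).comp tendsto_natCast_atTop_atTop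
  exact eventually_atTop.1 (h2.eventually_ge_atTop K)

/-- The bound of the number of columns. -/
theorem W_le {r n x K a₀ w wi wa le : ℝ} (hr : 1 ≤ r) (hn : r ≤ n) (hx : le * K + 1 ≤ x) (hle : 0 ≤ le) (_hK : 0 ≤ K)
    (ha1 : a₀ ≤ 1) (hwi : 0 < wi) (h1 : w ≤ le * wa * (n / r)) (h2 : wa ≤ K * r ^ (1 - a₀) * wi) :
    w / wi + 1 ≤ x * (r ^ (-a₀) * n) := by
  have hr0 : 0 < r := by linarith
  have hn0 : 0 < n := by linarith
  have e1 : r ^ (-a₀) = r ^ (1 - a₀) / r := by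
    rw [show -a₀ = (1 - a₀) - 1 by ring, Real.rpow_sub_one hr0.ne']
  have e2 : w / wi ≤ le * K * (r ^ (-a₀) * n) := by
    rw [div_le_iff₀ hwi]
    refine h1.trans ((mul_le_mul_of_nonneg_right (mul_le_mul_of_nonneg_left h2 hle) (by positivity)).trans (le_of_eq ?_))
    rw [e1]
    field_simp
  have e3 : 1 ≤ r ^ (-a₀) * n := by
    have h3 : 1 ≤ r ^ (1 - a₀) := Real.one_le_rpow hr (by linarith)
    rw [e1, div_mul_eq_mul_div, le_div_iff₀ hr0, one_mul]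
    calc r ≤ n := hn
      _ = 1 * n := (one_mul n).symm
      _ ≤ r ^ (1 - a₀) * n := mul_le_mul_of_nonneg_right h3 hn0.le
  have e4 := mul_le_mul_of_nonneg_right hx (show 0 ≤ r ^ (-a₀) * n by positivity)
  linarith

/-- The root of the number of cells. -/
theorem s_le {r n x a₀ W : ℝ} (hr : 1 ≤ r) (hn : 0 < n) (hx : 1 ≤ x) (hW : W ≤ x * (r ^ (-a₀) * n)) :
    √(x * n * W) ≤ x * n * r ^ (-(a₀ / 2)) := by
  have hr0 : 0 < r := by linarith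
  have hx0 : 0 < x := by linarith
  rw [Real.sqrt_le_left (by positivity)]
  have e1 : r ^ (-(a₀ / 2)) * r ^ (-(a₀ / 2)) = r ^ (-a₀) := by
    rw [← Real.rpow_add hr0]
    congr 1
    ring
  calc x * n * W ≤ x * n * (x * (r ^ (-a₀) * n)) := mul_le_mul_of_nonneg_left hW (by positivity)
    _ = (x * n) ^ 2 * (r ^ (-(a₀ / 2)) * r ^ (-(a₀ / 2))) := by rw [e1]; ring
    _ = _ := by ring

/-- The error of one step. -/
theorem err_le {K x Lr δ M nE n W : ℝ} (hK : 1 ≤ K) (hx : 1 ≤ x) (hL : 1 ≤ Lr) (hδ : 0 ≤ δ) (hM : M / nE ≤ 8 * K)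
    (hM0 : 0 ≤ M / nE) (hn : 0 ≤ n) (hnL : n ≤ Lr) (hs : x * n * W ≤ (x * n) ^ 2) {B lx : ℝ}
    (hB : B ≤ 4 * Lr ^ 2) (hlx : x ≤ lx) :
    4 * x ^ 3 * (M / nE) * (√(x * n * W) * Real.exp (1 - x) + x * n * W * δ) + δ + B * Real.exp (-lx) ≤
      100 * K * (x ^ 5 * Lr ^ 2) * (Real.exp (-x) + δ) := by
  have hx0 : 0 < x := by linarith
  have hxn : 0 ≤ x * n := by positivity
  have h1 : √(x * n * W) ≤ x * Lr := by
    have h2 : √(x * n * W) ≤ x * n := by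
      rw [Real.sqrt_le_left hxn]
      exact hs
    exact h2.trans (mul_le_mul_of_nonneg_left hnL hx0.le)
  have h2 : x * n * W * δ ≤ (x * Lr) ^ 2 * δ := by
    refine mul_le_mul_of_nonneg_right (hs.trans ?_) hδ
    exact pow_le_pow_left₀ hxn (mul_le_mul_of_nonneg_left hnL hx0.le) 2
  have h3 : Real.exp (1 - x) ≤ 3 * Real.exp (-x) := by
    rw [show 1 - x = 1 + -x by ring, Real.exp_add]
    refine mul_le_mul_of_nonneg_right ?_ (Real.exp_pos _).le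
    have := Real.exp_one_lt_d9
    linarith
  obtain ⟨u, hu⟩ : ∃ u, u = Real.exp (-x) := ⟨_, rfl⟩
  have hu0 : 0 < u := by rw [hu]; exact Real.exp_pos _
  rw [← hu] at h3 ⊢
  have h4 : √(x * n * W) * Real.exp (1 - x) ≤ x * Lr * (3 * u) :=
    mul_le_mul h1 h3 (Real.exp_pos _).le (by positivity)
  have h5 : 4 * x ^ 3 * (M / nE) * (√(x * n * W) * Real.exp (1 - x) + x * n * W * δ) ≤
      4 * x ^ 3 * (8 * K) * (x * Lr * (3 * u) + (x * Lr) ^ 2 * δ) := by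
    have e0 : 0 ≤ √(x * n * W) * Real.exp (1 - x) + x * n * W * δ ∨ √(x * n * W) * Real.exp (1 - x) + x * n * W * δ < 0 :=
      le_or_gt _ _
    have e1 : 4 * x ^ 3 * (M / nE) ≤ 4 * x ^ 3 * (8 * K) := mul_le_mul_of_nonneg_left hM (by positivity)
    have e2 : 0 ≤ 4 * x ^ 3 * (M / nE) := by positivity
    rcases e0 with e0 | e0
    · exact mul_le_mul e1 (add_le_add h4 h2) e0 (by positivity)
    · exact (mul_nonpos_of_nonneg_of_nonpos e2 e0.le).trans (by positivity)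
  have h6 : B * Real.exp (-lx) ≤ 4 * Lr ^ 2 * u := by
    rw [hu]
    exact mul_le_mul hB (Real.exp_le_exp.2 (by linarith)) (Real.exp_pos _).le (by positivity)
  have hx5 : 1 ≤ x ^ 5 := one_le_pow₀ hx
  have hx4 : x ^ 4 ≤ x ^ 5 := pow_le_pow_right₀ hx (by norm_num)
  have hL2 : Lr ≤ Lr ^ 2 := by nlinarith
  have hL1 : 1 ≤ Lr ^ 2 := one_le_pow₀ hL
  have h7 : 4 * x ^ 3 * (8 * K) * (x * Lr * (3 * u) + (x * Lr) ^ 2 * δ) = 96 * K * (x ^ 4 * Lr) * u + 32 * K * (x ^ 5 * Lr ^ 2) * δ := by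
    ring
  have h8 : 96 * K * (x ^ 4 * Lr) * u ≤ 96 * K * (x ^ 5 * Lr ^ 2) * u := by
    refine mul_le_mul_of_nonneg_right (mul_le_mul_of_nonneg_left ?_ (by positivity)) hu0.le
    exact mul_le_mul hx4 hL2 (by positivity) (by positivity)
  have h9 : Lr ^ 2 ≤ K * (x ^ 5 * Lr ^ 2) := by
    have e1 : 1 ≤ K * x ^ 5 := one_le_mul_of_one_le_of_one_le hK hx5
    calc Lr ^ 2 = 1 * Lr ^ 2 := (one_mul _).symm
      _ ≤ (K * x ^ 5) * Lr ^ 2 := mul_le_mul_of_nonneg_right e1 (by positivity)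
      _ = _ := by ring
  have h10 : 4 * Lr ^ 2 * u ≤ 4 * (K * (x ^ 5 * Lr ^ 2)) * u :=
    mul_le_mul_of_nonneg_right (mul_le_mul_of_nonneg_left h9 (by norm_num)) hu0.le
  have h11 : δ ≤ K * (x ^ 5 * Lr ^ 2) * δ := by
    have e1 : 1 ≤ K * (x ^ 5 * Lr ^ 2) := le_trans hL1 h9
    calc δ = 1 * δ := (one_mul _).symm
      _ ≤ _ := mul_le_mul_of_nonneg_right e1 hδ
  have h12 : 0 ≤ K * (x ^ 5 * Lr ^ 2) * δ := by positivity
  have h13 : 100 * K * (x ^ 5 * Lr ^ 2) * (u + δ) = 96 * K * (x ^ 5 * Lr ^ 2) * u + 4 * (K * (x ^ 5 * Lr ^ 2)) * u +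
      100 * (K * (x ^ 5 * Lr ^ 2) * δ) := by ring
  rw [h13]
  rw [h7] at h5
  have h14 : 32 * K * (x ^ 5 * Lr ^ 2) * δ = 32 * (K * (x ^ 5 * Lr ^ 2) * δ) := by ring
  rw [h14] at h5
  linarith

/-! ### The theorem -/

theorem num_sq {y : ℝ} (h : 3 ≤ y) : (y + 1) ^ 2 ≤ y ^ 2 * y := by nlinarith [sq_nonneg y]

theorem EE'_mono [IsProbabilityMeasure μ] {m n : ℕ} (h : m ≤ n) : EE' μ m ≤ EE' μ n :=
  max_le_max le_rfl (Pool.Agent.W_7d29a1_G.EE_mono h)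

/-- **The core.** -/
theorem tie_core [IsProbabilityMeasure μ] {cI CI : ℝ} {nI : ℕ} (hI : In μ cI CI nI) (hF : HF2 μ) {ε : ℝ} (hε : 0 < ε) :
    ∃ e₁ ε₂ : ℝ, 0 < e₁ ∧ e₁ < ε ∧ 0 < ε₂ ∧ ∀ e : ℝ, 0 < e → e ≤ ε₂ / 2 → ∀ C : ℝ, AllAt μ ε₂ e₁ e C → TieAt μ ε e₁ e C := by
  obtain ⟨a₀, K₁, ha0, ha1, hK1, hwd⟩ := W_7d29a1_Z96.wd_all96 hI hF
  obtain ⟨a₂, K₂, -, -, hK2, hEE⟩ := W_7d29a1_Z96.EE_all96 hI
  obtain ⟨e₂, he₂⟩ : ∃ e₂, e₂ = ε / 4 := ⟨_, rfl⟩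
  have he2 : 0 < e₂ := by rw [he₂]; positivity
  obtain ⟨k, hk⟩ := chainP (c1 := a₀ / 2) (e := e₂) (by positivity) (by linarith) he2
  obtain ⟨ε₁, hε₁⟩ : ∃ ε₁, ε₁ = e₂ * (a₀ / 2) ^ 2 / 2 := ⟨_, rfl⟩
  have hε1 : 0 < ε₁ := by rw [hε₁]; positivity
  obtain ⟨ε₂, hε₂⟩ : ∃ ε₂, ε₂ = min ε₁ (ε / (32 * (k + 1))) := ⟨_, rfl⟩
  have hε2 : 0 < ε₂ := by rw [hε₂]; exact lt_min hε1 (by positivity)
  have hε21 : ε₂ ≤ ε₁ := by rw [hε₂]; exact min_le_left _ _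
  have hε2k : ε₂ * (8 * k) ≤ ε / 4 := by
    have h1 : ε₂ ≤ ε / (32 * (k + 1)) := by rw [hε₂]; exact min_le_right _ _
    rw [le_div_iff₀ (by positivity)] at h1
    have h2 : ε₂ * (32 * ((k : ℝ) + 1)) = 4 * (ε₂ * (8 * k)) + 32 * ε₂ := by ring
    linarith
  obtain ⟨e₁, he₁⟩ : ∃ e₁, e₁ = ε / 16 := ⟨_, rfl⟩
  have he1 : 0 < e₁ := by rw [he₁]; positivity
  refine ⟨e₁, ε₂, he1, by rw [he₁]; linarith, hε2, fun e he heε C hin => ?_⟩
  obtain ⟨cδ, hcδ, L₁, hin⟩ := hin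
  obtain ⟨c', hc'⟩ : ∃ c', c' = min ε₂ cδ / 2 := ⟨_, rfl⟩
  have hc0 : 0 < c' := by rw [hc']; exact half_pos (lt_min hε2 hcδ)
  -- large `L`
  obtain ⟨L₂, hL2⟩ := const_le_pow (K := 5 * (16 * K₂ + 5)) hε2
  obtain ⟨L₃, hL3⟩ := const_le_pow (K := 8 * K₂) hε1
  obtain ⟨L₄, hL4⟩ := const_le_pow (K := K₁ + 1) (c := ε₂ / 2) (by positivity)
  obtain ⟨L₅, hL5⟩ := const_le_pow (K := max 3 (2 * K₂ * EE' μ 1)) (c := ε / 16) (by positivity)
  obtain ⟨L₆, hL6⟩ := const_le_pow (K := 16 * K₂ ^ 2) (c := ε / 8) (by positivity)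
  obtain ⟨L₇, hL7⟩ := pow_le_exp (q := 3) hε2
  obtain ⟨L₈, hL8⟩ := const_le_pow (K := max 3 (200 * k * K₂)) hc0
  obtain ⟨L₉, hL9⟩ := pow_le_exp (q := ε₂ * (8 * k + 5) + 2) hc0
  refine ⟨c', hc0, L₁ + L₂ + L₃ + L₄ + L₅ + L₆ + L₇ + L₈ + L₉ + 3, fun L hL V hV hw i₀ i₁ h01 h02 hi1 h11 h12 M hM A hA hoff => ?_⟩
  specialize hL2 L (by omega)
  specialize hL3 L (by omega)
  specialize hL4 L (by omega)
  specialize hL5 L (by omega)
  specialize hL6 L (by omega)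
  specialize hL7 L (by omega)
  specialize hL8 L (by omega)
  specialize hL9 L (by omega)
  have hLr : (3 : ℝ) ≤ L := by exact_mod_cast (by omega : 3 ≤ L)
  have hL1 : (1 : ℝ) ≤ L := by linarith
  have hL0 : (0 : ℝ) < L := by linarith
  obtain ⟨x, hx⟩ : ∃ x, x = (L : ℝ) ^ ε₂ := ⟨_, rfl⟩
  have hx1 : 1 ≤ x := by rw [hx]; exact Real.one_le_rpow hL1 hε2.le
  have hx0 : 0 < x := by linarith
  obtain ⟨δ, hδ⟩ : ∃ δ, δ = Real.exp (-(L : ℝ) ^ cδ) := ⟨_, rfl⟩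
  have hδ0 : 0 < δ := by rw [hδ]; exact Real.exp_pos _
  obtain ⟨P, hP⟩ : ∃ P, P = (P1 μ V.N V.y (fun η S => A η S ∧ InL V.sg V.J V.Y S)).toReal := ⟨_, rfl⟩
  have hP0 : 0 ≤ P := by rw [hP]; exact ENNReal.toReal_nonneg
  have hPof : P1 μ V.N V.y (fun η S => A η S ∧ InL V.sg V.J V.Y S) = ENNReal.ofReal P := by
    rw [hP, ENNReal.ofReal_toReal (P1_ne_top hV.y0 hV.yN _)]
  have hNT : P1 μ V.N V.y (fun η S => A η S ∧ NTE μ V L e C i₀ i₁ M η S) = ENNReal.ofReal (NE μ V L e C i₁ A i₀ M) := by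
    rw [NE_eq, ENNReal.ofReal_toReal (P1_ne_top hV.y0 hV.yN _)]
  have hEa : 0 < EE' μ (2 ^ V.a) := lt_of_lt_of_le one_pos (one_le_EE' _)
  rw [hPof, hNT, ← ENNReal.ofReal_mul (by positivity), ← ENNReal.ofReal_add (by positivity) (Real.exp_pos _).le]
  refine ENNReal.ofReal_le_ofReal ?_
  -- the unit at the scale `2 ^ i₀`
  have hE0 : EE' μ (2 ^ i₀) ≤ (L : ℝ) ^ (ε / 8) := by
    have h1 := (hEE 1 (2 ^ i₀) le_rfl Nat.one_le_two_pow).2.2
    have h2 : Real.sqrt (((2 ^ i₀ : ℕ) : ℝ) / (1 : ℕ)) ≤ 2 * (L : ℝ) ^ e₁ := by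
      push_cast
      rw [div_one, Real.sqrt_le_left (by positivity)]
      have h3 : 1 ≤ 2 * (L : ℝ) ^ e₁ := by
        have := Real.one_le_rpow hL1 he1.le
        linarith
      exact h02.trans (le_self_pow₀ h3 two_ne_zero)
    have h3 : EE' μ (2 ^ i₀) ≤ K₂ * (2 * (L : ℝ) ^ e₁) * EE' μ 1 := by
      refine h1.trans ?_
      exact mul_le_mul_of_nonneg_right (mul_le_mul_of_nonneg_left h2 (by linarith)) (zero_le_one.trans (one_le_EE' 1))
    have h4 : (L : ℝ) ^ (ε / 8) = (L : ℝ) ^ (ε / 16) * (L : ℝ) ^ (ε / 16) := by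
      rw [← Real.rpow_add hL0]
      congr 1
      ring
    rw [h4]
    have h5 : 2 * K₂ * EE' μ 1 ≤ (L : ℝ) ^ (ε / 16) := (le_max_right _ _).trans hL5
    have h6 := mul_le_mul_of_nonneg_right h5 (show 0 ≤ (L : ℝ) ^ (ε / 16) by positivity)
    refine h3.trans (le_trans (le_of_eq ?_) h6)
    rw [he₁]
    ring
  have hNP := NE_le (μ := μ) hV e C i₁ A i₀ M
  rw [← hP] at hNP
  rcases Nat.lt_or_ge V.a i₀ with hcase | hcase
  · -- trivial case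
    have h1 : EE' μ (2 ^ V.a) ≤ (L : ℝ) ^ ε := by
      refine (EE'_mono (Nat.pow_le_pow_right (by norm_num) hcase.le)).trans (hE0.trans ?_)
      exact Real.rpow_le_rpow_of_exponent_le hL1 (by linarith)
    have h2 : 1 ≤ (L : ℝ) ^ ε * (M / EE' μ (2 ^ V.a)) := by
      rw [mul_div_assoc', le_div_iff₀ hEa]
      have := mul_le_mul_of_nonneg_left hM (show 0 ≤ (L : ℝ) ^ ε by positivity)
      linarith
    have h3 := mul_le_mul_of_nonneg_right h2 hP0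
    have := Real.exp_pos (-(L : ℝ) ^ c')
    linarith
  -- the data of the chain
  obtain ⟨En, hEn⟩ : ∃ En : ℕ → ℝ, En = fun i => EE' μ (2 ^ i) := ⟨_, rfl⟩
  obtain ⟨n, hn⟩ : ∃ n : ℕ → ℝ, n = fun i => (V.nJ : ℝ) / 2 ^ i := ⟨_, rfl⟩
  obtain ⟨W, hW⟩ : ∃ W : ℕ → ℝ, W = fun i => (V.w : ℝ) / wd' μ (2 ^ i) + 1 := ⟨_, rfl⟩
  have hEn1 : ∀ i, 1 ≤ En i := fun i => by rw [hEn]; exact one_le_EE' _
  have hEn0 : ∀ i, 0 < En i := fun i => lt_of_lt_of_le one_pos (hEn1 i)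
  have hcard : 0 < #V.Iv := hV.ne.card_pos
  have hnJ : (V.nJ : ℝ) = #V.Iv * 2 ^ V.a := by
    unfold Win.nJ
    push_cast
    ring
  have hcard1 : (1 : ℝ) ≤ #V.Iv := by exact_mod_cast hcard
  have hn0 : ∀ i, 0 < n i := fun i => by
    rw [hn]
    show 0 < (V.nJ : ℝ) / 2 ^ i
    rw [hnJ]
    exact div_pos (mul_pos (by linarith) (pow_pos two_pos _)) (pow_pos two_pos _)
  have hw1 : (1 : ℝ) ≤ V.w := by exact_mod_cast hV.w1
  have hwi : ∀ i, 0 < wd' μ (2 ^ i) := fun i => lt_of_lt_of_le one_pos (one_le_wd' _)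
  have hW0 : ∀ i, 0 < W i := fun i => by
    rw [hW]
    have := hwi i
    positivity
  obtain ⟨Mg, hMg⟩ : ∃ Mg : ℕ → ℝ, Mg = fun i => n i * En i / √(x * n i * W i) := ⟨_, rfl⟩
  have hsq : ∀ i, 0 < √(x * n i * W i) := fun i => Real.sqrt_pos.2 (by
    have := hn0 i
    have := hW0 i
    positivity)
  have hMg0 : ∀ i, 0 < Mg i := fun i => by
    rw [hMg]
    exact div_pos (mul_pos (hn0 i) (hEn0 i)) (hsq i)
  obtain ⟨ρ, hρ⟩ : ∃ ρ : ℕ → ℝ, ρ = fun i => (4 * Mg i + (16 * K₂ + 1) * x * En i) / En i := ⟨_, rfl⟩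
  have hEρ : ∀ i, En i * ρ i = 4 * Mg i + (16 * K₂ + 1) * x * En i := fun i => by
    rw [hρ]
    exact mul_div_cancel₀ _ (hEn0 i).ne'
  -- scales which are used
  have hused : ∀ i, i₀ ≤ i → (2 : ℝ) ^ i * (L : ℝ) ^ e₂ ≤ ((2 ^ V.a : ℕ) : ℝ) → i ≤ V.a ∧ i ≤ i₁ := by
    intro i _ h2
    push_cast at h2
    have h3 : 2 * (L : ℝ) ^ e₁ < (L : ℝ) ^ e₂ := by
      have e1 : (L : ℝ) ^ e₂ = (L : ℝ) ^ e₁ * (L : ℝ) ^ (3 * ε / 16) := by
        rw [← Real.rpow_add hL0]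
        congr 1
        rw [he₁, he₂]
        ring
      have e2 : 3 ≤ (L : ℝ) ^ (3 * ε / 16) := by
        refine ((le_max_left _ _).trans hL5).trans (Real.rpow_le_rpow_of_exponent_le hL1 (by linarith))
      have e3 : 0 < (L : ℝ) ^ e₁ := by positivity
      rw [e1]
      have e4 := mul_le_mul_of_nonneg_left e2 e3.le
      linarith
    have h4 : i ≤ V.a := by
      by_contra hcon
      have e1 : (2 : ℝ) ^ V.a ≤ 2 ^ i := pow_le_pow_right₀ (by norm_num) (by omega)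
      have e2 : 1 < (L : ℝ) ^ e₂ := by
        have := Real.one_le_rpow hL1 he1.le
        linarith
      have e3 : (0 : ℝ) < 2 ^ i := pow_pos two_pos _
      have e4 := lt_mul_of_one_lt_right e3 e2
      linarith
    refine ⟨h4, ?_⟩
    by_contra hcon
    have e1 : V.a - i ≤ V.a - i₁ := by omega
    have e2 : (2 : ℝ) ^ V.a = 2 ^ i * 2 ^ (V.a - i) := by
      rw [← pow_add]
      congr 1
      omega
    have e3 : (2 : ℝ) ^ (V.a - i) ≤ 2 ^ (V.a - i₁) := pow_le_pow_right₀ (by norm_num) e1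
    rw [e2] at h2
    have e4 : (L : ℝ) ^ e₂ ≤ 2 ^ (V.a - i) := le_of_mul_le_mul_left h2 (by positivity)
    linarith
  have hr : ∀ i, i ≤ V.a → (1 : ℝ) ≤ 2 ^ V.a / 2 ^ i := fun i hi => by
    rw [one_le_div (by positivity)]
    exact pow_le_pow_right₀ (by norm_num) hi
  have hrn : ∀ i, (2 : ℝ) ^ V.a / 2 ^ i ≤ n i := fun i => by
    rw [hn]
    show (2 : ℝ) ^ V.a / 2 ^ i ≤ (V.nJ : ℝ) / 2 ^ i
    rw [hnJ]
    exact div_le_div_of_nonneg_right (le_mul_of_one_le_left (pow_pos two_pos _).le hcard1) (pow_pos two_pos _).le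
  have hWle : ∀ i, i ≤ V.a → W i ≤ x * (((2 : ℝ) ^ V.a / 2 ^ i) ^ (-a₀) * n i) := by
    intro i hi
    rw [hW]
    refine W_le (K := K₁) (wa := wd' μ (2 ^ V.a)) (le := (L : ℝ) ^ e) (hr i hi) (hrn i) ?_ (by positivity) (by linarith) ha1.le
      (hwi i) ?_ ?_
    · have e1 : (L : ℝ) ^ e ≤ (L : ℝ) ^ (ε₂ / 2) := Real.rpow_le_rpow_of_exponent_le hL1 heε
      have e2 : x = (L : ℝ) ^ (ε₂ / 2) * (L : ℝ) ^ (ε₂ / 2) := by
        rw [hx, ← Real.rpow_add hL0]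
        congr 1
        ring
      have e3 : 1 ≤ (L : ℝ) ^ (ε₂ / 2) := Real.one_le_rpow hL1 (by positivity)
      rw [e2]
      have e4 := mul_le_mul_of_nonneg_left hL4 (show 0 ≤ (L : ℝ) ^ (ε₂ / 2) by positivity)
      have e5 := mul_le_mul_of_nonneg_right e1 (show 0 ≤ K₁ by linarith)
      linarith
    · have e1 : n i / ((2 : ℝ) ^ V.a / 2 ^ i) = V.nJ / 2 ^ V.a := by
        rw [hn]
        field_simp
      rw [e1, mul_div_assoc', le_div_iff₀ (by positivity)]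
      exact hw
    · have e1 := (hwd (2 ^ i) (2 ^ V.a) Nat.one_le_two_pow (Nat.pow_le_pow_right (by norm_num) hi)).2.2
      push_cast at e1
      exact e1
  have hcub : ∀ i, i ≤ V.a → √(x * n i * W i) ≤ x * n i * ((2 : ℝ) ^ V.a / 2 ^ i) ^ (-(a₀ / 2)) := fun i hi =>
    s_le (hr i hi) (hn0 i) hx1 (hWle i hi)
  have hcub1 : ∀ i, i ≤ V.a → √(x * n i * W i) ≤ x * n i := fun i hi => by
    refine (hcub i hi).trans ?_
    have e1 : ((2 : ℝ) ^ V.a / 2 ^ i) ^ (-(a₀ / 2)) ≤ 1 := Real.rpow_le_one_of_one_le_of_nonpos (hr i hi) (by linarith)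
    exact mul_le_of_le_one_right (mul_nonneg hx0.le (hn0 i).le) e1
  have hMgE : ∀ i, i ≤ V.a → En i ≤ x * Mg i := fun i hi => by
    rw [hMg]
    show En i ≤ x * (n i * En i / √(x * n i * W i))
    rw [mul_div_assoc', le_div_iff₀ (hsq i)]
    have := mul_le_mul_of_nonneg_left (hcub1 i hi) (hEn0 i).le
    linarith
  have hres := hk (P := P) hP0 (T := fun i M => NE μ V L e C i₁ A i M) (fun i M => NE_nonneg _ _ _ _ _ _ _ _)
    (fun i M => by rw [hP]; exact NE_le hV _ _ _ _ _ _) (fun i j M hij => NE_mono hV _ _ _ _ hij le_rfl)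
    (E := En) (ρ := ρ) (l := 2 ^ V.a) (i₀ := i₀) (I := V.a) (C := K₂) (L := L) (ε := ε₁) (A := x ^ 8)
    (err := 100 * K₂ * (x ^ 5 * (L : ℝ) ^ 2) * (Real.exp (-x) + δ)) hEn0
    (fun i j hij => by rw [hEn]; exact EE'_mono (Nat.pow_le_pow_right (by norm_num) hij)) hK2
    (fun i j hij => by
      have e1 := (hEE (2 ^ i) (2 ^ j) Nat.one_le_two_pow (Nat.pow_le_pow_right (by norm_num) hij)).2.2
      have e2 : (((2 ^ j : ℕ) : ℝ) / ((2 ^ i : ℕ) : ℝ)) = (2 : ℝ) ^ (j - i) := by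
        push_cast
        rw [pow_sub₀ _ two_ne_zero hij]
        rfl
      rw [e2] at e1
      rw [hEn]
      refine e1.trans ?_
      have e3 : Real.sqrt ((2 : ℝ) ^ (j - i)) ≤ 2 ^ (j - i) := by
        rw [Real.sqrt_le_left (pow_pos two_pos _).le]
        exact le_self_pow₀ (one_le_pow₀ (by norm_num)) two_ne_zero
      exact mul_le_mul_of_nonneg_right (mul_le_mul_of_nonneg_left e3 (by linarith)) (zero_le_one.trans (le_max_left _ _)))
    hcase le_rfl (Nat.pow_lt_pow_right (by norm_num) (Nat.lt_succ_self _)) hL1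
    (by
      have e1 : ((2 ^ V.a : ℕ) : ℝ) ≤ L := by exact_mod_cast two_pow_le hV
      have e2 : (1 : ℝ) ≤ 2 ^ i₀ := one_le_pow₀ (by norm_num)
      exact e1.trans (le_mul_of_one_le_left hL0.le e2))
    (by
      have e1 : (L : ℝ) ^ (e₂ * (a₀ / 2) ^ 2) = (L : ℝ) ^ ε₁ * (L : ℝ) ^ ε₁ := by
        rw [← Real.rpow_add hL0]
        congr 1
        rw [hε₁]
        ring
      rw [e1]
      exact mul_le_mul_of_nonneg_right hL3 (by positivity))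
    (fun i hi0 h2 => by
      obtain ⟨hia, -⟩ := hused i hi0 h2
      obtain ⟨r, hrr⟩ : ∃ r, r = (2 : ℝ) ^ V.a / 2 ^ i := ⟨_, rfl⟩
      have hr1 := hr i hia
      have hc1 := hcub i hia
      rw [← hrr] at hr1 hc1
      have hr0 : 0 < r := by linarith
      push_cast
      rw [← hrr]
      have e1 : (L : ℝ) ^ (-ε₁) ≤ x⁻¹ := by
        rw [hx, ← Real.rpow_neg hL0.le]
        exact Real.rpow_le_rpow_of_exponent_le hL1 (by linarith)
      have e2 : x⁻¹ * r ^ (a₀ / 2) ≤ Mg i / En i := by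
        rw [hMg]
        show x⁻¹ * r ^ (a₀ / 2) ≤ n i * En i / √(x * n i * W i) / En i
        rw [div_div, mul_comm (√(x * n i * W i)), ← div_div, mul_div_assoc, div_self (hEn0 i).ne', mul_one, le_div_iff₀ (hsq i)]
        have e3 := mul_le_mul_of_nonneg_left hc1 (show 0 ≤ x⁻¹ * r ^ (a₀ / 2) by positivity)
        refine e3.trans (le_of_eq ?_)
        have e4 : r ^ (a₀ / 2) * r ^ (-(a₀ / 2)) = 1 := by
          rw [← Real.rpow_add hr0, add_neg_cancel, Real.rpow_zero]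
        calc x⁻¹ * r ^ (a₀ / 2) * (x * n i * r ^ (-(a₀ / 2))) = (x⁻¹ * x) * n i * (r ^ (a₀ / 2) * r ^ (-(a₀ / 2))) := by ring
          _ = n i := by rw [e4, inv_mul_cancel₀ hx0.ne', one_mul, mul_one]
      have e3 : Mg i / En i ≤ ρ i := by
        rw [hρ]
        refine div_le_div_of_nonneg_right ?_ (hEn0 i).le
        have := hMg0 i
        have : 0 ≤ (16 * K₂ + 1) * x * En i := mul_nonneg (mul_nonneg (by linarith) hx0.le) (hEn0 i).le
        linarith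
      exact ((mul_le_mul_of_nonneg_right e1 (by positivity)).trans e2).trans e3)
    (one_le_pow₀ hx1) (by positivity)
    (fun i M' hi0 h2 hM1 hM2 => by
      obtain ⟨hia, hii⟩ := hused i hi0 h2
      have hst := stepE (μ := μ) hV (e := e) (C := C) (i := i) (i₁ := i₁) hA (x := x) (δ := δ) hx1
        (by
          rw [hx, hδ]
          exact hin L (by omega) V hV i i₁ (h01.trans (pow_le_pow_right₀ (by norm_num) hi0)) hii hi1 h11 A hA hoff)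
        (n := n i) (W := W i) (M := M') (by rw [hn]) (hn0 i) (by rw [hW]) (hW0 i) (by rw [hEn] at hM1; exact hM1)
      have hEi : EE' μ (2 ^ i) = En i := by rw [hEn]
      rw [hEi] at hst
      have hMgi : n i * En i / √(x * n i * W i) = Mg i := by rw [hMg]
      rw [hMgi] at hst
      have hM'0 : 0 < M' := lt_of_lt_of_le (hEn0 i) hM1
      have hmg := hMg0 i
      have hen := hEn0 i
      -- the number of brackets
      have hBr : (#(Br V) : ℝ) ≤ 4 * (L : ℝ) ^ 2 := by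
        have e1 : ((#(Br V) : ℕ) : ℝ) ≤ (((V.N + 1) ^ 2 : ℕ) : ℝ) := by exact_mod_cast card_Br_le V
        have e2 : ((V.N : ℕ) : ℝ) ≤ L := by exact_mod_cast hV.NL
        push_cast at e1
        refine e1.trans ?_
        have e3 : (0 : ℝ) ≤ V.N := Nat.cast_nonneg _
        have e4 : ((V.N : ℝ) + 1) ^ 2 ≤ (2 * (L : ℝ)) ^ 2 := pow_le_pow_left₀ (by linarith) (by linarith) 2
        rw [mul_pow] at e4
        linarith
      have hlog : Real.log #(Br V) ≤ x * En i := by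
        have e1 : Real.log #(Br V) ≤ x := by
          rcases (Nat.cast_nonneg (α := ℝ) #(Br V)).eq_or_lt with h0 | h0
          · rw [← h0, Real.log_zero]
            exact hx0.le
          · rw [Real.log_le_iff_le_exp h0]
            have e3 : (#(Br V) : ℝ) ≤ (L : ℝ) ^ (3 : ℝ) := by
              have e4 : ((#(Br V) : ℕ) : ℝ) ≤ (((V.N + 1) ^ 2 : ℕ) : ℝ) := by exact_mod_cast card_Br_le V
              have e5 : ((V.N : ℕ) : ℝ) ≤ L := by exact_mod_cast hV.NL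
              push_cast at e4
              have e6 : (0 : ℝ) ≤ V.N := Nat.cast_nonneg _
              have e7 : (L : ℝ) ^ (3 : ℝ) = (L : ℝ) ^ 2 * L := by
                rw [show (3 : ℝ) = ((3 : ℕ) : ℝ) by norm_num, Real.rpow_natCast]
                ring
              rw [e7]
              have e8 : ((V.N : ℝ) + 1) ^ 2 ≤ ((L : ℝ) + 1) ^ 2 := pow_le_pow_left₀ (by linarith) (by linarith) 2
              exact e4.trans (e8.trans (num_sq hLr))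
            rw [hx]
            exact e3.trans hL7
        exact e1.trans (le_mul_of_one_le_right hx0.le (hEn1 i))
      -- the factor
      have hκ : 5 * x ^ 4 * (M' / Mg i) ≤ x ^ 8 * (M' / (En i * ρ i)) := by
        rw [hEρ i]
        have e1 : 4 * Mg i + (16 * K₂ + 1) * x * En i ≤ (16 * K₂ + 5) * x ^ 2 * Mg i := by
          have e2 := mul_le_mul_of_nonneg_left (hMgE i hia) (show 0 ≤ (16 * K₂ + 1) * x by positivity)
          have e3 : Mg i ≤ x ^ 2 * Mg i := le_mul_of_one_le_left hmg.le (one_le_pow₀ hx1)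
          have e5 : (16 * K₂ + 1) * x * (x * Mg i) = (16 * K₂ + 1) * (x ^ 2 * Mg i) := by ring
          have e6 : (16 * K₂ + 5) * x ^ 2 * Mg i = (16 * K₂ + 1) * (x ^ 2 * Mg i) + 4 * (x ^ 2 * Mg i) := by ring
          linarith
        have e4 : 0 < 4 * Mg i + (16 * K₂ + 1) * x * En i := by positivity
        rw [mul_div_assoc', mul_div_assoc', div_le_div_iff₀ hmg e4]
        have e5 : 5 * (16 * K₂ + 5) ≤ x := by rw [hx]; exact hL2
        have e6 : 5 * (16 * K₂ + 5) ≤ x ^ 2 := e5.trans (le_self_pow₀ hx1 two_ne_zero)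
        calc 5 * x ^ 4 * M' * (4 * Mg i + (16 * K₂ + 1) * x * En i) ≤ 5 * x ^ 4 * M' * ((16 * K₂ + 5) * x ^ 2 * Mg i) :=
              mul_le_mul_of_nonneg_left e1 (by positivity)
          _ = (5 * (16 * K₂ + 5)) * (x ^ 6 * M' * Mg i) := by ring
          _ ≤ x ^ 2 * (x ^ 6 * M' * Mg i) := mul_le_mul_of_nonneg_right e6 (by positivity)
          _ = x ^ 8 * M' * Mg i := by ring
      have hT : NE μ V L e C i₁ A i (4 * Mg i + 2 * (x * M') + Real.log #(Br V)) ≤ NE μ V L e C i₁ A i (En i * ρ i) := by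
        refine NE_mono hV _ _ _ _ le_rfl ?_
        rw [hEρ i]
        have := mul_le_mul_of_nonneg_left hM2 hx0.le
        linarith
      have hMn : M' / (n i * En i) ≤ 8 * K₂ := by
        rw [div_le_iff₀ (mul_pos (hn0 i) hen)]
        have e1 : 1 ≤ n i := (hr i hia).trans (hrn i)
        have e2 : 8 * K₂ * En i ≤ 8 * K₂ * (n i * En i) :=
          mul_le_mul_of_nonneg_left (le_mul_of_one_le_left hen.le e1) (by positivity)
        linarith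
      have hnL : n i ≤ L := by
        rw [hn]
        show (V.nJ : ℝ) / 2 ^ i ≤ L
        refine (div_le_self (Nat.cast_nonneg _) (one_le_pow₀ (by norm_num))).trans ?_
        exact_mod_cast nJ_le hV
      have hsq2 : x * n i * W i ≤ (x * n i) ^ 2 := by
        have e1 := hcub1 i hia
        have e2 : 0 ≤ x * n i * W i := mul_nonneg (mul_nonneg hx0.le (hn0 i).le) (hW0 i).le
        rw [← Real.sq_sqrt e2]
        exact pow_le_pow_left₀ (Real.sqrt_nonneg _) e1 2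
      have herr := err_le (K := K₂) (x := x) (Lr := L) (δ := δ) (M := M') (nE := n i * En i) (n := n i) (W := W i) (B := #(Br V))
        (lx := x * M') hK2 hx1 hL1 hδ0.le hMn (by have := mul_pos (hn0 i) hen; positivity) (hn0 i).le hnL hsq2 hBr
        (le_mul_of_one_le_right hx0.le ((hEn1 i).trans hM1))
      have hN0 := NE_nonneg (μ := μ) V L e C i₁ A i (En i * ρ i)
      have hN1 := NE_nonneg (μ := μ) V L e C i₁ A i (4 * Mg i + 2 * (x * M') + Real.log #(Br V))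
      have hκ0 : 0 ≤ 5 * x ^ 4 * (M' / Mg i) := by positivity
      refine hst.trans ?_
      have f1 := mul_le_mul hκ hT hN1 (by rw [hEρ i]; positivity)
      show 5 * x ^ 4 * (M' / Mg i) * NE μ V L e C i₁ A i (4 * Mg i + 2 * (x * M') + Real.log #(Br V)) +
        ((4 * x ^ 3 * (M' / (n i * En i)) * (√(x * n i * W i) * Real.exp (1 - x) + x * n i * W i * δ) + δ) +
          #(Br V) * Real.exp (-(x * M'))) ≤ x ^ 8 * (M' / (En i * ρ i)) * NE μ V L e C i₁ A i (En i * ρ i) +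
        100 * K₂ * (x ^ 5 * (L : ℝ) ^ 2) * (Real.exp (-x) + δ)
      linarith)
  -- the result at `max M (E i₀)`
  have hM2 := hres (max M (En i₀)) (le_max_right _ _)
  have hTM : NE μ V L e C i₁ A i₀ M ≤ NE μ V L e C i₁ A i₀ (max M (En i₀)) := NE_mono hV _ _ _ _ le_rfl (le_max_left _ _)
  refine hTM.trans (hM2.trans (add_le_add ?_ ?_))
  · -- the main term
    refine mul_le_mul_of_nonneg_right ?_ hP0
    have e1 : max M (En i₀) ≤ (L : ℝ) ^ (ε / 8) * M := by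
      refine max_le ?_ ?_
      · exact le_mul_of_one_le_left (by linarith) (Real.one_le_rpow hL1 (by positivity))
      · have e2 : En i₀ ≤ (L : ℝ) ^ (ε / 8) := by rw [hEn]; exact hE0
        exact e2.trans (le_mul_of_one_le_right (by positivity) hM)
    have e2 : (x ^ 8) ^ k ≤ (L : ℝ) ^ (ε / 4) := by
      rw [← pow_mul, hx, ← Real.rpow_natCast, ← Real.rpow_mul hL0.le]
      refine Real.rpow_le_rpow_of_exponent_le hL1 ?_
      push_cast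
      exact hε2k
    have hEa' : En V.a = EE' μ (2 ^ V.a) := by rw [hEn]
    rw [hEa']
    have e3 : max M (En i₀) / EE' μ (2 ^ V.a) ≤ (L : ℝ) ^ (ε / 8) * (M / EE' μ (2 ^ V.a)) := by
      rw [mul_div_assoc']
      exact div_le_div_of_nonneg_right e1 hEa.le
    have e0 : 0 ≤ max M (En i₀) / EE' μ (2 ^ V.a) := div_nonneg (le_trans (by linarith) (le_max_left _ _)) hEa.le
    calc (x ^ 8) ^ k * (16 * K₂ ^ 2 * (L : ℝ) ^ e₂) * (max M (En i₀) / EE' μ (2 ^ V.a)) ≤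
          (L : ℝ) ^ (ε / 4) * ((L : ℝ) ^ (ε / 8) * (L : ℝ) ^ e₂) * ((L : ℝ) ^ (ε / 8) * (M / EE' μ (2 ^ V.a))) := by
            refine mul_le_mul (mul_le_mul e2 (mul_le_mul_of_nonneg_right hL6 (by positivity)) (by positivity) (by positivity)) e3
              e0 (by positivity)
      _ = (L : ℝ) ^ (ε / 4 + (ε / 8 + e₂) + ε / 8) * (M / EE' μ (2 ^ V.a)) := by
            rw [Real.rpow_add hL0, Real.rpow_add hL0, Real.rpow_add hL0]
            ring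
      _ ≤ (L : ℝ) ^ ε * (M / EE' μ (2 ^ V.a)) := by
            refine mul_le_mul_of_nonneg_right (Real.rpow_le_rpow_of_exponent_le hL1 ?_) (by positivity)
            rw [he₂]
            linarith
  · -- the error
    have hLc : 0 < (L : ℝ) ^ c' := by positivity
    have e1 : 3 * (L : ℝ) ^ c' ≤ x := by
      have e2 : (L : ℝ) ^ c' * (L : ℝ) ^ c' ≤ (L : ℝ) ^ ε₂ := by
        rw [← Real.rpow_add hL0]
        refine Real.rpow_le_rpow_of_exponent_le hL1 ?_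
        rw [hc']
        have := min_le_left ε₂ cδ
        linarith
      rw [hx]
      have e3 : 3 ≤ (L : ℝ) ^ c' := (le_max_left _ _).trans hL8
      exact (mul_le_mul_of_nonneg_right e3 hLc.le).trans e2
    have e2 : 3 * (L : ℝ) ^ c' ≤ (L : ℝ) ^ cδ := by
      have e2 : (L : ℝ) ^ c' * (L : ℝ) ^ c' ≤ (L : ℝ) ^ cδ := by
        rw [← Real.rpow_add hL0]
        refine Real.rpow_le_rpow_of_exponent_le hL1 ?_
        rw [hc']
        have := min_le_right ε₂ cδ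
        linarith
      have e3 : 3 ≤ (L : ℝ) ^ c' := (le_max_left _ _).trans hL8
      exact (mul_le_mul_of_nonneg_right e3 hLc.le).trans e2
    obtain ⟨z, hz⟩ : ∃ z, z = Real.exp ((L : ℝ) ^ c') := ⟨_, rfl⟩
    have hz0 : 0 < z := by rw [hz]; exact Real.exp_pos _
    have e3 : Real.exp (-x) + δ ≤ 2 * Real.exp (-(3 * (L : ℝ) ^ c')) := by
      rw [hδ]
      have f1 : Real.exp (-x) ≤ Real.exp (-(3 * (L : ℝ) ^ c')) := Real.exp_le_exp.2 (by linarith)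
      have f2 : Real.exp (-(L : ℝ) ^ cδ) ≤ Real.exp (-(3 * (L : ℝ) ^ c')) := Real.exp_le_exp.2 (by linarith)
      linarith
    have e4 : Real.exp (-(3 * (L : ℝ) ^ c')) = Real.exp (-(L : ℝ) ^ c') * (z⁻¹ * z⁻¹) := by
      rw [hz, ← Real.exp_neg, ← Real.exp_add, ← Real.exp_add]
      congr 1
      ring
    have e5 : 200 * k * K₂ ≤ z := by
      have f1 : 200 * k * K₂ ≤ (L : ℝ) ^ c' := (le_max_right _ _).trans hL8
      rw [hz]
      have f2 := Real.add_one_le_exp ((L : ℝ) ^ c')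
      linarith
    have e6 : (x ^ 8) ^ k * (x ^ 5 * (L : ℝ) ^ 2) ≤ z := by
      rw [hz]
      refine le_trans (le_of_eq ?_) hL9
      rw [← pow_mul, ← mul_assoc, ← pow_add, hx, ← Real.rpow_natCast, ← Real.rpow_mul hL0.le, Real.rpow_add hL0]
      congr 1
      · congr 1
        push_cast
        ring
      · rw [show (2 : ℝ) = ((2 : ℕ) : ℝ) by norm_num, Real.rpow_natCast]
    have e7 : 0 ≤ (x ^ 8) ^ k * (x ^ 5 * (L : ℝ) ^ 2) := by positivity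
    calc (k : ℝ) * (x ^ 8) ^ k * (100 * K₂ * (x ^ 5 * (L : ℝ) ^ 2) * (Real.exp (-x) + δ)) ≤
          (k : ℝ) * (x ^ 8) ^ k * (100 * K₂ * (x ^ 5 * (L : ℝ) ^ 2) * (2 * Real.exp (-(3 * (L : ℝ) ^ c')))) :=
            mul_le_mul_of_nonneg_left (mul_le_mul_of_nonneg_left e3 (by positivity)) (by positivity)
      _ = (200 * k * K₂) * ((x ^ 8) ^ k * (x ^ 5 * (L : ℝ) ^ 2)) * (Real.exp (-(L : ℝ) ^ c') * (z⁻¹ * z⁻¹)) := by
            rw [e4]
            ring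
      _ ≤ z * z * (Real.exp (-(L : ℝ) ^ c') * (z⁻¹ * z⁻¹)) := by
            refine mul_le_mul_of_nonneg_right (mul_le_mul e5 e6 e7 hz0.le) (by positivity)
      _ = Real.exp (-(L : ℝ) ^ c') := by
            field_simp

/-- **TieE from the inputs.** -/
theorem tieE_of [IsProbabilityMeasure μ] {cI CI : ℝ} {nI : ℕ} (hI : In μ cI CI nI) (hF : HF2 μ) (hin : AllIn μ) : TieE μ := by
  intro ε hε
  obtain ⟨e₁, ε₂, h1, h2, h3, h4⟩ := tie_core hI hF hε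
  obtain ⟨e₀, h5, h6⟩ := hin ε₂ e₁ h3 h1
  refine ⟨e₁, h1, h2, min e₀ (ε₂ / 2), lt_min h5 (by positivity), fun e he hee C hC => ?_⟩
  exact h4 e he (hee.trans_le (min_le_right _ _)).le C (h6 e he (hee.trans_le (min_le_left _ _)) C hC)

/-- The same for one constant `C`. -/
theorem tieEC_of [IsProbabilityMeasure μ] {cI CI : ℝ} {nI : ℕ} (hI : In μ cI CI nI) (hF : HF2 μ) {C : ℝ} (hin : AllInC μ C) :
    TieEC μ C := by
  intro ε hε
  obtain ⟨e₁, ε₂, h1, h2, h3, h4⟩ := tie_core hI hF hε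
  obtain ⟨e₀, h5, h6⟩ := hin ε₂ e₁ h3 h1
  refine ⟨e₁, h1, h2, min e₀ (ε₂ / 2), lt_min h5 (by positivity), fun e he hee => ?_⟩
  exact h4 e he (hee.trans_le (min_le_right _ _)).le C (h6 e he (hee.trans_le (min_le_left _ _)))

theorem TieE.toC (h : TieE μ) {C : ℝ} (hC : 0 < C) : TieEC μ C := by
  intro ε hε
  obtain ⟨e₁, h1, h2, e₀, h3, h4⟩ := h ε hε
  exact ⟨e₁, h1, h2, e₀, h3, fun e he hee => h4 e he hee C hC⟩

end

end Pool.Agent.W_7d29a1_ZE
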