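import Pool.Agent.W_7d29a1_ZE.StepOf
import Pool.Agent.W_7d29a1_ZE.DetP
import Pool.Agent.W_7d29a1_ZE.TieE

/-!
STORM Z, second storey: the inputs of the step at all the scales of all the windows, from the statement `CellSt` of the cells.
(helper18)
-/

namespace Pool.Agent.W_7d29a1_ZE

open MeasureTheory ProbabilityTheory Filter Topology Finset
open Pool.Agent.W_7d29a1_F Pool.Agent.W_7d29a1_G Pool.Agent.W_7d29a1_Z
open Pool.Agent.W_7d29a1_Z15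
open Pool.Agent.W_7d29a1_SR (In wd)
open scoped ENNReal

noncomputable section

variable {μ : Measure ℝ}

/-- The statement of the cells: at every scale of every window there are columns of width `D` with `CellIn`. -/
def CellSt (μ : Measure ℝ) : Prop :=
  ∀ e1 ε₂ : ℝ, 0 < e1 → 0 < ε₂ → ∃ e₀ : ℝ, 0 < e₀ ∧ ∀ e : ℝ, 0 < e → e < e₀ → ∀ C : ℝ, 0 < C → ∃ c' : ℝ, 0 < c' ∧ ∃ L₀ : ℕ,
    ∀ L : ℕ, L₀ ≤ L → ∀ V : Win, V.Ok L → ∀ i i₁ : ℕ, (L : ℝ) ^ e1 ≤ 2 ^ i → i ≤ i₁ → i₁ ≤ V.a →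
      (L : ℝ) ^ e1 ≤ 2 ^ (V.a - i₁) → ∀ A : Env → Finset ℕ → Prop, Ms A → OffRows V.J A →
        ∃ D : ℕ, wd' μ (2 ^ i) ≤ D ∧ (D : ℝ) ≤ (L : ℝ) ^ e * wd' μ (2 ^ i) ∧
          CellIn μ V L e C i i₁ D A ((L : ℝ) ^ ε₂) (Real.exp (-(L : ℝ) ^ c'))

theorem stepIn_mono {V : Win} {L : ℕ} {e C : ℝ} {i i₁ : ℕ} {A : Env → Finset ℕ → Prop} {x δ δ' : ℝ} (hδ : δ ≤ δ')
    (h : StepIn μ V L e C i i₁ A x δ) : StepIn μ V L e C i i₁ A x δ' := by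
  obtain ⟨Z, p, t, T, K, o, q, F0, E, h1, h2, h3, h4, h5, h6, h7⟩ := h
  exact ⟨Z, p, t, T, K, o, q, F0, E, h1, h2, h3, h4, h5, h6.trans hδ, h7⟩

theorem lowE_of_lowD {V : Win} {L : ℕ} {e : ℝ} {i D : ℕ} {B B' : ℝ} {η : Env} (h : LowD μ V L e i D B η) (hB : B ≤ B') :
    LowE μ V L e i B' η := by
  intro T hT k hk u u' hp
  refine (Real.exp_le_exp.2 (neg_le_neg hB)).trans ((h T hT k hk u u' hp 0).trans ?_)
  exact kLP_le_kL V _ η _ _ u u'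

theorem real_of_le {S : Set Env} {p : ℝ} (hp : 0 ≤ p) (h : law μ S ≤ ENNReal.ofReal p) : (law μ).real S ≤ p := by
  rw [measureReal_def]
  exact ENNReal.toReal_le_of_le_ofReal hp h

/-- Two small probabilities. -/
theorem two_exp {c₁ c₂ : ℝ} (h1 : 0 < c₁) (h2 : 0 < c₂) : ∃ c' : ℝ, 0 < c' ∧ ∃ L₀ : ℕ, ∀ L : ℕ, L₀ ≤ L →
    Real.exp (-(L : ℝ) ^ c₁) + Real.exp (-(L : ℝ) ^ c₂) ≤ Real.exp (-(L : ℝ) ^ c') := by
  have hm : 0 < min c₁ c₂ := lt_min h1 h2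
  have e1 := Pool.Agent.W_7d29a1_Z22.absorb 2 0 (b := 1) (g := min c₁ c₂) one_pos hm
  obtain ⟨L₁, hL₁⟩ := eventually_atTop.1 e1
  refine ⟨min c₁ c₂ / 2, by positivity, max L₁ 1, fun L hL => ?_⟩
  have h3 := hL₁ L ((le_max_left _ _).trans hL)
  have hL1 : (1 : ℝ) ≤ L := by exact_mod_cast (le_max_right _ _).trans hL
  rw [Real.rpow_zero, mul_one, one_mul] at h3
  have h4 : Real.exp (-(L : ℝ) ^ c₁) ≤ Real.exp (-(L : ℝ) ^ min c₁ c₂) :=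
    Real.exp_le_exp.2 (neg_le_neg (Real.rpow_le_rpow_of_exponent_le hL1 (min_le_left _ _)))
  have h5 : Real.exp (-(L : ℝ) ^ c₂) ≤ Real.exp (-(L : ℝ) ^ min c₁ c₂) :=
    Real.exp_le_exp.2 (neg_le_neg (Real.rpow_le_rpow_of_exponent_le hL1 (min_le_right _ _)))
  linarith

variable [IsProbabilityMeasure μ] {c C₀ : ℝ} {n₀ : ℕ}

/-- **The inputs of the step at all the scales.** -/
theorem allIn_of (h : In μ c C₀ n₀) (hF : HF2 μ) (hCell : CellSt μ) : AllIn μ := by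
  intro ε₂ e1 hε₂ he1
  obtain ⟨κ, hκ, hOff⟩ := offc h hF
  obtain ⟨ε₃, hε₃, L₁, hTou⟩ := tou_of h hF hκ (ε₂ / 4) (by positivity)
  obtain ⟨c₁, hc₁, L₂, hOff⟩ := hOff ε₃ hε₃
  obtain ⟨ε₄, hε₄⟩ : ∃ ε₄ : ℝ, ε₄ = min ε₃ (ε₂ / 4) := ⟨_, rfl⟩
  have hε₄0 : 0 < ε₄ := by rw [hε₄]; exact lt_min hε₃ (by positivity)
  have h43 : ε₄ ≤ ε₃ := by rw [hε₄]; exact min_le_left _ _
  have h42 : ε₄ ≤ ε₂ / 4 := by rw [hε₄]; exact min_le_right _ _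
  obtain ⟨e₀, he₀, hDet⟩ := det_prob h hF e1 ε₄ he1 hε₄0
  obtain ⟨e₀', he₀', hCe⟩ := hCell e1 (ε₂ / 4) he1 (by positivity)
  refine ⟨min e₀ e₀', lt_min he₀ he₀', fun e he hee C hC => ?_⟩
  obtain ⟨c₂, hc₂, L₃, hDet⟩ := hDet e he (hee.trans_le (min_le_left _ _))
  obtain ⟨c₃, hc₃, L₄, hCe⟩ := hCe e he (hee.trans_le (min_le_right _ _)) C hC
  obtain ⟨c₄, hc₄, L₅, h12⟩ := two_exp hc₁ hc₂
  obtain ⟨c₅, hc₅, L₆, h34⟩ := two_exp hc₃ hc₄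
  have ev1 : ∀ᶠ L : ℕ in atTop, 2 ≤ (L : ℝ) ^ (ε₂ / 2) :=
    ((tendsto_rpow_atTop (by positivity : 0 < ε₂ / 2)).comp tendsto_natCast_atTop_atTop).eventually_ge_atTop _
  obtain ⟨L₇, hL₇⟩ := eventually_atTop.1 ev1
  refine ⟨c₅, hc₅, max (max (max L₁ L₂) (max L₃ L₄)) (max (max L₅ L₆) (max L₇ 1)), fun L hL V hV i i₁ h2i' hi hi₁ h2a A hA hAo => ?_⟩
  have g1 : L₁ ≤ L := (le_max_left _ _).trans ((le_max_left _ _).trans ((le_max_left _ _).trans hL))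
  have g2 : L₂ ≤ L := (le_max_right _ _).trans ((le_max_left _ _).trans ((le_max_left _ _).trans hL))
  have g3 : L₃ ≤ L := (le_max_left _ _).trans ((le_max_right _ _).trans ((le_max_left _ _).trans hL))
  have g4 : L₄ ≤ L := (le_max_right _ _).trans ((le_max_right _ _).trans ((le_max_left _ _).trans hL))
  have g5 : L₅ ≤ L := (le_max_left _ _).trans ((le_max_left _ _).trans ((le_max_right _ _).trans hL))
  have g6 : L₆ ≤ L := (le_max_right _ _).trans ((le_max_left _ _).trans ((le_max_right _ _).trans hL))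
  have g7 : L₇ ≤ L := (le_max_left _ _).trans ((le_max_right _ _).trans ((le_max_right _ _).trans hL))
  have g8 : 1 ≤ L := (le_max_right _ _).trans ((le_max_right _ _).trans ((le_max_right _ _).trans hL))
  have hLR : (1 : ℝ) ≤ L := by exact_mod_cast g8
  have hL0 : (0 : ℝ) < L := by linarith
  obtain ⟨D, hD1, hD2, hcell⟩ := hCe L g4 V hV i i₁ h2i' hi hi₁ h2a A hA hAo
  have h2i : (L : ℝ) ^ e1 ≤ ((2 ^ i : ℕ) : ℝ) := by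
    rw [Nat.cast_pow]
    exact h2i'
  have hEE : 1 ≤ EE' μ (2 ^ i) := le_max_left _ _
  have hia : i ≤ V.a := hi.trans hi₁
  -- the good event
  obtain ⟨G₁, hG₁⟩ : ∃ G₁ : Set Env, G₁ = {η | ¬ OffC μ L ε₃ κ (sh (0, V.x₀) η)} := ⟨_, rfl⟩
  obtain ⟨G₂, hG₂⟩ : ∃ G₂ : Set Env, G₂ = {η | ¬ ∀ i : ℕ, (L : ℝ) ^ e1 ≤ ((2 ^ i : ℕ) : ℝ) → i ≤ V.a → ∀ D : ℕ,
      (D : ℝ) ≤ (L : ℝ) ^ e * wd' μ (2 ^ i) → LowD μ V L e i D ((L : ℝ) ^ ε₄ * EE' μ (2 ^ i)) η ∧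
        DetE μ V L e i D ((L : ℝ) ^ ε₄ * EE' μ (2 ^ i)) η} := ⟨_, rfl⟩
  have hp₁ : (law μ).real G₁ ≤ Real.exp (-(L : ℝ) ^ c₁) := by
    rw [hG₁]
    exact offc_sh (hOff L g2) (Real.exp_pos _).le _
  have hp₂ : (law μ).real G₂ ≤ Real.exp (-(L : ℝ) ^ c₂) := by
    rw [hG₂]
    exact real_of_le (Real.exp_pos _).le (hDet L g3 V hV)
  have hE1 : (law μ).real ((G₁ ∪ G₂)ᶜ)ᶜ ≤ Real.exp (-(L : ℝ) ^ c₄) := by
    rw [compl_compl]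
    exact (measureReal_union_le _ _).trans ((add_le_add hp₁ hp₂).trans (h12 L g5))
  have hx1 : 1 ≤ (L : ℝ) ^ (ε₂ / 4) := Real.one_le_rpow hLR (by positivity)
  have hδ1 : Real.exp (-(L : ℝ) ^ c₄) < 1 := by
    rw [Real.exp_lt_one_iff]
    have := Real.rpow_pos_of_pos hL0 c₄
    linarith
  refine stepIn_mono (h34 L g6) (stepIn_of (x := (L : ℝ) ^ (ε₂ / 4)) (K := (L : ℝ) ^ (ε₂ / 4))
    (ct := (L : ℝ) ^ ε₄ * EE' μ (2 ^ i)) hV hi₁ hi hx1 ?_ (by positivity) ?_ ?_ ?_ hcell (E := (G₁ ∪ G₂)ᶜ) ?_ hE1 hδ1)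
  · exact Real.rpow_le_rpow_of_exponent_le hLR (by linarith)
  · exact one_le_mul_of_one_le_of_one_le (Real.one_le_rpow hLR hε₄0.le) hEE
  · exact mul_le_mul_of_nonneg_right (Real.rpow_le_rpow_of_exponent_le hLR h42) (by linarith)
  · have e1' : (L : ℝ) ^ ε₂ = (L : ℝ) ^ (ε₂ / 2) * ((L : ℝ) ^ (ε₂ / 4) * (L : ℝ) ^ (ε₂ / 4)) := by
      rw [← Real.rpow_add hL0, ← Real.rpow_add hL0]
      congr 1
      ring
    rw [e1']
    exact mul_le_mul_of_nonneg_right (hL₇ L g7) (by positivity)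
  · intro η hη
    have hη1 : OffC μ L ε₃ κ (sh (0, V.x₀) η) := by
      by_contra hc
      refine hη (Or.inl ?_)
      rw [hG₁]
      exact hc
    have hη2 : ∀ i : ℕ, (L : ℝ) ^ e1 ≤ ((2 ^ i : ℕ) : ℝ) → i ≤ V.a → ∀ D : ℕ,
      (D : ℝ) ≤ (L : ℝ) ^ e * wd' μ (2 ^ i) → LowD μ V L e i D ((L : ℝ) ^ ε₄ * EE' μ (2 ^ i)) η ∧
        DetE μ V L e i D ((L : ℝ) ^ ε₄ * EE' μ (2 ^ i)) η := by
      by_contra hc
      refine hη (Or.inr ?_)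
      rw [hG₂]
      exact hc
    obtain ⟨k1, k2⟩ := hη2 i h2i hia D hD2
    refine ⟨k2, hTou L g1 V hV e i D hia hD1 η hη1 (lowE_of_lowD k1 ?_)⟩
    exact mul_le_mul_of_nonneg_right (Real.rpow_le_rpow_of_exponent_le hLR h43) (by linarith)

/-- **The natural price of near ties**, from the cells. -/
theorem tieE_cell (h : In μ c C₀ n₀) (hF : HF2 μ) (hCell : CellSt μ) : TieE μ := tieE_of h hF (allIn_of h hF hCell)

end

end Pool.Agent.W_7d29a1_ZE
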