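import Pool.Agent.W_7d29a1_ZE.Lay

/-!
STORM Z, second storey: consequences of the decomposition at one layer. Comparison of the ratios `rP` from the comparison of the
kernels of one layer; the competitors which avoid a cell. (helper18)
-/

namespace Pool.Agent.W_7d29a1_ZE

open MeasureTheory ProbabilityTheory Filter Topology Finset
open Pool.Agent.W_7d29a1_F Pool.Agent.W_7d29a1_X Pool.Agent.W_7d29a1_Z
open Pool.Agent.W_7d29a1_Z15 (Cls kC rC AdC NTc kC_nonneg)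
open scoped ENNReal

noncomputable section

variable {μ : Measure ℝ}

theorem Win.Ok.row_lt {V : Win} {L : ℕ} (h : V.Ok L) {T : ℕ} (hT : T ∈ V.Iv) : T + 2 ^ V.a < V.N := h.le T hT

theorem mem_J {V : Win} {t : ℕ} : t ∈ V.J ↔ ∃ T ∈ V.Iv, T < t ∧ t ≤ T + 2 ^ V.a := by
  unfold Win.J
  simp only [mem_biUnion, mem_Ioc]

theorem br_le {V : Win} {b : ℕ × ℕ} (hb : b ∈ Br V) : b.1 ≤ V.N ∧ b.2 ≤ V.N ∧ ∀ T ∈ V.Iv, b.1 ≤ T ∧ T + 2 ^ V.a < b.2 := by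
  unfold Br at hb
  rw [mem_filter, mem_product, mem_range, mem_range] at hb
  obtain ⟨⟨h1, h2⟩, h3, h4⟩ := hb
  refine ⟨by omega, by omega, fun T hT => ?_⟩
  have hp : 0 < 2 ^ V.a := Nat.pos_of_ne_zero (by positivity)
  have h5 := (h4 (T + 1) (mem_J.2 ⟨T, hT, by omega, by omega⟩)).1
  have h6 := (h4 (T + 2 ^ V.a) (mem_J.2 ⟨T, hT, by omega, le_rfl⟩)).2
  exact ⟨by omega, h6⟩

theorem br_ne {V : Win} {L : ℕ} (hV : V.Ok L) {b : ℕ × ℕ} (hb : b ∈ Br V) : b.1 ≤ b.2 := by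
  obtain ⟨T, hT⟩ := hV.ne
  have h1 := (br_le hb).2.2 T hT
  have hp : 0 < 2 ^ V.a := Nat.pos_of_ne_zero (by positivity)
  omega

/-- The layer `z` is inside its interval. -/
theorem al_le {V : Win} {i : ℕ} (hi : i ≤ V.a) {z : Ce} (hk : z.2.1 < 2 ^ (V.a - i)) :
    z.1 ≤ al i z ∧ al i z + 2 ^ i ≤ z.1 + 2 ^ V.a := by
  unfold al
  refine ⟨Nat.le_add_right _ _, ?_⟩
  have h1 : (z.2.1 + 1) * 2 ^ i ≤ 2 ^ (V.a - i) * 2 ^ i := Nat.mul_le_mul_right _ hk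
  have h2 : 2 ^ (V.a - i) * 2 ^ i = 2 ^ V.a := by rw [← pow_add]; congr 1; omega
  rw [add_mul, one_mul] at h1
  omega

/-- The nodes of the scales `≥ i` are outside the open layers of the scale `i`. -/
theorem ndOut {V : Win} {L : ℕ} (hV : V.Ok L) {i i₁ : ℕ} (hi₁ : i₁ ≤ V.a) (hi : i ≤ i₁) {z : Ce} (hz : z.1 ∈ V.Iv)
    (hk : z.2.1 < 2 ^ (V.a - i)) : NdOut V i i₁ (al i z) (al i z + 2 ^ i) := by
  intro i' h1 h2 T hT k' hk'
  obtain ⟨h3, h4⟩ := al_le (hi.trans hi₁) hk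
  have h5 : k' * 2 ^ i' ≤ 2 ^ V.a := by
    calc k' * 2 ^ i' ≤ 2 ^ (V.a - i') * 2 ^ i' := Nat.mul_le_mul_right _ hk'
      _ = 2 ^ V.a := by rw [← pow_add]; congr 1; omega
  by_cases hTz : T = z.1
  · subst hTz
    unfold al
    have h6 : k' * 2 ^ i' = (k' * 2 ^ (i' - i)) * 2 ^ i := by
      rw [mul_assoc, ← pow_add]
      congr 2
      omega
    rw [h6]
    rcases le_or_gt (k' * 2 ^ (i' - i)) z.2.1 with h7 | h7
    · left
      have := Nat.mul_le_mul_right (2 ^ i) h7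
      omega
    · right
      have h8 : (z.2.1 + 1) * 2 ^ i ≤ (k' * 2 ^ (i' - i)) * 2 ^ i := Nat.mul_le_mul_right (2 ^ i) h7
      rw [add_mul, one_mul] at h8
      omega
  · rcases hV.sep T hT z.1 hz hTz with h6 | h6
    · left; omega
    · right; omega

open scoped Classical in
/-- A positive outside weight forces the conditions on the two nodes of the layer. -/
theorem pr_of_out {V : Win} {L : ℕ} {e C : ℝ} {i i₁ : ℕ} (hi : i ≤ i₁) {z : Ce} (hz : z.1 ∈ V.Iv)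
    (hk : z.2.1 < 2 ^ (V.a - i)) {b : ℕ × ℕ} {x y : ℤ} {g1 : Finset ℕ} {u' : ℤ} {η : Env}
    (h : outL μ V L e C i i₁ (al i z) (al i z + 2 ^ i) b x y g1 u' η ≠ 0) :
    Pr μ V L e i (al i z) (ps 0 b.1 x g1 (al i z)) u' := by
  unfold outL at h
  have h1 := right_ne_zero_of_mul h
  obtain ⟨g3, _, h2⟩ := exists_ne_zero_of_sum_ne_zero h1
  have h3 := right_ne_zero_of_mul h2
  have h4 : ∀ j, i ≤ j → j ≤ i₁ → ∀ T ∈ V.Iv, Nod μ V L e C j T (glu (al i z) (al i z + 2 ^ i) b.1 x g1 u' g3) := by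
    by_contra hc
    exact h3 (if_neg fun h5 => hc h5.2.2.2)
  have h5 := h4 i le_rfl hi z.1 hz
  have hp : 0 < 2 ^ i := Nat.pos_of_ne_zero (by positivity)
  have e0 : glu (al i z) (al i z + 2 ^ i) b.1 x g1 u' g3 (z.1 + z.2.1 * 2 ^ i) = ps 0 b.1 x g1 (al i z) := by
    unfold glu
    exact if_pos le_rfl
  have e1 : glu (al i z) (al i z + 2 ^ i) b.1 x g1 u' g3 (z.1 + (z.2.1 + 1) * 2 ^ i) = u' := by
    have e2 : z.1 + (z.2.1 + 1) * 2 ^ i = al i z + 2 ^ i := by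
      unfold al
      ring
    rw [e2]
    unfold glu
    rw [if_neg (by omega)]
    exact ps_self _ _ _ _
  have s1 := h5.step z.2.1 hk
  have w1 := h5.wall z.2.1 hk.le
  have w2 := h5.wall (z.2.1 + 1) hk
  rw [e0, e1] at s1
  rw [e0] at w1
  rw [e1] at w2
  have c1 : ((z.1 + z.2.1 * 2 ^ i : ℕ) : ℝ) = (al i z : ℝ) := by
    unfold al
    rfl
  have c2 : ((z.1 + (z.2.1 + 1) * 2 ^ i : ℕ) : ℝ) = (al i z : ℝ) + (2 ^ i : ℕ) := by
    unfold al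
    push_cast
    ring
  rw [c1] at w1
  rw [c2] at w2
  exact ⟨s1, w1.1, w1.2, w2.1, w2.2⟩

/-- The kernel of the class as the kernel with a trivial condition in the layer. -/
theorem kC_triv (V : Win) (L : ℕ) (e C : ℝ) (i₀ i₁ α β : ℕ) (S : Finset ℕ) (b : ℕ × ℕ) (η : Env) :
    kC μ (clE μ V L e C i₀ i₁) S b η = kC μ (cAnd (clE μ V L e C i₀ i₁) (LayC α β fun _ _ => True)) S b η := by
  have : clE μ V L e C i₀ i₁ = cAnd (clE μ V L e C i₀ i₁) (LayC α β fun _ _ => True) := by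
    funext a x c g
    unfold cAnd LayC
    rw [and_true]
  rw [← this]

theorem kL_triv (V : Win) (η : Env) (α h : ℕ) (u u' : ℤ) : kL μ V η α h u u' = kLP μ V (fun _ _ => True) η α h u u' := by
  unfold kL kLP
  simp only [and_true]

theorem kLP_nonneg (V : Win) (Φ : ℤ → Finset ℕ → Prop) (η : Env) (α h : ℕ) (u u' : ℤ) : 0 ≤ kLP μ V Φ η α h u u' :=
  Kc_nonneg _ _ _ _ _ _ _

theorem kL_nonneg (V : Win) (η : Env) (α h : ℕ) (u u' : ℤ) : 0 ≤ kL μ V η α h u u' :=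
  Kc_nonneg _ _ _ _ _ _ _

theorem Kc_mono_cl {C C' : Finset ℕ → Prop} (h : ∀ g, C g → C' g) (η : Env) (t1 : ℕ) (x : ℤ) (t2 : ℕ) (y : ℤ) :
    Kc μ 0 0 C η t1 x t2 y ≤ Kc μ 0 0 C' η t1 x t2 y := by
  classical
  unfold Kc
  refine sum_le_sum_of_subset_of_nonneg ?_ fun _ _ _ => pw_nonneg _ _ _ _ _ _
  intro g hg
  rw [mem_filter] at hg ⊢
  exact ⟨hg.1, h g hg.2⟩

theorem Kc_split (C A : Finset ℕ → Prop) (η : Env) (t1 : ℕ) (x : ℤ) (t2 : ℕ) (y : ℤ) :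
    Kc μ 0 0 C η t1 x t2 y = Kc μ 0 0 (fun g => C g ∧ A g) η t1 x t2 y + Kc μ 0 0 (fun g => C g ∧ ¬ A g) η t1 x t2 y := by
  classical
  unfold Kc
  rw [← sum_filter_add_sum_filter_not (s := (pcs 0 t1 x t2 y).filter C) (p := A)]
  congr 1
  · refine sum_congr ?_ fun _ _ => rfl
    ext g
    simp only [mem_filter]
    tauto
  · refine sum_congr ?_ fun _ _ => rfl
    ext g
    simp only [mem_filter]
    tauto

theorem kLP_le (V : Win) (Φ : ℤ → Finset ℕ → Prop) (η : Env) (α h : ℕ) (u u' : ℤ) : kLP μ V Φ η α h u u' ≤ kL μ V η α h u u' :=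
  Kc_mono_cl (fun _ hg => hg.1) _ _ _ _ _

/-- **Comparison, lower bound.** -/
theorem rP_ge {V : Win} {L : ℕ} (hV : V.Ok L) {e C : ℝ} {i i₁ : ℕ} (hi₁ : i₁ ≤ V.a) (hi : i ≤ i₁) {z : Ce} (hz : z.1 ∈ V.Iv)
    (hk : z.2.1 < 2 ^ (V.a - i)) {Φ : ℤ → Finset ℕ → Prop} {κ : ℝ} {η : Env}
    (h : ∀ u u', Pr μ V L e i (al i z) u u' → κ * kL μ V η (al i z) (2 ^ i) u u' ≤ kLP μ V Φ η (al i z) (2 ^ i) u u')
    (S : Finset ℕ) : κ * rE μ V L e C i i₁ S η ≤ rP μ V L e C i i₁ (LayC (al i z) (al i z + 2 ^ i) Φ) S η := by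
  unfold rE rP rC
  rw [mul_sum]
  refine sum_le_sum fun b hb => ?_
  rw [mul_div_assoc']
  refine div_le_div_of_nonneg_right ?_ (kC_nonneg _ _ _ _)
  obtain ⟨h1, h2, h3⟩ := br_le hb
  obtain ⟨h4, h5⟩ := al_le (hi.trans hi₁) hk
  have h6 := h3 z.1 hz
  have hn := ndOut hV hi₁ hi hz hk
  have hp : 0 < 2 ^ i := Nat.pos_of_ne_zero (by positivity)
  rw [kC_triv V L e C i i₁ (al i z) (al i z + 2 ^ i) S b η,
    lay_eq (by omega) (by omega) hn hp (fun T hT => ⟨(h3 T hT).1, (h3 T hT).2.le⟩) hi₁,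
    lay_eq (by omega) (by omega) hn hp (fun T hT => ⟨(h3 T hT).1, (h3 T hT).2.le⟩) hi₁, mul_sum]
  refine sum_le_sum fun g1 _ => ?_
  rw [mul_sum]
  refine sum_le_sum fun u' _ => ?_
  have h7 := outL_nonneg (μ := μ) V L e C i i₁ (al i z) (al i z + 2 ^ i) b (pos S b.1) (pos S b.2) g1 u' η
  rcases h7.eq_or_lt with h8 | h8
  · rw [← h8, zero_mul, zero_mul, mul_zero]
  · have h9 := h _ _ (pr_of_out hi hz hk h8.ne')
    rw [kL_triv] at h9
    calc κ * (outL μ V L e C i i₁ (al i z) (al i z + 2 ^ i) b (pos S b.1) (pos S b.2) g1 u' η *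
          kLP μ V (fun _ _ => True) η (al i z) (2 ^ i) (ps 0 b.1 (pos S b.1) g1 (al i z)) u') =
        outL μ V L e C i i₁ (al i z) (al i z + 2 ^ i) b (pos S b.1) (pos S b.2) g1 u' η *
          (κ * kLP μ V (fun _ _ => True) η (al i z) (2 ^ i) (ps 0 b.1 (pos S b.1) g1 (al i z)) u') := by ring
      _ ≤ _ := mul_le_mul_of_nonneg_left h9 h7

/-- **Comparison, upper bound for a family of conditions.** -/
theorem sum_rP_le {V : Win} {L : ℕ} (hV : V.Ok L) {e C : ℝ} {i i₁ : ℕ} (hi₁ : i₁ ≤ V.a) (hi : i ≤ i₁) {z : Ce}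
    (hz : z.1 ∈ V.Iv) (hk : z.2.1 < 2 ^ (V.a - i)) {κ : Type*} {Q : Finset κ} {Φ : κ → ℤ → Finset ℕ → Prop} {K : ℝ} {η : Env}
    (h : ∀ u u', Pr μ V L e i (al i z) u u' →
      ∑ q ∈ Q, kLP μ V (Φ q) η (al i z) (2 ^ i) u u' ≤ K * kL μ V η (al i z) (2 ^ i) u u')
    (S : Finset ℕ) : ∑ q ∈ Q, rP μ V L e C i i₁ (LayC (al i z) (al i z + 2 ^ i) (Φ q)) S η ≤ K * rE μ V L e C i i₁ S η := by
  unfold rE rP rC
  rw [sum_comm, mul_sum]
  refine sum_le_sum fun b hb => ?_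
  rw [mul_div_assoc', ← sum_div]
  refine div_le_div_of_nonneg_right ?_ (kC_nonneg _ _ _ _)
  obtain ⟨h1, h2, h3⟩ := br_le hb
  obtain ⟨h4, h5⟩ := al_le (hi.trans hi₁) hk
  have h6 := h3 z.1 hz
  have hn := ndOut hV hi₁ hi hz hk
  have hp : 0 < 2 ^ i := Nat.pos_of_ne_zero (by positivity)
  have e1 : ∀ Φ' : ℤ → Finset ℕ → Prop, kC μ (cAnd (clE μ V L e C i i₁) (LayC (al i z) (al i z + 2 ^ i) Φ')) S b η =
      ∑ g1 ∈ (Ico b.1 (al i z)).powerset, ∑ u' ∈ Icc (ps 0 b.1 (pos S b.1) g1 (al i z))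
        (ps 0 b.1 (pos S b.1) g1 (al i z) + (2 ^ i : ℕ)),
        outL μ V L e C i i₁ (al i z) (al i z + 2 ^ i) b (pos S b.1) (pos S b.2) g1 u' η *
          kLP μ V Φ' η (al i z) (2 ^ i) (ps 0 b.1 (pos S b.1) g1 (al i z)) u' := fun Φ' =>
    lay_eq (by omega) (by omega) hn hp (fun T hT => ⟨(h3 T hT).1, (h3 T hT).2.le⟩) hi₁ Φ' S η
  rw [kC_triv V L e C i i₁ (al i z) (al i z + 2 ^ i) S b η, e1, mul_sum]
  simp_rw [e1]
  rw [sum_comm]
  refine sum_le_sum fun g1 _ => ?_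
  rw [sum_comm, mul_sum]
  refine sum_le_sum fun u' _ => ?_
  rw [← mul_sum]
  have h7 := outL_nonneg (μ := μ) V L e C i i₁ (al i z) (al i z + 2 ^ i) b (pos S b.1) (pos S b.2) g1 u' η
  rcases h7.eq_or_lt with h8 | h8
  · rw [← h8, zero_mul, zero_mul, mul_zero]
  · have h9 := h _ _ (pr_of_out hi hz hk h8.ne')
    rw [kL_triv] at h9
    calc outL μ V L e C i i₁ (al i z) (al i z + 2 ^ i) b (pos S b.1) (pos S b.2) g1 u' η *
          ∑ q ∈ Q, kLP μ V (Φ q) η (al i z) (2 ^ i) (ps 0 b.1 (pos S b.1) g1 (al i z)) u' ≤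
        outL μ V L e C i i₁ (al i z) (al i z + 2 ^ i) b (pos S b.1) (pos S b.2) g1 u' η *
          (K * kLP μ V (fun _ _ => True) η (al i z) (2 ^ i) (ps 0 b.1 (pos S b.1) g1 (al i z)) u') :=
          mul_le_mul_of_nonneg_left h9 h7
      _ = _ := by ring

/-! ### The competitors which avoid a cell -/

/-- The condition of one layer: the piece avoids the column `q` at the middle rows. -/
def AvL (α h D : ℕ) (q : ℤ) (u : ℤ) (g : Finset ℕ) : Prop := ∀ t ∈ mid α h, ps 0 α u g t ∉ col α D q t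

theorem mid_sub {α h t : ℕ} (ht : t ∈ mid α h) : α < t ∧ t ≤ α + h := by
  unfold mid at ht
  rw [mem_Ioc] at ht
  have : 3 * h / 4 ≤ h := by omega
  omega

theorem avZ_iff {i D : ℕ} {z : Ce} {a : ℕ} (ha : a ≤ al i z) (x : ℤ) (c : ℕ) (g : Finset ℕ) :
    AvZ i D z a x c g ↔ LayC (al i z) (al i z + 2 ^ i) (AvL (al i z) (2 ^ i) D z.2.2) a x c g := by
  unfold AvZ LayC AvL
  refine forall₂_congr fun t ht => ?_
  have h1 := mid_sub ht
  rw [ps_inter 0 (al i z) _ g h1.2, ps_chain 0 x g ha h1.1.le]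

theorem toZ_iff {i D : ℕ} {z : Ce} {a : ℕ} (ha : a ≤ al i z) (x : ℤ) (c : ℕ) (g : Finset ℕ) :
    ToZ i D z a x c g ↔ LayC (al i z) (al i z + 2 ^ i) (fun u g => ¬ AvL (al i z) (2 ^ i) D z.2.2 u g) a x c g := by
  unfold ToZ
  rw [avZ_iff ha]
  rfl

theorem Kc_congr' {C C' : Finset ℕ → Prop} (h : ∀ g, C g ↔ C' g) (η : Env) (t1 : ℕ) (x : ℤ) (t2 : ℕ) (y : ℤ) :
    Kc μ 0 0 C η t1 x t2 y = Kc μ 0 0 C' η t1 x t2 y := by
  have : C = C' := funext fun g => propext (h g)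
  rw [this]

theorem rP_av {V : Win} {L : ℕ} {e C : ℝ} {i i₁ D : ℕ} (hi₁ : i₁ ≤ V.a) (hi : i ≤ i₁) {z : Ce}
    (hz : z.1 ∈ V.Iv) (hk : z.2.1 < 2 ^ (V.a - i)) (S : Finset ℕ) (η : Env) :
    rP μ V L e C i i₁ (AvZ i D z) S η =
      rP μ V L e C i i₁ (LayC (al i z) (al i z + 2 ^ i) (AvL (al i z) (2 ^ i) D z.2.2)) S η := by
  unfold rP rC
  refine sum_congr rfl fun b hb => ?_
  congr 1
  unfold kC
  refine Kc_congr' (fun g => ?_) _ _ _ _ _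
  have h1 := (br_le hb).2.2 z.1 hz
  have h2 := al_le (hi.trans hi₁) hk
  unfold cAnd
  rw [avZ_iff (by omega)]

theorem rP_to {V : Win} {L : ℕ} {e C : ℝ} {i i₁ D : ℕ} (hi₁ : i₁ ≤ V.a) (hi : i ≤ i₁) {z : Ce}
    (hz : z.1 ∈ V.Iv) (hk : z.2.1 < 2 ^ (V.a - i)) (S : Finset ℕ) (η : Env) :
    rP μ V L e C i i₁ (ToZ i D z) S η =
      rP μ V L e C i i₁ (LayC (al i z) (al i z + 2 ^ i) fun u g => ¬ AvL (al i z) (2 ^ i) D z.2.2 u g) S η := by
  unfold rP rC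
  refine sum_congr rfl fun b hb => ?_
  congr 1
  unfold kC
  refine Kc_congr' (fun g => ?_) _ _ _ _ _
  have h1 := (br_le hb).2.2 z.1 hz
  have h2 := al_le (hi.trans hi₁) hk
  unfold cAnd
  rw [toZ_iff (by omega)]

/-- The competitors which avoid the cell and those which visit it. -/
theorem rE_split (V : Win) (L : ℕ) (e C : ℝ) (i i₁ D : ℕ) (z : Ce) (S : Finset ℕ) (η : Env) :
    rE μ V L e C i i₁ S η = rP μ V L e C i i₁ (AvZ i D z) S η + rP μ V L e C i i₁ (ToZ i D z) S η := by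
  classical
  unfold rE rP rC
  rw [← sum_add_distrib]
  refine sum_congr rfl fun b _ => ?_
  rw [← add_div]
  congr 1
  exact Kc_split _ (fun g => AvZ i D z b.1 (pos S b.1) b.2 g) _ _ _ _ _

/-! ### Dependence on the environment -/

theorem mem_Tz {i D : ℕ} {z : Ce} {t : ℕ} {x : ℤ} :
    (((t : ℤ), x) : Pt) ∈ Tz i D z ↔ t ∈ mid (al i z) (2 ^ i) ∧ x ∈ col (al i z) D z.2.2 t := mem_sJ

/-- The kernel of a class all of whose pieces avoid a set of sites. -/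
theorem Kc_off {C : Finset ℕ → Prop} {T : Set Pt} {t1 t2 : ℕ} {x y : ℤ}
    (h : ∀ g ∈ pcs 0 t1 x t2 y, C g → ∀ t ∈ Ioc t1 t2, (((t : ℤ), ps 0 t1 x g t) : Pt) ∉ T) {η η' : Env}
    (hη : ∀ q : Pt, q ∉ T → η q = η' q) : Kc μ 0 0 C η t1 x t2 y = Kc μ 0 0 C η' t1 x t2 y := by
  classical
  unfold Kc
  refine sum_congr rfl fun g hg => ?_
  rw [mem_filter] at hg
  exact pw_env 0 _ _ _ _ fun t ht => hη _ (h g hg.1 hg.2 t ht)

/-- The sites of the cells of the window are at the rows of the window and in the strip. -/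
theorem tz_strip {V : Win} {i D : ℕ} (hi : i ≤ V.a) {z : Ce} (hz : z ∈ Zc V i D) {t : ℕ} {x : ℤ}
    (h : (((t : ℤ), x) : Pt) ∈ Tz i D z) :
    t ∈ V.J ∧ V.Y < V.sg * (2 * x - t) ∧ V.sg * (2 * x - t) ≤ V.Y + V.w := by
  classical
  unfold Zc at hz
  rw [mem_filter, mem_product, mem_product, mem_range] at hz
  obtain ⟨⟨hz1, hz2, _⟩, hz3⟩ := hz
  rw [mem_Tz] at h
  obtain ⟨h1, h2⟩ := h
  rw [mem_col] at h2
  have h3 := mid_sub h1
  have h4 := al_le hi hz2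
  refine ⟨mem_J.2 ⟨z.1, hz1, by omega, by omega⟩, ?_⟩
  have h5 := hz3 (2 * x - ((t : ℤ) - al i z)) h2.1 h2.2
  have h6 : 2 * x - ((t : ℤ) - al i z) - (al i z : ℤ) = 2 * x - t := by ring
  rw [h6] at h5
  exact h5

theorem kC_clL_dep {V : Win} {i D : ℕ} (hi : i ≤ V.a) {z : Ce} (hz : z ∈ Zc V i D) (S : Finset ℕ) (b : ℕ × ℕ) {η η' : Env}
    (hη : ∀ q : Pt, q ∉ Tz i D z → η q = η' q) : kC μ (clL V) S b η = kC μ (clL V) S b η' := by
  unfold kC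
  refine Kc_off (T := (Tz i D z : Set Pt)) (fun g _ hC t ht hT => ?_) fun q hq => hη q hq
  have h1 := tz_strip hi hz hT
  have h2 := hC t ht
  unfold Lr at h2
  simp only [Set.mem_ofPred_eq, Int.toNat_natCast] at h2
  have h3 := h2 h1.1
  omega

theorem rP_av_dep {V : Win} {L : ℕ} {e C : ℝ} {i i₁ D : ℕ} (hi : i ≤ V.a) {z : Ce} (hz : z ∈ Zc V i D) (S : Finset ℕ)
    {η η' : Env} (hη : ∀ q : Pt, q ∉ Tz i D z → η q = η' q) :
    rP μ V L e C i i₁ (AvZ i D z) S η = rP μ V L e C i i₁ (AvZ i D z) S η' := by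
  unfold rP rC
  refine sum_congr rfl fun b _ => ?_
  rw [kC_clL_dep hi hz S b hη]
  congr 1
  unfold kC
  refine Kc_off (T := (Tz i D z : Set Pt)) (fun g _ hC t ht hT => ?_) fun q hq => hη q hq
  rw [Finset.mem_coe, mem_Tz] at hT
  exact hC.2 t hT.1 hT.2

end

end Pool.Agent.W_7d29a1_ZE
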