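import Pool.Agent.W_7d29a1_Z.Depth

/-!
STORM Z, leaf DEPC: the Markov depth (`Depth.lean`, `Dep3d.lean` of helper79) with arbitrary classes of trajectories, which depend only on
the positions at rows outside the sheared pieces. (helper36)
-/

set_option autoImplicit false

namespace Pool.Agent.W_7d29a1_Z36

open Finset Pool.Agent.W_7d29a1_Z79

noncomputable section

/-- The class depends only on the positions at the rows `J`. -/
def LocC (J : Finset ℕ) (C : (ℕ → ℤ) → Prop) : Prop := ∀ p p' : ℕ → ℤ, (∀ t ∈ J, p t = p' t) → (C p ↔ C p')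

/-- The kernel of the pieces of the class `C`. -/
def KP (h c : ℝ) (d : ℕ → ℤ) (η : ℤ × ℤ → ℝ) (C : (ℕ → ℤ) → Prop) (i : ℕ) (x : ℤ) (j : ℕ) (z : ℤ) : ℝ := by
  classical
  exact ∑ s ∈ (Ico i j).powerset with ps d x i s j = z ∧ C (ps d x i s), wt h c d η i x j s

variable {h c : ℝ} {d d' : ℕ → ℤ} {η η' : ℤ × ℤ → ℝ}

open scoped Classical in
/-- **Skeleton lemma**, point to point, with a class which depends only on the rows `J` outside the pieces. -/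
theorem skelP {Q : Finset (ℕ × ℕ)} {a b : ℕ} (x y : ℤ) (hab : a ≤ b) (hP : PcQ d d' η η' a b Q) {J : Finset ℕ}
    {C : (ℕ → ℤ) → Prop} (hC : LocC J C) (hJ : ∀ i ∈ J, a ≤ i ∧ i ≤ b) (hout : ∀ i ∈ J, ∀ q ∈ Q, i ≤ q.1 ∨ q.2 ≤ i) :
    ∑ s ∈ (Ico a b).powerset with ps d x a s b = y ∧ C (ps d x a s),
      wt h c d η a x b s * ∏ q ∈ Q, rq h c d η d' η' q (ps d x a s) ≤ KP h c d' η' C a x b y := by
  have hb : ∀ q ∈ Q, b ≤ q.1 ∨ q.2 ≤ b := fun q hq => Or.inr (hP.sub q hq).2.2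
  have key := skelJF (h := h) (c := c) x hab hP (F := fun p => if p b = y ∧ C p then 1 else 0)
    (fun z => by split_ifs <;> norm_num) (by
      intro p p' hpp
      have e1 : p b = p' b := hpp b hab le_rfl hb
      have e2 : C p ↔ C p' := hC p p' fun t ht => hpp t (hJ t ht).1 (hJ t ht).2 (hout t ht)
      have e3 : (p b = y ∧ C p) ↔ (p' b = y ∧ C p') := by
        rw [e1, e2]
      simp only [e3])
  unfold KP
  rw [sum_filter, sum_filter]
  refine le_trans (le_of_eq ?_) (key.trans (le_of_eq ?_))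
  · refine sum_congr rfl fun s _ => ?_
    split_ifs
    · rw [mul_one]
    · rw [mul_zero]
  · refine sum_congr rfl fun s _ => ?_
    split_ifs
    · rw [mul_one]
    · rw [mul_zero]

open scoped Classical in
/-- **The Markov depth at two fixed times** `a ≤ b`. `q.1` is the path of the system `(d, η)` in the class `A`, `q.2` the path of the
system `(d', η')` in the class `AR`; both kernels are kernels of the system `(d, η)`. -/
theorem depthFC (h c : ℝ) (d d' : ℕ → ℤ) (η η' : ℤ × ℤ → ℝ) (N : ℕ) (x0 x0' : ℤ)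
    (E E' : ℤ → Prop) [DecidablePred E] [DecidablePred E'] {a b : ℕ} (Q : Finset (ℕ × ℕ)) (J : Finset ℕ)
    (A AR : (ℕ → ℤ) → Prop) (hA : LocC J A) (hAR : LocC J AR) (hab : a ≤ b) (hbN : b ≤ N) (hQ : PcQ d d' η η' a b Q)
    (hJ : ∀ i ∈ J, a ≤ i ∧ i ≤ b) (hout : ∀ i ∈ J, ∀ q ∈ Q, i ≤ q.1 ∨ q.2 ≤ i)
    {T : ℝ} (hT : 0 < T) (P : Finset ℕ × Finset ℕ → Prop)
    (hP : ∀ q ∈ Om N x0 d E ×ˢ Om N x0' d' E', P q →
      ps d x0 0 q.1 a = ps d' x0' 0 q.2 a ∧ ps d x0 0 q.1 b = ps d' x0' 0 q.2 b ∧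
      A (ps d x0 0 q.1) ∧ AR (ps d' x0' 0 q.2) ∧
      T ^ 3 * KP h c d η AR a (ps d x0 0 q.1 a) b (ps d x0 0 q.1 b) <
        (∏ r ∈ Q, rq h c d η d' η' r (ps d x0 0 q.1)) * (∏ r ∈ Q, rq h c d' η' d η r (ps d' x0' 0 q.2)) *
          KP h c d η A a (ps d x0 0 q.1 a) b (ps d x0 0 q.1 b)) :
    T * ∑ q ∈ (Om N x0 d E ×ˢ Om N x0' d' E') with P q, wt h c d η 0 x0 N q.1 * wt h c d' η' 0 x0' N q.2 ≤
      3 * (Zt h c d η N x0 E * Zt h c d' η' N x0' E') := by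
  have hpp : ∀ (x1 : ℤ) (dd : ℕ → ℤ) (y0 : ℤ) (S : Finset ℕ), ps dd y0 0 S a = x1 → ∀ t, a ≤ t → t ≤ b →
      ps dd x1 a (S ∩ Ico a b) t = ps dd y0 0 S t := by
    intro x1 dd y0 S h1 t ht ht'
    rw [ps_split (Nat.zero_le a) ht, h1]
    refine ps_congr ?_
    rw [inter_assoc, inter_eq_right.2 (Ico_subset_Ico le_rfl ht')]
  have hprod : ∀ (x1 : ℤ) (dd dd' : ℕ → ℤ) (ee ee' : ℤ × ℤ → ℝ) (y0 : ℤ) (S : Finset ℕ), ps dd y0 0 S a = x1 →
      ∏ r ∈ Q, rq h c dd ee dd' ee' r (ps dd x1 a (S ∩ Ico a b)) = ∏ r ∈ Q, rq h c dd ee dd' ee' r (ps dd y0 0 S) := by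
    intro x1 dd dd' ee ee' y0 S h1
    refine prod_congr rfl fun r hr => ?_
    obtain ⟨b1, b2, b3⟩ := hQ.sub r hr
    exact rq_congr (hpp x1 dd y0 S h1 r.1 b1 (b2.trans b3)) (hpp x1 dd y0 S h1 r.2 (b1.trans b2) b3)
  -- a path in a half bracket visits the points
  have hvis : ∀ (dd : ℕ → ℤ) (ee : ℤ × ℤ → ℝ) (y0 : ℤ) (EE : ℤ → Prop) [DecidablePred EE] (k : ℤ × ℤ) (S : Finset ℕ),
      (∃ s, (hb h c dd ee N y0 EE a b k.1 k.2 hab hbN).In S s) → k = (ps dd y0 0 S a, ps dd y0 0 S b) := by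
    rintro dd ee y0 EE _ k S ⟨s, hs, o, ho, rfl⟩
    have hs' : s ∈ (Ico a b).powerset.filter fun s => ps dd k.1 a s b = k.2 := hs
    have ho' : o ∈ (Ico 0 a ∪ Ico b N).powerset.filter fun o => ps dd y0 0 o a = k.1 ∧ EE (ps dd k.2 b o N) := ho
    rw [mem_filter, mem_powerset] at hs' ho'
    have e1 : ps dd y0 0 (o ∪ s) a = k.1 := by
      rw [ps_congr (out_inter ho'.1 hs'.1 (Or.inl le_rfl)), ho'.2.1]
    have e2 : ps dd y0 0 (o ∪ s) b = k.2 := by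
      rw [ps_split (Nat.zero_le a) hab, e1, ps_congr (in_inter ho'.1 hs'.1 le_rfl le_rfl), hs'.2]
    show k = (ps dd y0 0 (o ∪ s) a, ps dd y0 0 (o ∪ s) b)
    rw [e1, e2]
  obtain ⟨Pr, hPr⟩ : ∃ F : Finset ℕ × Finset ℕ → Prop, ∀ q, F q ↔ P q ∧ q ∈ Om N x0 d E ×ˢ Om N x0' d' E' :=
    ⟨_, fun _ => Iff.rfl⟩
  have hset : (Om N x0 d E ×ˢ Om N x0' d' E').filter P = (Om N x0 d E ×ˢ Om N x0' d' E').filter Pr := by
    ext q
    rw [mem_filter, mem_filter, hPr]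
    exact ⟨fun hq => ⟨hq.1, hq.2, hq.1⟩, fun hq => ⟨hq.1, hq.2.1⟩⟩
  rw [hset]
  refine depth3d ((Om N x0 d E).image fun S => (ps d x0 0 S a, ps d x0 0 S b))
    (fun k => hb h c d η N x0 E a b k.1 k.2 hab hbN) (fun k => hb h c d' η' N x0' E' a b k.1 k.2 hab hbN)
    (fun k _ k' _ S _ h1 h2 => (hvis d η x0 E k S h1).trans (hvis d η x0 E k' S h2).symm)
    (fun k _ k' _ S _ h1 h2 => (hvis d' η' x0' E' k S h1).trans (hvis d' η' x0' E' k' S h2).symm)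
    (fun S _ => (wt_pos _ _ _ _).le) (fun S _ => (wt_pos _ _ _ _).le) hT
    (fun k => (Ico a b).powerset.filter fun s => ps d k.1 a s b = k.2 ∧ A (ps d k.1 a s))
    (fun k => (Ico a b).powerset.filter fun s => ps d k.1 a s b = k.2 ∧ AR (ps d k.1 a s))
    (fun k => (Ico a b).powerset.filter fun s => ps d' k.1 a s b = k.2 ∧ A (ps d' k.1 a s))
    (fun k => (Ico a b).powerset.filter fun s => ps d' k.1 a s b = k.2 ∧ AR (ps d' k.1 a s))
    (fun k _ => ?_) (fun k _ => ?_) (fun k _ => ?_)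
    (fun k s => ∏ r ∈ Q, rq h c d η d' η' r (ps d k.1 a s)) (fun k s => ∏ r ∈ Q, rq h c d' η' d η r (ps d' k.1 a s))
    (fun k _ s _ => prod_nonneg fun _ _ => rq_nonneg _ _) (fun k _ s _ => prod_nonneg fun _ _ => rq_nonneg _ _)
    (fun k _ => ?_) (fun k _ => ?_) Pr ?_
  · intro s hs
    rw [mem_filter] at hs
    exact mem_filter.2 ⟨hs.1, hs.2.1⟩
  · intro s hs
    rw [mem_filter] at hs
    exact mem_filter.2 ⟨hs.1, hs.2.1⟩
  · intro s hs
    rw [mem_filter] at hs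
    exact mem_filter.2 ⟨hs.1, hs.2.1⟩
  · exact skelP k.1 k.2 hab hQ hA hJ hout
  · exact skelP k.1 k.2 hab hQ.symm hAR hJ hout
  · intro q hq
    obtain ⟨hPq, hmem⟩ := (hPr q).1 hq
    have hm := hmem
    rw [mem_product] at hm
    obtain ⟨a1, a2, a3, a4, hlt⟩ := hP q hmem hPq
    have in1 := hb_in (h := h) (c := c) (η := η) hab hbN hm.1 rfl rfl
    have in2 := hb_in (h := h) (c := c) (η := η') hab hbN hm.2 a1.symm a2.symm
    refine ⟨(ps d x0 0 q.1 a, ps d x0 0 q.1 b), mem_image_of_mem _ hm.1, q.1 ∩ Ico a b, ?_, q.2 ∩ Ico a b, ?_, in1, in2, ?_⟩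
    · have := in1.1
      refine mem_filter.2 ⟨(mem_filter.1 this).1, (mem_filter.1 this).2, ?_⟩
      exact (hA _ _ fun t ht => hpp _ d x0 q.1 rfl t (hJ t ht).1 (hJ t ht).2).2 a3
    · have := in2.1
      refine mem_filter.2 ⟨(mem_filter.1 this).1, (mem_filter.1 this).2, ?_⟩
      exact (hAR _ _ fun t ht => hpp _ d' x0' q.2 a1.symm t (hJ t ht).1 (hJ t ht).2).2 a4
    · show T ^ 3 * KP h c d η AR a (ps d x0 0 q.1 a) b (ps d x0 0 q.1 b) <
        (∏ r ∈ Q, rq h c d η d' η' r (ps d (ps d x0 0 q.1 a) a (q.1 ∩ Ico a b))) *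
        (∏ r ∈ Q, rq h c d' η' d η r (ps d' (ps d x0 0 q.1 a) a (q.2 ∩ Ico a b))) *
          KP h c d η A a (ps d x0 0 q.1 a) b (ps d x0 0 q.1 b)
      rw [hprod _ d d' η η' x0 q.1 rfl, hprod _ d' d η' η x0' q.2 a1.symm]
      exact hlt

end

end Pool.Agent.W_7d29a1_Z36
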