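import Pool.Agent.W_7d29a1_ZE.DepC

/-!
STORM Z, leaf DEPC, second part: the Markov depth with arbitrary classes under `P2`. (helper36, after `Depth.lean` of helper79)
-/

namespace Pool.Agent.W_7d29a1_Z36

open MeasureTheory ProbabilityTheory Finset
open Pool.Agent.W_7d29a1_F Pool.Agent.W_7d29a1_X Pool.Agent.W_7d29a1_Z
open Pool.Agent.W_7d29a1_Z79 (dv dv_sub wt Kn Om Zt rq PcQ mem_Om gp_wt gp_wt0 ps_dv ps_dv_px ps_zero_pos wt_dv0 wt_eq wt_pos Xd_prod)
open scoped ENNReal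

noncomputable section

variable {μ : Measure ℝ}

/-- The kernel of the class `C` (a condition on the positions) between the positions of `X` at the times `a` and `b`. -/
def kk (μ : Measure ℝ) (C : (ℕ → ℤ) → Prop) (η : Env) (a b : ℕ) (X : ℕ → ℤ) : ℝ :=
  Kc μ 0 0 (fun g => C (W_7d29a1_Z.ps 0 a (X a) g)) η a (X a) b (X b)

theorem kk_meas (C : (ℕ → ℤ) → Prop) (a b : ℕ) (X : ℕ → ℤ) : Measurable fun η : Env => kk μ C η a b X := Kc_meas _ _ _ _ _ _

theorem kk_nonneg (C : (ℕ → ℤ) → Prop) (η : Env) (a b : ℕ) (X : ℕ → ℤ) : 0 ≤ kk μ C η a b X := Kc_nonneg _ _ _ _ _ _ _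

/-- The kernels of the sheared environment between the positions of `S'`. -/
theorem kk_KP {v : ℕ → ℤ} (η : Env) {a b : ℕ} (hab : a ≤ b) {J : Finset ℕ} (hJ : ∀ i ∈ J, a ≤ i ∧ i ≤ b) {C : (ℕ → ℤ) → Prop}
    (hC : LocC J C) (S' : Finset ℕ) :
    kk μ C (W_7d29a1_Z.shr 0 v η) a b (pos S') =
      KP 0 (lam μ 0) (dv v) η (fun p => C fun t => p t + sv v 0 t) a (px v S' a) b (px v S' b) := by
  classical
  unfold kk W_7d29a1_Z.Kc KP
  have hx : pos S' a = px v S' a + sv v 0 a := by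
    unfold W_7d29a1_Z.px
    ring
  have hpos : ∀ (S : Finset ℕ) (t : ℕ), a ≤ t → W_7d29a1_Z.ps 0 a (pos S' a) S t =
      W_7d29a1_Z79.ps (dv v) (px v S' a) a S t + sv v 0 t := by
    intro S t ht
    rw [ps_dv v ht, hx]
    have h1 := W_7d29a1_Z.sv_split v (Nat.zero_le a) ht
    unfold W_7d29a1_Z.ps W_7d29a1_Z79.ps
    simp only [Pi.zero_apply]
    linarith
  have hset : ∀ S : Finset ℕ, S ⊆ Ico a b →
      ((W_7d29a1_Z.ps 0 a (pos S' a) S b = pos S' b ∧ C (W_7d29a1_Z.ps 0 a (pos S' a) S)) ↔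
        (W_7d29a1_Z79.ps (dv v) (px v S' a) a S b = px v S' b ∧
          C fun t => W_7d29a1_Z79.ps (dv v) (px v S' a) a S t + sv v 0 t)) := by
    intro S _
    have e1 : C (W_7d29a1_Z.ps 0 a (pos S' a) S) ↔ C fun t => W_7d29a1_Z79.ps (dv v) (px v S' a) a S t + sv v 0 t :=
      hC _ _ fun t ht => hpos S t (hJ t ht).1
    have e2 : pos S' b = px v S' b + sv v 0 b := by
      unfold W_7d29a1_Z.px
      ring
    rw [e1, hpos S b hab, e2]
    constructor
    · rintro ⟨h1, h2⟩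
      exact ⟨by linarith, h2⟩
    · rintro ⟨h1, h2⟩
      exact ⟨by linarith, h2⟩
  refine sum_congr ?_ fun S hS => ?_
  · ext S
    constructor
    · intro hS
      have h1 := mem_filter.1 hS
      have h2 := W_7d29a1_Z.mem_pcs.1 h1.1
      exact mem_filter.2 ⟨mem_powerset.2 h2.1, (hset S h2.1).1 ⟨h2.2, h1.2⟩⟩
    · intro hS
      have h1 := mem_filter.1 hS
      have h2 := (hset S (mem_powerset.1 h1.1)).2 h1.2
      exact mem_filter.2 ⟨W_7d29a1_Z.mem_pcs.2 ⟨mem_powerset.1 h1.1, h2.1⟩, h2.2⟩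
  · have h1 := wt_dv0 v η 0 (lam μ 0) (a := a) (b := b) (px v S' a) S
    rw [← hx] at h1
    rw [h1, wt_eq hab]

/-- The bad event of the depth lemma with classes: `S'` in the class `CL`, `S` (in the frame of `S'`) in the class `CR`. -/
def BadC (μ : Measure ℝ) (v : ℕ → ℤ) (a b : ℕ) (Q : Finset (ℕ × ℕ)) (CL CR : (ℕ → ℤ) → Prop) (lm : ℝ)
    (η : Env) (S S' : Finset ℕ) : Prop :=
  pos S a = px v S' a ∧ pos S b = px v S' b ∧ CL (pos S') ∧ CR (fun t => pos S t + sv v 0 t) ∧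
    ConeQ v Q (pos S) ∧ ConeQ v Q (px v S') ∧
    kk μ CR (W_7d29a1_Z.shr 0 v η) a b (pos S') <
      Real.exp (Xd μ v Q η (pos S) - Xd μ v Q η (px v S') - 3 * lm) * kk μ CL (W_7d29a1_Z.shr 0 v η) a b (pos S')

open scoped Classical in
/-- The quenched form. -/
theorem depthC_quenched {N : ℕ} {y : ℤ} (v : ℕ → ℤ) {a b : ℕ} (hab : a ≤ b) (hbN : b ≤ N)
    {J : Finset ℕ} (hJ : ∀ i ∈ J, a ≤ i ∧ i ≤ b) {Q : Finset (ℕ × ℕ)} (hQ : Pcs v a b J Q)
    {CL CR : (ℕ → ℤ) → Prop} (hL : LocC J CL) (hR : LocC J CR) (lm : ℝ) (η : Env) :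
    ∑ S ∈ (range N).powerset, ∑ S' ∈ (range N).powerset,
      (if BadC μ v a b Q CL CR lm η S S' then gp μ η N y S * gp μ (W_7d29a1_Z.shr 0 v η) N y S' else 0) ≤ 3 * Real.exp (-lm) := by
  set Z1 := Zt 0 (lam μ 0) (dv v) η N 0 (fun z => z = y - sv v 0 N) with hZ1
  set Z2 := Zt 0 (lam μ 0) 0 η N 0 (fun z => z = y) with hZ2
  have hZ1n : 0 ≤ Z1 := sum_nonneg fun _ _ => (wt_pos _ _ _ _).le
  have hZ2n : 0 ≤ Z2 := sum_nonneg fun _ _ => (wt_pos _ _ _ _).le
  have hQle : ∀ q ∈ Q, q.1 ≤ q.2 := fun q hq => (hQ.sub q hq).2.1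
  have hL' : LocC J fun p => CL fun t => p t + sv v 0 t := fun p p' hp => hL _ _ fun t ht => by
    show p t + sv v 0 t = p' t + sv v 0 t
    rw [hp t ht]
  have hR' : LocC J fun p => CR fun t => p t + sv v 0 t := fun p p' hp => hR _ _ fun t ht => by
    show p t + sv v 0 t = p' t + sv v 0 t
    rw [hp t ht]
  have key := depthFC (0 : ℝ) (lam μ 0) (dv v) 0 η η N 0 0 (fun z => z = y - sv v 0 N) (fun z => z = y) Q J
    (fun p => CL fun t => p t + sv v 0 t) (fun p => CR fun t => p t + sv v 0 t) hL' hR'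
    hab hbN (pcs_pcQ hQ η) hJ hQ.out (Real.exp_pos lm)
    (fun q => BadC μ v a b Q CL CR lm η q.2 q.1) ?_
  · -- from the weights to the Gibbs weights
    have e1 : ∑ S ∈ (range N).powerset, ∑ S' ∈ (range N).powerset,
        (if BadC μ v a b Q CL CR lm η S S' then gp μ η N y S * gp μ (W_7d29a1_Z.shr 0 v η) N y S' else 0) =
        (∑ q ∈ (Om N 0 (dv v) (fun z => z = y - sv v 0 N) ×ˢ Om N 0 0 (fun z => z = y)) with
          BadC μ v a b Q CL CR lm η q.2 q.1,
          wt 0 (lam μ 0) (dv v) η 0 0 N q.1 * wt 0 (lam μ 0) 0 η 0 0 N q.2) / (Z1 * Z2) := by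
      rw [sum_comm, sum_filter, sum_div, sum_product]
      have hO1 : Om N 0 (dv v) (fun z => z = y - sv v 0 N) =
          (range N).powerset.filter fun S' => px v S' N = y - sv v 0 N := by
        ext S'
        rw [mem_Om, mem_filter, mem_powerset, ps_dv_px, range_eq_Ico]
      have hO2 : Om N 0 0 (fun z => z = y) = (range N).powerset.filter fun S => pos S N = y := by
        ext S
        rw [mem_Om, mem_filter, mem_powerset, ps_zero_pos, range_eq_Ico]
      rw [hO1, hO2, sum_filter]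
      refine sum_congr rfl fun S' _ => ?_
      rw [sum_filter]
      by_cases h1 : px v S' N = y - sv v 0 N
      · rw [if_pos h1]
        refine sum_congr rfl fun S _ => ?_
        by_cases h2 : pos S N = y
        · rw [if_pos h2, gp_wt, gp_wt0, if_pos h1, if_pos h2]
          split_ifs
          · rw [← hZ1, ← hZ2]
            rw [div_mul_div_comm, mul_comm Z2 Z1, mul_comm (wt 0 (lam μ 0) 0 η 0 0 N S)]
          · rw [zero_div]
        · rw [if_neg h2, gp_wt0 (μ := μ) η N y S, if_neg h2, zero_mul]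
          split_ifs <;> rfl
      · rw [if_neg h1]
        refine sum_eq_zero fun S _ => ?_
        rw [gp_wt (μ := μ) v η N y S', if_neg h1, mul_zero]
        split_ifs <;> rfl
    rw [e1]
    rcases (mul_nonneg hZ1n hZ2n).eq_or_lt with h0 | h0
    · rw [← h0, div_zero]
      positivity
    · rw [div_le_iff₀ h0]
      have h2 : ∀ x : ℝ, Real.exp lm * x ≤ 3 * (Z1 * Z2) → x ≤ 3 * Real.exp (-lm) * (Z1 * Z2) := by
        intro x hx
        have h3 := mul_le_mul_of_nonneg_left hx (Real.exp_pos (-lm)).le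
        rw [← mul_assoc, ← Real.exp_add, neg_add_cancel, Real.exp_zero, one_mul] at h3
        linarith
      exact h2 _ key
  · intro q _ hq
    obtain ⟨b1, b2, b3, b4, b5, b6, b7⟩ := hq
    have p1 : ∀ t, W_7d29a1_Z79.ps (dv v) 0 0 q.1 t = px v q.1 t := fun t => ps_dv_px v q.1 t
    have p2 : ∀ t, W_7d29a1_Z79.ps 0 0 0 q.2 t = pos q.2 t := fun t => ps_zero_pos q.2 t
    have hfun1 : W_7d29a1_Z79.ps (dv v) 0 0 q.1 = px v q.1 := funext p1
    have hfun2 : W_7d29a1_Z79.ps 0 0 0 q.2 = pos q.2 := funext p2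
    have c1 : CL fun t => W_7d29a1_Z79.ps (dv v) 0 0 q.1 t + sv v 0 t := by
      have e1 : (fun t => W_7d29a1_Z79.ps (dv v) 0 0 q.1 t + sv v 0 t) = pos q.1 := by
        funext t
        rw [p1]
        unfold W_7d29a1_Z.px
        ring
      rw [e1]
      exact b3
    have c2 : CR fun t => W_7d29a1_Z79.ps 0 0 0 q.2 t + sv v 0 t := by
      rw [hfun2]
      exact b4
    refine ⟨by rw [p1, p2, b1], by rw [p1, p2, b2], c1, c2, ?_⟩
    have hX1 := coneQ_pos b5 hQle 0 (lam μ 0) η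
    have hX2 := coneQ_pos b6 hQle 0 (lam μ 0) η
    rw [hfun1, hfun2, ← (Xd_prod v hQle η (px v q.1) hX2.1 hX2.2).2, ← (Xd_prod v hQle η (pos q.2) hX1.1 hX1.2).1]
    rw [← kk_KP (μ := μ) η hab hJ hL q.1, ← kk_KP (μ := μ) η hab hJ hR q.1]
    have h3 : Real.exp lm ^ 3 = Real.exp (3 * lm) := by
      rw [← Real.exp_nat_mul]
      norm_num
    have h4 : Real.exp (Xd μ v Q η (pos q.2) - Xd μ v Q η (px v q.1) - 3 * lm) =
        Real.exp (- Xd μ v Q η (px v q.1)) * Real.exp (Xd μ v Q η (pos q.2)) * Real.exp (-(3 * lm)) := by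
      rw [← Real.exp_add, ← Real.exp_add]
      congr 1
      ring
    rw [h4] at b7
    rw [h3]
    have h5 := mul_lt_mul_of_pos_left b7 (Real.exp_pos (3 * lm))
    refine h5.trans_le (le_of_eq ?_)
    have h6 : Real.exp (3 * lm) * Real.exp (-(3 * lm)) = 1 := by
      rw [← Real.exp_add, add_neg_cancel, Real.exp_zero]
    calc Real.exp (3 * lm) * (Real.exp (- Xd μ v Q η (px v q.1)) * Real.exp (Xd μ v Q η (pos q.2)) * Real.exp (-(3 * lm)) *
          kk μ CL (W_7d29a1_Z.shr 0 v η) a b (pos q.1))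
        = (Real.exp (3 * lm) * Real.exp (-(3 * lm))) * (Real.exp (- Xd μ v Q η (px v q.1)) *
          Real.exp (Xd μ v Q η (pos q.2)) * kk μ CL (W_7d29a1_Z.shr 0 v η) a b (pos q.1)) := by ring
      _ = _ := by rw [h6, one_mul]

/-- **The Markov depth with classes.** -/
theorem depthC [IsProbabilityMeasure μ] {N : ℕ} {y : ℤ} (v : ℕ → ℤ) {a b : ℕ} (hab : a ≤ b) (hbN : b ≤ N)
    {J : Finset ℕ} (hJ : ∀ i ∈ J, a ≤ i ∧ i ≤ b) {Q : Finset (ℕ × ℕ)} (hQ : Pcs v a b J Q)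
    {CL CR : (ℕ → ℤ) → Prop} (hL : LocC J CL) (hR : LocC J CR) (lm : ℝ) :
    P2 μ N y v (BadC μ v a b Q CL CR lm) ≤ ENNReal.ofReal (3 * Real.exp (-lm)) := by
  refine Pool.Agent.W_7d29a1_Z79.P2_quenched79 (fun S S' => ?_) fun η => depthC_quenched v hab hbN hJ hQ hL hR lm η
  by_cases hc : pos S a = px v S' a ∧ pos S b = px v S' b ∧ CL (pos S') ∧ CR (fun t => pos S t + sv v 0 t) ∧
      ConeQ v Q (pos S) ∧ ConeQ v Q (px v S')
  · have e1 : {η | BadC μ v a b Q CL CR lm η S S'} = {η | kk μ CR (W_7d29a1_Z.shr 0 v η) a b (pos S') <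
        Real.exp (Xd μ v Q η (pos S) - Xd μ v Q η (px v S') - 3 * lm) * kk μ CL (W_7d29a1_Z.shr 0 v η) a b (pos S')} := by
      ext η
      constructor
      · rintro ⟨-, -, -, -, -, -, h⟩
        exact h
      · intro h
        exact ⟨hc.1, hc.2.1, hc.2.2.1, hc.2.2.2.1, hc.2.2.2.2.1, hc.2.2.2.2.2, h⟩
    rw [e1]
    have hs := measurable_shr79 0 v
    refine measurableSet_lt ((kk_meas _ a b _).comp hs) (Measurable.mul ?_ ((kk_meas _ a b _).comp hs))
    exact Real.measurable_exp.comp (((measurable_Xd79 v Q _).sub (measurable_Xd79 v Q _)).sub measurable_const)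
  · have e1 : {η | BadC μ v a b Q CL CR lm η S S'} = ∅ := by
      ext η
      constructor
      · rintro ⟨h1, h2, h3, h4, h5, h6, _⟩
        exact absurd ⟨h1, h2, h3, h4, h5, h6⟩ hc
      · intro h
        exact absurd h (Set.notMem_empty _)
    rw [e1]
    exact MeasurableSet.empty

end

end Pool.Agent.W_7d29a1_Z36
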