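import Pool.Agent.W_7d29a1_ZE.Defs
import Pool.Agent.W_7d29a1_ZE.DepD

/-!
STORM Z, SECOND STOREY: from a pair of paths to the near tie `NTE` of the class. (helper36)
-/

namespace Pool.Agent.W_7d29a1_ZE

open MeasureTheory ProbabilityTheory Finset
open Pool.Agent.W_7d29a1_F Pool.Agent.W_7d29a1_X Pool.Agent.W_7d29a1_Z Pool.Agent.W_7d29a1_Z36
open Pool.Agent.W_7d29a1_Z15 (Cls kC rC AdC NTc)
open scoped ENNReal

noncomputable section

variable {μ : Measure ℝ}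

/-- The left class as a condition on the positions. -/
def cL (V : Win) (u : ℕ → ℤ) : Prop := ∀ t ∈ V.J, V.sg * (2 * u t - t) ≤ V.Y

/-- The class of the competitors as a condition on the positions. -/
def cE (μ : Measure ℝ) (V : Win) (L : ℕ) (e C : ℝ) (i₀ i₁ : ℕ) (u : ℕ → ℤ) : Prop :=
  (∀ t ∈ V.J, V.Y < V.sg * (2 * u t - t) ∧ V.sg * (2 * u t - t) ≤ V.Y + V.w) ∧
    ∀ i, i₀ ≤ i → i ≤ i₁ → ∀ T ∈ V.Iv, Nod μ V L e C i T u

/-- The rows and the ends of the intervals. -/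
def Win.JJ (V : Win) : Finset ℕ := V.Iv.biUnion fun T => Icc T (T + 2 ^ V.a)

theorem mem_JJ {V : Win} {t : ℕ} : t ∈ V.JJ ↔ ∃ T ∈ V.Iv, T ≤ t ∧ t ≤ T + 2 ^ V.a := by
  unfold Win.JJ
  simp only [mem_biUnion, mem_Icc]

theorem J_sub_JJ (V : Win) : V.J ⊆ V.JJ := by
  intro t ht
  unfold Win.J at ht
  rw [mem_biUnion] at ht
  obtain ⟨T, hT, h⟩ := ht
  rw [mem_Ioc] at h
  exact mem_JJ.2 ⟨T, hT, h.1.le, h.2⟩

theorem node_JJ {V : Win} {i T k : ℕ} (hi : i ≤ V.a) (hT : T ∈ V.Iv) (hk : k ≤ 2 ^ (V.a - i)) : T + k * 2 ^ i ∈ V.JJ := by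
  refine mem_JJ.2 ⟨T, hT, Nat.le_add_right _ _, ?_⟩
  have h1 : k * 2 ^ i ≤ 2 ^ (V.a - i) * 2 ^ i := Nat.mul_le_mul_right _ hk
  rw [← pow_add, Nat.sub_add_cancel hi] at h1
  omega

theorem locL (V : Win) : LocC V.JJ (cL V) := by
  intro p p' h
  unfold cL
  refine forall₂_congr fun t ht => ?_
  rw [h t (J_sub_JJ V ht)]

theorem Nod.congr {V : Win} {L : ℕ} {e C : ℝ} {i T : ℕ} {p p' : ℕ → ℤ} (hi : i ≤ V.a) (hT : T ∈ V.Iv)
    (h : ∀ t ∈ V.JJ, p t = p' t) (hN : Nod μ V L e C i T p) : Nod μ V L e C i T p' := by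
  have h1 : ∀ k, k ≤ 2 ^ (V.a - i) → p (T + k * 2 ^ i) = p' (T + k * 2 ^ i) := fun k hk => h _ (node_JJ hi hT hk)
  refine ⟨fun k hk => ?_, ?_, fun k hk => ?_⟩
  · rw [← h1 (k + 1) hk, ← h1 k hk.le]
    exact hN.step k hk
  · have e1 : ∑ k ∈ range (2 ^ (V.a - i)), |2 * ((p' (T + (k + 1) * 2 ^ i) : ℝ) - p' (T + k * 2 ^ i)) - (2 ^ i : ℕ)| =
        ∑ k ∈ range (2 ^ (V.a - i)), |2 * ((p (T + (k + 1) * 2 ^ i) : ℝ) - p (T + k * 2 ^ i)) - (2 ^ i : ℕ)| := by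
      refine sum_congr rfl fun k hk => ?_
      rw [mem_range] at hk
      rw [← h1 (k + 1) hk, ← h1 k hk.le]
    rw [e1]
    exact hN.tv
  · rw [← h1 k hk]
    exact hN.wall k hk

theorem locE (V : Win) (L : ℕ) (e C : ℝ) (i₀ : ℕ) {i₁ : ℕ} (hi : i₁ ≤ V.a) : LocC V.JJ (cE μ V L e C i₀ i₁) := by
  intro p p' h
  unfold cE
  refine and_congr (forall₂_congr fun t ht => ?_) ?_
  · rw [h t (J_sub_JJ V ht)]
  · constructor
    · intro hN i h0 h1 T hT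
      exact (hN i h0 h1 T hT).congr (h1.trans hi) hT h
    · intro hN i h0 h1 T hT
      exact (hN i h0 h1 T hT).congr (h1.trans hi) hT fun t ht => (h t ht).symm

/-- The kernel of the class between two points of a path. -/
theorem kC_clE (V : Win) (L : ℕ) (e C : ℝ) (i₀ i₁ : ℕ) (S : Finset ℕ) {a b : ℕ} (hJ : ∀ i ∈ V.J, a < i ∧ i < b) (η : Env) :
    kC μ (clE μ V L e C i₀ i₁) S (a, b) η = kk μ (cE μ V L e C i₀ i₁) η a b (pos S) := by
  classical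
  unfold kC kk Kc
  refine sum_congr ?_ fun _ _ => rfl
  ext g
  rw [mem_filter, mem_filter]
  refine and_congr_right fun _ => ?_
  unfold clE cE Reg Rr
  refine and_congr_left fun _ => ?_
  constructor
  · intro h t ht
    have h1 := h t (mem_Ioc.2 ⟨(hJ t ht).1, (hJ t ht).2.le⟩)
    exact h1 (by simpa using ht)
  · intro h t _ htJ
    exact h t (by simpa using htJ)

theorem kC_clL (V : Win) (S : Finset ℕ) {a b : ℕ} (hJ : ∀ i ∈ V.J, a < i ∧ i < b) (η : Env) :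
    kC μ (clL V) S (a, b) η = kk μ (cL V) η a b (pos S) := by
  classical
  unfold kC kk Kc
  refine sum_congr ?_ fun _ _ => rfl
  ext g
  rw [mem_filter, mem_filter]
  refine and_congr_right fun _ => ?_
  unfold clL cL Reg Lr
  constructor
  · intro h t ht
    have h1 := h t (mem_Ioc.2 ⟨(hJ t ht).1, (hJ t ht).2.le⟩)
    exact h1 (by simpa using ht)
  · intro h t _ htJ
    exact h t (by simpa using htJ)

/-- **From a pair of paths to the near tie of the class**: `S'` is left of the line, `S` (in the frame of `S'`) is in the class,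
both meet at the times `a`, `b` around the window. -/
theorem nte_of_pair {V : Win} {L : ℕ} {e C : ℝ} {i₀ i₁ : ℕ} {v : ℕ → ℤ} {a b : ℕ} (hab : (a, b) ∈ Br V)
    {Q : Finset (ℕ × ℕ)} {lm M : ℝ} {η : Env} {S S' : Finset ℕ}
    (hnb : ¬ BadC μ v a b Q (cL V) (cE μ V L e C i₀ i₁) lm η S S')
    (ha : pos S a = px v S' a) (hb : pos S b = px v S' b) (hL : InL V.sg V.J V.Y S')
    (hR : cE μ V L e C i₀ i₁ fun t => pos S t + sv v 0 t) (hc1 : ConeQ v Q (pos S)) (hc2 : ConeQ v Q (px v S'))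
    (hM : 3 * lm + (Xd μ v Q η (px v S') - Xd μ v Q η (pos S)) ≤ M) :
    NTE μ V L e C i₀ i₁ M (W_7d29a1_Z.shr 0 v η) S' := by
  have hJ : ∀ i ∈ V.J, a < i ∧ i < b := by
    unfold Br at hab
    exact (mem_filter.1 hab).2.2
  refine ⟨hL, (a, b), hab, ?_⟩
  rw [kC_clE V L e C i₀ i₁ S' hJ, kC_clL V S' hJ]
  have h1 : ¬ kk μ (cE μ V L e C i₀ i₁) (W_7d29a1_Z.shr 0 v η) a b (pos S') <
      Real.exp (Xd μ v Q η (pos S) - Xd μ v Q η (px v S') - 3 * lm) * kk μ (cL V) (W_7d29a1_Z.shr 0 v η) a b (pos S') :=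
    fun h => hnb ⟨ha, hb, hL, hR, hc1, hc2, h⟩
  refine le_trans ?_ (not_lt.1 h1)
  exact mul_le_mul_of_nonneg_right (Real.exp_le_exp.2 (by linarith)) (kk_nonneg _ _ _ _ _)

end

end Pool.Agent.W_7d29a1_ZE
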