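import Pool.Agent.W_7d29a1_ZE.LayB

/-!
STORM Z, second storey: the function `F0` of `stepC` (the logarithm of the part of the ratio carried by the competitors which avoid the
cell) and its properties from the two events `DetE` (detours are cheap) and `TouE` (few cells are visited). (helper18)
-/

namespace Pool.Agent.W_7d29a1_ZE

open MeasureTheory ProbabilityTheory Filter Topology Finset
open Pool.Agent.W_7d29a1_F Pool.Agent.W_7d29a1_X Pool.Agent.W_7d29a1_Z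
open Pool.Agent.W_7d29a1_Z15 (Cls kC rC AdC NTc Own PC kC_nonneg kC_pos own_pos rC_nonneg rC_pos rC_meas)
open scoped ENNReal

noncomputable section

variable {μ : Measure ℝ}

/-- DETOURS: in every layer of the scale `2 ^ i` every column can be avoided at the cost `ct`. -/
def DetE (μ : Measure ℝ) (V : Win) (L : ℕ) (e : ℝ) (i D : ℕ) (ct : ℝ) (η : Env) : Prop :=
  ∀ T ∈ V.Iv, ∀ k < 2 ^ (V.a - i), ∀ u u' : ℤ, Pr μ V L e i (T + k * 2 ^ i) u u' → ∀ q : ℤ,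
    Real.exp (-ct) * kL μ V η (T + k * 2 ^ i) (2 ^ i) u u' ≤
      kLP μ V (AvL (T + k * 2 ^ i) (2 ^ i) D q) η (T + k * 2 ^ i) (2 ^ i) u u'

/-- VISITS: in every layer of the scale `2 ^ i` the mean number of the visited columns is at most `K`. -/
def TouE (μ : Measure ℝ) (V : Win) (L : ℕ) (e : ℝ) (i D : ℕ) (K : ℝ) (η : Env) : Prop :=
  ∀ T ∈ V.Iv, ∀ k < 2 ^ (V.a - i), ∀ u u' : ℤ, Pr μ V L e i (T + k * 2 ^ i) u u' → ∀ Q : Finset ℤ,
    ∑ q ∈ Q, kLP μ V (fun u g => ¬ AvL (T + k * 2 ^ i) (2 ^ i) D q u g) η (T + k * 2 ^ i) (2 ^ i) u u' ≤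
      K * kL μ V η (T + k * 2 ^ i) (2 ^ i) u u'

theorem kL_meas (V : Win) (α h : ℕ) (u u' : ℤ) : Measurable fun η : Env => kL μ V η α h u u' := Kc_meas _ _ _ _ _ _

theorem kLP_meas (V : Win) (Φ : ℤ → Finset ℕ → Prop) (α h : ℕ) (u u' : ℤ) : Measurable fun η : Env => kLP μ V Φ η α h u u' :=
  Kc_meas _ _ _ _ _ _

theorem detE_meas (V : Win) (L : ℕ) (e : ℝ) (i D : ℕ) (ct : ℝ) : MeasurableSet {η | DetE μ V L e i D ct η} := by
  have : {η | DetE μ V L e i D ct η} = ⋂ T ∈ V.Iv, ⋂ k : ℕ, ⋂ (_ : k < 2 ^ (V.a - i)), ⋂ u : ℤ, ⋂ u' : ℤ,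
      ⋂ (_ : Pr μ V L e i (T + k * 2 ^ i) u u'), ⋂ q : ℤ, {η | Real.exp (-ct) * kL μ V η (T + k * 2 ^ i) (2 ^ i) u u' ≤
      kLP μ V (AvL (T + k * 2 ^ i) (2 ^ i) D q) η (T + k * 2 ^ i) (2 ^ i) u u'} := by
    ext η
    simp only [DetE, Set.mem_ofPred_eq, Set.mem_iInter]
  rw [this]
  exact Finset.measurableSet_biInter _ fun T _ => MeasurableSet.iInter fun k => MeasurableSet.iInter fun _ =>
    MeasurableSet.iInter fun u => MeasurableSet.iInter fun u' => MeasurableSet.iInter fun _ => MeasurableSet.iInter fun q =>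
      measurableSet_le ((kL_meas _ _ _ _ _).const_mul _) (kLP_meas _ _ _ _ _ _)

theorem touE_meas (V : Win) (L : ℕ) (e : ℝ) (i D : ℕ) (K : ℝ) : MeasurableSet {η | TouE μ V L e i D K η} := by
  have : {η | TouE μ V L e i D K η} = ⋂ T ∈ V.Iv, ⋂ k : ℕ, ⋂ (_ : k < 2 ^ (V.a - i)), ⋂ u : ℤ, ⋂ u' : ℤ,
      ⋂ (_ : Pr μ V L e i (T + k * 2 ^ i) u u'), ⋂ Q : Finset ℤ, {η | ∑ q ∈ Q,
      kLP μ V (fun u g => ¬ AvL (T + k * 2 ^ i) (2 ^ i) D q u g) η (T + k * 2 ^ i) (2 ^ i) u u' ≤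
      K * kL μ V η (T + k * 2 ^ i) (2 ^ i) u u'} := by
    ext η
    simp only [TouE, Set.mem_ofPred_eq, Set.mem_iInter]
  rw [this]
  exact Finset.measurableSet_biInter _ fun T _ => MeasurableSet.iInter fun k => MeasurableSet.iInter fun _ =>
    MeasurableSet.iInter fun u => MeasurableSet.iInter fun u' => MeasurableSet.iInter fun _ => MeasurableSet.iInter fun Q =>
      measurableSet_le (Finset.measurable_sum _ fun q _ => kLP_meas _ _ _ _ _ _) ((kL_meas _ _ _ _ _).const_mul _)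

/-! ### Positivity -/

/-- A path left of the line: its pieces are left of the line. -/
theorem own_L (V : Win) : Own (clL V) (Br V) (InL V.sg V.J V.Y) := by
  intro S hS b hb t ht
  rw [mem_Ioc] at ht
  unfold Lr
  simp only [Set.mem_ofPred_eq, Int.toNat_natCast]
  intro hJ
  have h1 := hS t hJ
  have h2 : ps 0 b.1 (pos S b.1) (S ∩ Ico b.1 b.2) t = pos S t := by
    rw [ps_inter 0 b.1 _ S ht.2, Pool.Agent.W_7d29a1_Z17.pos_eq_ps, Pool.Agent.W_7d29a1_Z17.pos_eq_ps,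
      ps_chain 0 0 S (Nat.zero_le _) ht.1.le]
  rw [h2]
  exact h1

/-- The ratio of a class is positive if and only if there is a piece of the class. -/
theorem rC_pos_iff {V : Win} {L : ℕ} (hV : V.Ok L) {C : Cls} {S : Finset ℕ} (hS : InL V.sg V.J V.Y S) (η : Env) :
    0 < rC μ C (clL V) (Br V) S η ↔ AdC C (Br V) S := by
  classical
  constructor
  · intro h
    by_contra hn
    have h1 : rC μ C (clL V) (Br V) S η = 0 := by
      unfold rC
      refine sum_eq_zero fun b hb => ?_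
      have h2 : kC μ C S b η = 0 := by
        unfold kC Kc
        refine sum_eq_zero fun g hg => ?_
        rw [mem_filter] at hg
        exact absurd ⟨b, hb, g, hg.1, hg.2⟩ hn
      rw [h2, zero_div]
    exact h.ne' h1
  · intro h
    exact rC_pos (own_L V) (fun b hb => br_ne hV hb) hS h η

variable {V : Win} {L : ℕ} {e C : ℝ} {i i₁ D : ℕ}

theorem zc_mem {V : Win} {i D : ℕ} {z : Ce} (hz : z ∈ Zc V i D) : z.1 ∈ V.Iv ∧ z.2.1 < 2 ^ (V.a - i) := by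
  classical
  unfold Zc at hz
  rw [mem_filter, mem_product, mem_product, mem_range] at hz
  exact ⟨hz.1.1, hz.1.2.1⟩

/-- The cheap detour in terms of the ratios. -/
theorem det_rP (hV : V.Ok L) (hi₁ : i₁ ≤ V.a) (hi : i ≤ i₁) {ct : ℝ} {η : Env} (hD : DetE μ V L e i D ct η) {z : Ce}
    (hz : z ∈ Zc V i D) (S : Finset ℕ) :
    Real.exp (-ct) * rE μ V L e C i i₁ S η ≤ rP μ V L e C i i₁ (AvZ i D z) S η := by
  obtain ⟨h1, h2⟩ := zc_mem hz
  rw [rP_av hi₁ hi h1 h2]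
  exact rP_ge hV hi₁ hi h1 h2 (fun u u' hp => hD z.1 h1 z.2.1 h2 u u' hp z.2.2) S

/-- The function `F0`. -/
def F0 (μ : Measure ℝ) (V : Win) (L : ℕ) (e C : ℝ) (i i₁ D : ℕ) (S : Finset ℕ) (z : Ce) (η : Env) : ℝ :=
  Real.log (rP μ V L e C i i₁ (AvZ i D z) S η)

theorem F0_meas (S : Finset ℕ) (z : Ce) : Measurable (F0 μ V L e C i i₁ D S z) := (rC_meas _ _ _ _).log

theorem F0_dep (hi : i ≤ V.a) {z : Ce} (hz : z ∈ Zc V i D) (S : Finset ℕ) :
    DependsOn (F0 μ V L e C i i₁ D S z) ((Tz i D z : Set Pt)ᶜ) := by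
  intro η η' h
  unfold F0
  rw [rP_av_dep hi hz S fun q hq => h q fun hq' => hq hq']

/-- If the detours are cheap for one environment, the avoiding part is positive for all. -/
theorem av_pos (hV : V.Ok L) (hi₁ : i₁ ≤ V.a) (hi : i ≤ i₁) {ct : ℝ} {η₀ : Env} (hD : DetE μ V L e i D ct η₀) {z : Ce}
    (hz : z ∈ Zc V i D) {S : Finset ℕ} (hS : InL V.sg V.J V.Y S) (hA : AdC (clE μ V L e C i i₁) (Br V) S) (η : Env) :
    0 < rP μ V L e C i i₁ (AvZ i D z) S η := by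
  have h1 : 0 < rE μ V L e C i i₁ S η₀ := (rC_pos_iff hV hS η₀).2 hA
  have h2 := det_rP (C := C) hV hi₁ hi hD hz S
  have h3 : 0 < rP μ V L e C i i₁ (AvZ i D z) S η₀ := lt_of_lt_of_le (mul_pos (Real.exp_pos _) h1) h2
  exact (rC_pos_iff hV hS η).2 ((rC_pos_iff hV hS η₀).1 h3)

theorem rP_to_nonneg (z : Ce) (S : Finset ℕ) (η : Env) : 0 ≤ rP μ V L e C i i₁ (ToZ i D z) S η := rC_nonneg _ _ _ _ _

theorem F0_le (hV : V.Ok L) (hi₁ : i₁ ≤ V.a) (hi : i ≤ i₁) {ct : ℝ} {η₀ : Env} (hD : DetE μ V L e i D ct η₀) {z : Ce}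
    (hz : z ∈ Zc V i D) {S : Finset ℕ} (hS : InL V.sg V.J V.Y S) (hA : AdC (clE μ V L e C i i₁) (Br V) S) (η : Env) :
    F0 μ V L e C i i₁ D S z η ≤ Real.log (rE μ V L e C i i₁ S η) := by
  have h1 := av_pos (C := C) hV hi₁ hi hD hz hS hA η
  have h2 := rE_split (μ := μ) V L e C i i₁ D z S η
  have h3 := rP_to_nonneg (μ := μ) (V := V) (L := L) (e := e) (C := C) (i := i) (i₁ := i₁) (D := D) z S η
  exact Real.log_le_log h1 (by linarith)

/-- **hdet.** -/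
theorem F0_det (hV : V.Ok L) (hi₁ : i₁ ≤ V.a) (hi : i ≤ i₁) {ct : ℝ} {η : Env} (hD : DetE μ V L e i D ct η) {z : Ce}
    (hz : z ∈ Zc V i D) {S : Finset ℕ} (hS : InL V.sg V.J V.Y S) (hA : AdC (clE μ V L e C i i₁) (Br V) S) :
    Real.log (rE μ V L e C i i₁ S η) - F0 μ V L e C i i₁ D S z η ≤ ct := by
  have h1 : 0 < rE μ V L e C i i₁ S η := (rC_pos_iff hV hS η).2 hA
  have h2 := det_rP (C := C) hV hi₁ hi hD hz S
  have h3 := Real.log_le_log (mul_pos (Real.exp_pos _) h1) h2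
  rw [Real.log_mul (Real.exp_pos _).ne' h1.ne', Real.log_exp] at h3
  unfold F0
  linarith

/-- The elementary inequality: `- log (1 - x) ≤ 2 c x`, if `- log (1 - x) ≤ c` and `1 ≤ c`. -/
theorem neg_log_le {x c : ℝ} (hx0 : 0 ≤ x) (hx1 : x < 1) (hc : 1 ≤ c) (h : -Real.log (1 - x) ≤ c) :
    -Real.log (1 - x) ≤ 2 * c * x := by
  rcases le_total x (1 / 2) with h1 | h1
  · have h2 : 0 < 1 - x := by linarith
    have h3 := Real.one_sub_inv_le_log_of_pos h2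
    have h4 : (1 - x)⁻¹ ≤ 1 + 2 * x := by
      rw [inv_le_iff_one_le_mul₀ h2]
      nlinarith
    have h5 : 2 * x ≤ 2 * c * x := by nlinarith
    linarith
  · have h2 : c ≤ 2 * c * x := by nlinarith
    linarith

/-- One cell: the loss is at most `2 ct` times the share of the competitors which visit the cell. -/
theorem F0_cell (hV : V.Ok L) (hi₁ : i₁ ≤ V.a) (hi : i ≤ i₁) {ct : ℝ} (hct : 1 ≤ ct) {η : Env} (hD : DetE μ V L e i D ct η)
    {z : Ce} (hz : z ∈ Zc V i D) {S : Finset ℕ} (hS : InL V.sg V.J V.Y S) (hA : AdC (clE μ V L e C i i₁) (Br V) S) :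
    Real.log (rE μ V L e C i i₁ S η) - F0 μ V L e C i i₁ D S z η ≤
      2 * ct * (rP μ V L e C i i₁ (ToZ i D z) S η / rE μ V L e C i i₁ S η) := by
  have h1 : 0 < rE μ V L e C i i₁ S η := (rC_pos_iff hV hS η).2 hA
  have h2 := av_pos (C := C) hV hi₁ hi hD hz hS hA η
  have h3 := rE_split (μ := μ) V L e C i i₁ D z S η
  have h4 := rP_to_nonneg (μ := μ) (V := V) (L := L) (e := e) (C := C) (i := i) (i₁ := i₁) (D := D) z S η
  have h5 := F0_det (C := C) hV hi₁ hi hD hz hS hA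
  obtain ⟨x, hx⟩ : ∃ x, x = rP μ V L e C i i₁ (ToZ i D z) S η / rE μ V L e C i i₁ S η := ⟨_, rfl⟩
  have hx0 : 0 ≤ x := by rw [hx]; exact div_nonneg h4 h1.le
  have hx1 : 1 - x = rP μ V L e C i i₁ (AvZ i D z) S η / rE μ V L e C i i₁ S η := by
    rw [hx, eq_div_iff h1.ne', sub_mul, div_mul_cancel₀ _ h1.ne']
    linarith
  have hx2 : x < 1 := by
    have : 0 < 1 - x := by rw [hx1]; exact div_pos h2 h1
    linarith
  have hlog : -Real.log (1 - x) = Real.log (rE μ V L e C i i₁ S η) - F0 μ V L e C i i₁ D S z η := by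
    rw [hx1, Real.log_div h2.ne' h1.ne']
    unfold F0
    ring
  rw [← hx, ← hlog]
  refine neg_log_le hx0 hx2 hct ?_
  rw [hlog]
  exact h5

/-- **hRi.** -/
theorem F0_sum (hV : V.Ok L) (hi₁ : i₁ ≤ V.a) (hi : i ≤ i₁) {ct K : ℝ} (hct : 1 ≤ ct) {η : Env}
    (hD : DetE μ V L e i D ct η) (hT : TouE μ V L e i D K η) {S : Finset ℕ} (hS : InL V.sg V.J V.Y S)
    (hA : AdC (clE μ V L e C i i₁) (Br V) S) (M : ℝ) :
    ∑ z ∈ Zc V i D, min (Real.log (rE μ V L e C i i₁ S η) - F0 μ V L e C i i₁ D S z η) M ≤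
      2 * ct * (K * (V.Iv.card * (2 ^ (V.a - i) : ℕ))) := by
  classical
  have h1 : 0 < rE μ V L e C i i₁ S η := (rC_pos_iff hV hS η).2 hA
  have e1 : ∑ z ∈ Zc V i D, min (Real.log (rE μ V L e C i i₁ S η) - F0 μ V L e C i i₁ D S z η) M ≤
      2 * ct * ∑ z ∈ Zc V i D, rP μ V L e C i i₁ (ToZ i D z) S η / rE μ V L e C i i₁ S η := by
    rw [mul_sum]
    exact sum_le_sum fun z hz => (min_le_left _ _).trans (F0_cell hV hi₁ hi hct hD hz hS hA)
  refine e1.trans (mul_le_mul_of_nonneg_left ?_ (by linarith))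
  -- enlarge the set of cells to a product
  obtain ⟨Q, hQ⟩ : ∃ Q : Finset ℤ, Q = Icc (-(2 * (V.N : ℤ) + |V.Y| + V.w)) (2 * (V.N : ℤ) + |V.Y| + V.w) := ⟨_, rfl⟩
  have hsub : Zc V i D ⊆ V.Iv ×ˢ (range (2 ^ (V.a - i)) ×ˢ Q) := by
    rw [hQ]
    exact filter_subset _ _
  refine (sum_le_sum_of_subset_of_nonneg hsub fun z _ _ => div_nonneg (rP_to_nonneg z S η) h1.le).trans ?_
  rw [sum_product]
  simp_rw [sum_product]
  have hone : ∀ T ∈ V.Iv, ∀ k ∈ range (2 ^ (V.a - i)),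
      ∑ q ∈ Q, rP μ V L e C i i₁ (ToZ i D (T, k, q)) S η / rE μ V L e C i i₁ S η ≤ K := by
    intro T hTv k hk
    rw [mem_range] at hk
    rw [← sum_div, div_le_iff₀ h1]
    have e2 : ∀ q ∈ Q, rP μ V L e C i i₁ (ToZ i D (T, k, q)) S η =
        rP μ V L e C i i₁ (LayC (al i ((T, k, 0) : Ce)) (al i ((T, k, 0) : Ce) + 2 ^ i)
          (fun u g => ¬ AvL (al i ((T, k, 0) : Ce)) (2 ^ i) D q u g)) S η := fun q _ =>
      rP_to (z := ((T, k, q) : Ce)) hi₁ hi hTv hk S η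
    rw [sum_congr rfl e2]
    exact sum_rP_le (z := ((T, k, 0) : Ce)) hV hi₁ hi hTv hk (Q := Q)
      (Φ := fun q u g => ¬ AvL (al i ((T, k, 0) : Ce)) (2 ^ i) D q u g) (fun u u' hp => hT T hTv k hk u u' hp Q) S
  calc ∑ T ∈ V.Iv, ∑ k ∈ range (2 ^ (V.a - i)), ∑ q ∈ Q,
        rP μ V L e C i i₁ (ToZ i D (T, k, q)) S η / rE μ V L e C i i₁ S η
      ≤ ∑ T ∈ V.Iv, ∑ k ∈ range (2 ^ (V.a - i)), K := sum_le_sum fun T hTv => sum_le_sum fun k hk => hone T hTv k hk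
    _ = K * (V.Iv.card * (2 ^ (V.a - i) : ℕ)) := by
        rw [sum_const, sum_const, card_range, nsmul_eq_mul, nsmul_eq_mul]
        ring

end

end Pool.Agent.W_7d29a1_ZE
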