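import Pool.Agent.W_7d29a1_ZE.TouB
import Pool.Agent.W_7d29a1_ZE.Step

/-!
STORM Z, second storey: the inputs of the step at one scale from the cells (`CellIn`), the detours and the visited columns.
(helper18)
-/

namespace Pool.Agent.W_7d29a1_ZE

open MeasureTheory ProbabilityTheory Filter Topology Finset
open Pool.Agent.W_7d29a1_F Pool.Agent.W_7d29a1_G Pool.Agent.W_7d29a1_Z
open Pool.Agent.W_7d29a1_Z15
open Pool.Agent.W_7d29a1_SR (In wd)
open scoped ENNReal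

noncomputable section

variable {μ : Measure ℝ}

/-- The part of the inputs which comes from the cells: the structure `Dlr` for the sites `Tz i D` and the gain. -/
def CellIn (μ : Measure ℝ) (V : Win) (L : ℕ) (e C : ℝ) (i i₁ D : ℕ) (A : Env → Finset ℕ → Prop) (x δ : ℝ) : Prop :=
  ∃ (p t : ℝ) (K : Ce → Env → ℝ) (o q : Finset ℕ → Ce → Env → ℝ) (E : Set Env),
    W_7d29a1_Z59.Dlr μ (PC V.N V.y (InL V.sg V.J V.Y) (clE μ V L e C i i₁) (Br V)) (Zc V i D) p t (Tz i D) K (aC A)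
      (wC μ V.N) (ZC μ V.N V.y) (fun S => rE μ V L e C i i₁ S) o q ∧
    MeasurableSet E ∧ (law μ).real Eᶜ ≤ δ ∧ x⁻¹ ≤ p ∧
    (#(Zc V i D) : ℝ) ≤ x * ((V.nJ : ℝ) / 2 ^ i * ((V.w : ℝ) / wd' μ (2 ^ i) + 1)) ∧
    (∀ g ∈ E, ∀ S ∈ PC V.N V.y (InL V.sg V.J V.Y) (clE μ V L e C i i₁) (Br V), ∀ M : ℝ, EE' μ (2 ^ i) ≤ M →
      |Real.log (rE μ V L e C i i₁ S g)| ≤ M → x⁻¹ * ((V.nJ : ℝ) / 2 ^ i) * EE' μ (2 ^ i) ≤
        ∑ z ∈ Zc V i D, min (Real.log (W_7d29a1_Z59.rsh t K (fun S => rE μ V L e C i i₁ S) o S z g) -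
          Real.log (rE μ V L e C i i₁ S g)) M)

theorem mem_PC_inL {V : Win} {C : Cls} {S : Finset ℕ} (h : S ∈ PC V.N V.y (InL V.sg V.J V.Y) C (Br V)) :
    InL V.sg V.J V.Y S ∧ AdC C (Br V) S := by
  classical
  unfold PC at h
  rw [mem_filter] at h
  exact ⟨h.2.2.1, h.2.2.2⟩

theorem nJ_div {V : Win} {i : ℕ} (hi : i ≤ V.a) : (V.nJ : ℝ) / 2 ^ i = V.Iv.card * (2 ^ (V.a - i) : ℕ) := by
  unfold Win.nJ
  have h1 : (2 : ℝ) ^ V.a = 2 ^ (V.a - i) * 2 ^ i := by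
    rw [← pow_add]
    congr 1
    omega
  push_cast
  rw [h1]
  field_simp

variable {V : Win} {L : ℕ} {e C : ℝ} {i i₁ D : ℕ}

/-- `F0_sum` without the cap. -/
theorem F0_sum' (hV : V.Ok L) (hi₁ : i₁ ≤ V.a) (hi : i ≤ i₁) {ct K : ℝ} (hct : 1 ≤ ct) {η : Env}
    (hD : DetE μ V L e i D ct η) (hT : TouE μ V L e i D K η) {S : Finset ℕ} (hS : InL V.sg V.J V.Y S)
    (hA : AdC (clE μ V L e C i i₁) (Br V) S) :
    ∑ z ∈ Zc V i D, (Real.log (rE μ V L e C i i₁ S η) - F0 μ V L e C i i₁ D S z η) ≤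
      2 * ct * (K * (V.Iv.card * (2 ^ (V.a - i) : ℕ))) := by
  refine le_trans (le_of_eq (sum_congr rfl fun z hz => ?_)) (F0_sum hV hi₁ hi hct hD hT hS hA ct)
  exact (min_eq_left (F0_det hV hi₁ hi hD hz hS hA)).symm

/-- **The inputs of the step.** -/
theorem stepIn_of [IsProbabilityMeasure μ] (hV : V.Ok L) (hi₁ : i₁ ≤ V.a) (hi : i ≤ i₁) {A : Env → Finset ℕ → Prop}
    {x x₁ K ct δ δ₁ : ℝ} (hx : 1 ≤ x) (hxx : x ≤ x₁) (hK : 0 ≤ K) (hct1 : 1 ≤ ct) (hct : ct ≤ x * EE' μ (2 ^ i))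
    (hKx : 2 * (x * K) ≤ x₁)
    (hcell : CellIn μ V L e C i i₁ D A x δ) {E : Set Env} (hE : ∀ η ∈ E, DetE μ V L e i D ct η ∧ TouE μ V L e i D K η)
    (hE1 : (law μ).real Eᶜ ≤ δ₁) (hδ₁ : δ₁ < 1) : StepIn μ V L e C i i₁ A x₁ (δ + δ₁) := by
  obtain ⟨p, t, Kz, o, q, E₁, hDlr, hE₁m, hE₁, hp, hZ, hGa⟩ := hcell
  have hx0 : 0 < x := by linarith
  have hx₁0 : 0 < x₁ := by linarith
  have hEE : 1 ≤ EE' μ (2 ^ i) := le_max_left _ _
  have hwd : 1 ≤ wd' μ (2 ^ i) := le_max_left _ _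
  -- a measurable version of the good event
  obtain ⟨G, hG⟩ : ∃ G : Set Env, G = {η | DetE μ V L e i D ct η} ∩ {η | TouE μ V L e i D K η} := ⟨_, rfl⟩
  have hGm : MeasurableSet G := by
    rw [hG]
    exact (detE_meas V L e i D ct).inter (touE_meas V L e i D K)
  have hGc : (law μ).real Gᶜ ≤ δ₁ := by
    refine (measureReal_mono (Set.compl_subset_compl.2 ?_) (measure_ne_top _ _)).trans hE1
    intro η hη
    rw [hG]
    exact hE η hη
  -- one good environment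
  obtain ⟨η₀, hη₀⟩ : ∃ η₀, η₀ ∈ G := by
    by_contra hne
    push Not at hne
    have h1 : Gᶜ = Set.univ := Set.eq_univ_of_forall fun η => hne η
    rw [h1, probReal_univ] at hGc
    linarith
  have hD0 : DetE μ V L e i D ct η₀ := by
    rw [hG] at hη₀
    exact hη₀.1
  have hn0 : 0 ≤ (V.nJ : ℝ) / 2 ^ i := by positivity
  refine ⟨Zc V i D, p, t, Tz i D, Kz, o, q, F0 μ V L e C i i₁ D, E₁ ∩ G, hDlr, fun S _ z _ => F0_meas S z,
    fun S _ z hz => F0_dep (hi.trans hi₁) hz S, fun S hS z hz g => ?_, hE₁m.inter hGm, ?_, ?_, ?_, ?_, ?_, ?_⟩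
  · exact F0_le hV hi₁ hi hD0 hz (mem_PC_inL hS).1 (mem_PC_inL hS).2 g
  · rw [Set.compl_inter]
    exact (measureReal_union_le _ _).trans (add_le_add hE₁ hGc)
  · exact (inv_anti₀ hx0 hxx).trans hp
  · refine hZ.trans (mul_le_mul_of_nonneg_right hxx ?_)
    have hw : (0 : ℝ) ≤ V.w := by
      have := hV.w1
      exact_mod_cast (by omega : (0 : ℤ) ≤ V.w)
    positivity
  · intro g hg S hS M hM hr
    refine le_trans ?_ (hGa g hg.1 S hS M hM hr)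
    refine mul_le_mul_of_nonneg_right (mul_le_mul_of_nonneg_right (inv_anti₀ hx0 hxx) hn0) (by linarith)
  · intro g hg S hS z hz
    have hg' := hg.2
    rw [hG] at hg'
    refine (F0_det hV hi₁ hi hg'.1 hz (mem_PC_inL hS).1 (mem_PC_inL hS).2).trans (hct.trans ?_)
    exact mul_le_mul_of_nonneg_right hxx (by linarith)
  · intro g hg S hS
    have hg' := hg.2
    rw [hG] at hg'
    refine (F0_sum' hV hi₁ hi hct1 hg'.1 hg'.2 (mem_PC_inL hS).1 (mem_PC_inL hS).2).trans ?_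
    rw [← nJ_div (hi.trans hi₁)]
    calc 2 * ct * (K * ((V.nJ : ℝ) / 2 ^ i)) ≤ 2 * (x * EE' μ (2 ^ i)) * (K * ((V.nJ : ℝ) / 2 ^ i)) :=
          mul_le_mul_of_nonneg_right (by linarith) (mul_nonneg hK hn0)
      _ = 2 * (x * K) * (((V.nJ : ℝ) / 2 ^ i) * EE' μ (2 ^ i)) := by ring
      _ ≤ x₁ * (((V.nJ : ℝ) / 2 ^ i) * EE' μ (2 ^ i)) :=
          mul_le_mul_of_nonneg_right hKx (mul_nonneg hn0 (by linarith))
      _ = _ := by ring

/-- The good environments of the visited columns. -/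
theorem offc_sh [IsProbabilityMeasure μ] {ε κ : ℝ} {L : ℕ} {p : ℝ} (h : law μ {η | ¬ OffC μ L ε κ η} ≤ ENNReal.ofReal p)
    (hp : 0 ≤ p) (x : ℤ) : (law μ).real {η | ¬ OffC μ L ε κ (sh (0, x) η)} ≤ p := by
  have h1 : law μ {η | ¬ OffC μ L ε κ (sh (0, x) η)} ≤ ENNReal.ofReal p := by
    have h2 := (mp_sh (μ := μ) (0, x)).measure_preimage_le (s := {η | ¬ OffC μ L ε κ η})
    exact h2.trans h
  rw [measureReal_def]
  exact ENNReal.toReal_le_of_le_ofReal hp h1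

end

end Pool.Agent.W_7d29a1_ZE
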