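import Pool.Agent.W_7d29a1_ZE.CellQ
import Pool.Agent.W_7d29a1_ZE.Leg
import Pool.Agent.W_7d29a1_ZE.StepAll

/-!
STORM Z, SECOND STOREY (MP_7d29a1_pr), piece Cell: **the statement `CellSt` of the cells**, without hypotheses. (helper37)
-/

namespace Pool.Agent.W_7d29a1_ZE

open MeasureTheory ProbabilityTheory Filter Topology Finset
open Pool.Agent.W_7d29a1_F Pool.Agent.W_7d29a1_X Pool.Agent.W_7d29a1_Z Pool.Agent.W_7d29a1_Z37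
open Pool.Agent.W_7d29a1_Z15 (Cls kC rC AdC NTc Own PC aC wC ZC rC_pos)
open Pool.Agent.W_7d29a1_SR (In St)
open Pool.Agent.W_7d29a1_G (EE HF2)

noncomputable section

variable {μ : Measure ℝ} [IsProbabilityMeasure μ] {c C₀ : ℝ} {n₀ : ℕ}

/-- The half width of the columns at the scale `2 ^ i`. -/
def dH (μ : Measure ℝ) (Cd : ℝ) (i : ℕ) : ℕ := ⌈Cd * wd' μ (2 ^ i)⌉₊

omit [IsProbabilityMeasure μ] in
theorem dH_bd {Cd : ℝ} (hCd : 0 ≤ Cd) (i : ℕ) : Cd * wd' μ (2 ^ i) ≤ dH μ Cd i ∧ (dH μ Cd i : ℝ) ≤ (Cd + 1) * wd' μ (2 ^ i) := by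
  have h1 : 1 ≤ wd' μ (2 ^ i) := le_max_left _ _
  refine ⟨Nat.le_ceil _, ?_⟩
  have h2 := (Nat.ceil_lt_add_one (a := Cd * wd' μ (2 ^ i)) (mul_nonneg hCd (by linarith))).le
  unfold dH
  linarith

/-- The bad cells of all the scales. -/
def bC (μ : Measure ℝ) (C Cd R A₀ A₁ : ℝ) (n₁ i α : ℕ) (q : ℤ) : Set Env :=
  {η | (3 ≤ i ∧ n₁ ≤ 2 ^ (i - 2)) ∧ η ∉ GC μ C R (A₀ * EE' μ (2 ^ i / 4)) (A₁ * EE' μ (2 ^ i)) i (dH μ Cd i) α q}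

omit [IsProbabilityMeasure μ] in
theorem bC_eq {C Cd R A₀ A₁ : ℝ} {n₁ i : ℕ} (h : 3 ≤ i ∧ n₁ ≤ 2 ^ (i - 2)) (α : ℕ) (q : ℤ) :
    bC μ C Cd R A₀ A₁ n₁ i α q =
      (GC μ C R (A₀ * EE' μ (2 ^ i / 4)) (A₁ * EE' μ (2 ^ i)) i (dH μ Cd i) α q)ᶜ := by
  ext η
  unfold bC
  simp only [Set.mem_ofPred_eq, Set.mem_compl_iff]
  exact ⟨fun hh => hh.2, fun hh => ⟨h, hh⟩⟩

omit [IsProbabilityMeasure μ] in
theorem bC_empty {C Cd R A₀ A₁ : ℝ} {n₁ i : ℕ} (h : ¬ (3 ≤ i ∧ n₁ ≤ 2 ^ (i - 2))) (α : ℕ) (q : ℤ) :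
    bC μ C Cd R A₀ A₁ n₁ i α q = ∅ := by
  refine Set.eq_empty_of_forall_notMem fun η hη => ?_
  unfold bC at hη
  exact h hη.1

omit [IsProbabilityMeasure μ] in
theorem bC_meas (C Cd R A₀ A₁ : ℝ) (n₁ i α : ℕ) (q : ℤ) : MeasurableSet (bC μ C Cd R A₀ A₁ n₁ i α q) := by
  by_cases h : 3 ≤ i ∧ n₁ ≤ 2 ^ (i - 2)
  · rw [bC_eq h]
    exact (GC_meas _ _ _ _ _ _ _ _).compl
  · rw [bC_empty h]
    exact MeasurableSet.empty

omit [IsProbabilityMeasure μ] in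
theorem bC_dep (C Cd R A₀ A₁ : ℝ) (n₁ i α : ℕ) (q : ℤ) (η η' : Env) (h : ∀ x ∈ rows (α : ℤ) (α + 2 ^ i), η x = η' x) :
    η ∈ bC μ C Cd R A₀ A₁ n₁ i α q ↔ η' ∈ bC μ C Cd R A₀ A₁ n₁ i α q := by
  by_cases h1 : 3 ≤ i ∧ n₁ ≤ 2 ^ (i - 2)
  · rw [bC_eq h1]
    exact not_congr (GC_dep _ _ _ _ h1.1 _ _ _ h)
  · rw [bC_empty h1]
    exact Iff.rfl

/-- The legs of the cell. -/
theorem leg_cell {C Cd C₃ R A₀ Kw q : ℝ} {n₁ i : ℕ} (hC : 0 < C) (hCd : 0 ≤ Cd)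
    (hC₃ : C₃ = (8 * C + Cd + 4) * (2 * Kw)) (hw : wd' μ (2 ^ i) ≤ 4 * Kw * wd' μ (2 ^ i / 4))
    (hleg : ∀ i : ℕ, n₁ ≤ 2 ^ i → ∀ (a : Pt) (k : ℤ), |2 * (k : ℝ) - (2 ^ i : ℕ)| ≤ 2 * (C₃ * wd' μ (2 ^ i)) →
      (law μ).real {η | WR μ 0 (St (R * wd' μ (2 ^ i)) a) η a (2 ^ i) k < Real.exp (-(A₀ * EE' μ (2 ^ i)))} ≤ q)
    (hi : 3 ≤ i) (hn : n₁ ≤ 2 ^ (i - 2)) (a : Pt) (k : ℤ)
    (hk : |2 * (k : ℝ) - (2 ^ i / 4 : ℕ)| ≤ 2 * w4 μ C i + dH μ Cd i + 1) :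
    (law μ).real (Lg μ R (A₀ * EE' μ (2 ^ i / 4)) (2 ^ i / 4) a k)ᶜ ≤ q := by
  have hq := (quarter (by omega : 2 ≤ i)).1
  have h1 : 1 ≤ wd' μ (2 ^ i) := le_max_left _ _
  have h2 : (w4 μ C i : ℝ) ≤ 4 * (C * wd' μ (2 ^ i)) + 1 := by
    unfold w4
    exact (Nat.ceil_lt_add_one (by positivity)).le
  have h3 := (dH_bd (μ := μ) hCd i).2
  have h4 : 2 * (w4 μ C i : ℝ) + dH μ Cd i + 1 ≤ (8 * C + Cd + 4) * wd' μ (2 ^ i) := by linarith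
  have h5 : (8 * C + Cd + 4) * wd' μ (2 ^ i) ≤ 2 * (C₃ * wd' μ (2 ^ i / 4)) := by
    rw [hC₃]
    have := mul_le_mul_of_nonneg_left hw (by positivity : 0 ≤ 8 * C + Cd + 4)
    linarith
  have h6 := hleg (i - 2) hn a k (by rw [← hq]; exact hk.trans (h4.trans h5))
  rw [← hq] at h6
  refine le_trans (measureReal_mono (fun η hη => ?_) (measure_ne_top _ _)) h6
  rw [Set.mem_compl_iff] at hη
  unfold Lg at hη
  rw [Set.mem_ofPred_eq, not_le] at hη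
  exact hη

theorem two_le_of_eight {i : ℕ} (h : (8 : ℝ) ≤ 2 ^ i) : 3 ≤ i := by
  have h1 : 2 ^ 3 ≤ 2 ^ i := by
    have : ((2 ^ 3 : ℕ) : ℝ) ≤ ((2 ^ i : ℕ) : ℝ) := by
      push_cast
      linarith
    exact_mod_cast this
  exact (Nat.pow_le_pow_iff_right (by norm_num)).1 h1

/-- **The statement of the cells.** -/
theorem cellSt (h : In μ c C₀ n₀) (hF : HF2 μ) : CellSt μ := by
  intro e1 ε₂ he1 hε₂
  obtain ⟨aw, Kw, haw, haw1, hKw, hw⟩ := Pool.Agent.W_7d29a1_Z.wd'_pow h hF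
  obtain ⟨aE, KE, haE, haE1, hKE, hE⟩ := Pool.Agent.W_7d29a1_Z.EE'_pow h
  obtain ⟨ρ, hρ, hluck⟩ := luck h hF
  refine ⟨1, one_pos, fun e he _ C hC => ?_⟩
  obtain ⟨pr, hpr, hreg⟩ := regE (μ := μ) C
  obtain ⟨cr, hcr, L₁, hreg⟩ := hreg e1 he1
  -- constants
  obtain ⟨Cd, hCd⟩ : ∃ Cd : ℝ, Cd = 2 * ρ * Kw + 1 := ⟨_, rfl⟩
  have hρK : 0 ≤ ρ * Kw := by positivity
  have hCd1 : 1 ≤ Cd := by rw [hCd]; linarith
  have hCd0 : 0 ≤ Cd := by linarith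
  obtain ⟨C₃, hC₃⟩ : ∃ C₃ : ℝ, C₃ = (8 * C + Cd + 4) * (2 * Kw) := ⟨_, rfl⟩
  have hC₃1 : 1 ≤ C₃ := by
    rw [hC₃]
    exact one_le_mul_of_one_le_of_one_le (by linarith) (by linarith)
  obtain ⟨A₀, R, hA₀, hR, n₁, hleg⟩ := leg h hF (pr / 6) C₃ (by positivity) hC₃1
  obtain ⟨A₁, hA₁⟩ : ∃ A₁ : ℝ, A₁ = 6 / pr := ⟨_, rfl⟩
  have hA₁0 : 0 < A₁ := by rw [hA₁]; positivity
  obtain ⟨Kl, hKl⟩ : ∃ Kl : ℝ, Kl = 2 * A₀ + 2 + (A₁ + 1) * (2 * KE) := ⟨_, rfl⟩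
  obtain ⟨pl, hpl, n₂, hluck⟩ := hluck Kl
  -- large L
  have ev : ∀ (x y : ℝ), 0 < x → ∀ᶠ L : ℕ in atTop, y ≤ (L : ℝ) ^ x := fun x y hx =>
    ((tendsto_rpow_atTop hx).comp tendsto_natCast_atTop_atTop).eventually_ge_atTop _
  obtain ⟨L₂, hL₂⟩ := eventually_atTop.1 ((ev e (2 * (Cd + 1)) he).and ((ev (2 * e) (Cd + 1 + R * Kw + 1) (by positivity)).and
    ((ev ε₂ (max pl⁻¹ 2) hε₂).and (ev e1 (4 * ((n₁ : ℝ) + n₂) + 8) he1))))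
  refine ⟨cr, hcr, max (max L₁ L₂) 1, fun L hL V hV i i₁ h2i hi hi₁ h2a A hA hoff => ?_⟩
  have g1 : L₁ ≤ L := (le_max_left _ _).trans ((le_max_left _ _).trans hL)
  have g2 : L₂ ≤ L := (le_max_right _ _).trans ((le_max_left _ _).trans hL)
  have g3 : 1 ≤ L := (le_max_right _ _).trans hL
  obtain ⟨ha, hb, hc, hd⟩ := hL₂ L g2
  have hLR : (1 : ℝ) ≤ L := by exact_mod_cast g3
  have hL0 : (0 : ℝ) < L := by linarith
  have hn1 : (0 : ℝ) ≤ n₁ := Nat.cast_nonneg _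
  have hn2 : (0 : ℝ) ≤ n₂ := Nat.cast_nonneg _
  have hi3 : 3 ≤ i := two_le_of_eight (by linarith)
  have hia : i < V.a := by
    by_contra hcon
    have h1 : V.a - i₁ = 0 := by omega
    rw [h1, pow_zero] at h2a
    linarith
  obtain ⟨q1, q2, q3, q4⟩ := quarter (by omega : 2 ≤ i)
  have h4i : ((2 ^ (i - 2) : ℕ) : ℝ) * 4 = 2 ^ i := by
    rw [← q1]
    have h1 : ((2 ^ i / 4 : ℕ) : ℝ) ≠ 0 := by
      have : (0 : ℝ) < ((2 ^ i / 4 : ℕ) : ℝ) := by exact_mod_cast q2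
      exact this.ne'
    rw [div_eq_iff h1] at q4
    push_cast at q4 ⊢
    linarith
  have hn1i : n₁ ≤ 2 ^ (i - 2) := by
    have : (n₁ : ℝ) ≤ ((2 ^ (i - 2) : ℕ) : ℝ) := by linarith
    exact_mod_cast this
  have hn2i : n₂ ≤ 2 ^ (i - 2) := by
    have : (n₂ : ℝ) ≤ ((2 ^ (i - 2) : ℕ) : ℝ) := by linarith
    exact_mod_cast this
  -- widths
  obtain ⟨w1, w2⟩ := quarter_wd haw hKw hw (by omega : 2 ≤ i)
  have hEq := quarter_EE (fun m n hm hmn => (hE m n hm hmn).2.2) (by omega : 2 ≤ i)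
  have hwd1 : 1 ≤ wd' μ (2 ^ i) := le_max_left _ _
  have hwd4 : 1 ≤ wd' μ (2 ^ i / 4) := le_max_left _ _
  have hEE1 : 1 ≤ EE' μ (2 ^ i) := le_max_left _ _
  have hEE4 : 1 ≤ EE' μ (2 ^ i / 4) := le_max_left _ _
  obtain ⟨d1, d2⟩ := dH_bd (μ := μ) hCd0 i
  obtain ⟨Dh, hDh⟩ : ∃ Dh : ℕ, Dh = dH μ Cd i := ⟨_, rfl⟩
  rw [← hDh] at d1 d2
  have hDwd : wd' μ (2 ^ i) ≤ Dh := (le_mul_of_one_le_left (zero_le_one.trans hwd1) hCd1).trans d1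
  have hDh0 : 0 < Dh := by
    have : (0 : ℝ) < Dh := by linarith
    exact_mod_cast this
  have hwl : Dh + R * wd' μ (2 ^ i / 4) < (L : ℝ) ^ (2 * e) * wd' μ (2 ^ i) := by
    have h1 : R * wd' μ (2 ^ i / 4) ≤ R * (Kw * wd' μ (2 ^ i)) := mul_le_mul_of_nonneg_left w1 (by linarith)
    have h2 : (Cd + 1 + R * Kw + 1) * wd' μ (2 ^ i) ≤ (L : ℝ) ^ (2 * e) * wd' μ (2 ^ i) :=
      mul_le_mul_of_nonneg_right hb (by linarith)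
    linarith
  -- the levels
  obtain ⟨Aa, hAa⟩ : ∃ Aa : ℝ, Aa = A₀ * EE' μ (2 ^ i / 4) := ⟨_, rfl⟩
  obtain ⟨Ab, hAb⟩ : ∃ Ab : ℝ, Ab = A₁ * EE' μ (2 ^ i) := ⟨_, rfl⟩
  obtain ⟨t, ht⟩ : ∃ t : ℝ, t = 2 * Aa + Ab + 2 + EE' μ (2 ^ i) := ⟨_, rfl⟩
  have htK : t ≤ Kl * EE' μ (2 ^ i / 4) := by
    rw [ht, hAa, hAb, hKl]
    have h1 : (A₁ + 1) * EE' μ (2 ^ i) ≤ (A₁ + 1) * (2 * KE * EE' μ (2 ^ i / 4)) :=
      mul_le_mul_of_nonneg_left hEq (by linarith)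
    linarith
  -- the probability of luck
  obtain ⟨p, hp⟩ : ∃ p : ℝ, p = (law μ).real {η | Real.exp t ≤ k0 μ i Dh η} := ⟨_, rfl⟩
  have hplp : pl ≤ p := by
    rw [hp]
    refine (hluck (i - 2) hn2i (((2 ^ i / 4 : ℕ) : ℤ), ((Dh / 2 : ℕ) : ℤ) + (2 ^ i / 8 : ℕ))).trans
      (measureReal_mono (fun η hη => ?_) (measure_ne_top _ _))
    rw [Set.mem_ofPred_eq, ← q1] at hη
    rw [Set.mem_ofPred_eq]
    refine (Real.exp_le_exp.2 htK).trans (hη.trans (k0_ge hi3 ?_ ?_ η))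
    · have h1 : ρ * wd' μ (2 ^ i / 4) ≤ ρ * (Kw * wd' μ (2 ^ i)) := mul_le_mul_of_nonneg_left w1 (by linarith)
      have h2 : (2 * ρ * Kw + 1) * wd' μ (2 ^ i) ≤ Dh := by rw [← hCd]; exact d1
      linarith
    · exact mul_nonneg (by linarith) (by linarith)
  have hp0 : 0 < p := lt_of_lt_of_le hpl hplp
  have hpz : ∀ z : Ce, (law μ).real {η | Real.exp t ≤ kE μ V L e C i Dh z η} = p := fun z => by
    rw [hp]
    exact prob_eq V L e C hi3 Dh t z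
  -- the good environments
  obtain ⟨Bad, hBad⟩ : ∃ Bad : Set Env, Bad = {η | ∃ a i T : ℕ, ∃ u : ℕ → ℤ, T + 2 ^ a ≤ L ∧ i ≤ a ∧
      (L : ℝ) ^ e1 ≤ (2 ^ (a - i) : ℕ) ∧ |u T| ≤ 2 * L ∧
      ∑ k ∈ range (2 ^ (a - i)), |2 * ((u (T + (k + 1) * 2 ^ i) : ℝ) - u (T + k * 2 ^ i)) - (2 ^ i : ℕ)| ≤
        2 * (C * wd' μ (2 ^ i) * (2 ^ (a - i) : ℕ)) ∧
      ((2 ^ (a - i) : ℕ) : ℝ) / 4 ≤ (irr (bC μ C Cd R A₀ A₁ n₁) (fun i => 2 * dH μ Cd i) a i T u η).card} := ⟨_, rfl⟩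
  have hBp : law μ Bad ≤ ENNReal.ofReal (Real.exp (-(L : ℝ) ^ cr)) := by
    rw [hBad]
    refine hreg L g1 (fun i => 2 * dH μ Cd i) (bC μ C Cd R A₀ A₁ n₁) (fun j => ?_) (bC_meas C Cd R A₀ A₁ n₁)
      (bC_dep C Cd R A₀ A₁ n₁) (fun j α q => ?_)
    · have h1 : 1 ≤ wd' μ (2 ^ j) := le_max_left _ _
      have h2 := (dH_bd (μ := μ) hCd0 j).1
      have h3 : wd' μ (2 ^ j) ≤ dH μ Cd j := (le_mul_of_one_le_left (zero_le_one.trans h1) hCd1).trans h2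
      refine h3.trans ?_
      exact_mod_cast (by omega : dH μ Cd j ≤ 2 * dH μ Cd j)
    · by_cases hj : 3 ≤ j ∧ n₁ ≤ 2 ^ (j - 2)
      · rw [bC_eq hj]
        have h1 := GC_prob (μ := μ) (C := C) (R := R) (A := A₀ * EE' μ (2 ^ j / 4)) (A' := A₁ * EE' μ (2 ^ j)) (q := pr / 6)
          (Dh := dH μ Cd j) hj.1 (fun a k hk => leg_cell hC hCd0 hC₃ (quarter_wd haw hKw hw (by omega : 2 ≤ j)).2 hleg hj.1 hj.2 a k hk)
          (fun a => ?_) α q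
        · refine h1.trans (le_of_eq ?_)
          ring
        · have h2 := V_big (μ := μ) h.em (2 ^ j) a hA₁0
          have h3 : 1 / A₁ = pr / 6 := by
            rw [hA₁]
            field_simp
          rw [h3] at h2
          refine le_trans (measureReal_mono (fun η hη => ?_) (measure_ne_top _ _)) h2
          rw [Set.mem_ofPred_eq] at hη ⊢
          refine lt_of_le_of_lt ?_ hη
          exact mul_le_mul_of_nonneg_left (le_max_right _ _) hA₁0.le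
      · rw [bC_empty hj, measureReal_empty]
        exact hpr.le
  -- the conclusion
  have hD1 : wd' μ (2 ^ i) ≤ ((2 * Dh : ℕ) : ℝ) := by
    push_cast
    linarith
  refine ⟨2 * Dh, hD1, ?_, p, t, kE μ V L e C i Dh, oE μ V L e C i i₁ Dh, qE μ V L e C i i₁ Dh, (toMeasurable (law μ) Bad)ᶜ,
    dlrE hV hi₁ hi hDh0 hA hoff hp0 (fun z _ => hpz z), (measurableSet_toMeasurable _ _).compl, ?_, ?_, ?_, ?_⟩
  · push_cast
    have h1 := mul_le_mul_of_nonneg_right ha (by linarith : 0 ≤ wd' μ (2 ^ i))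
    linarith
  · rw [compl_compl, measureReal_def, measure_toMeasurable]
    exact ENNReal.toReal_le_of_le_ofReal (Real.exp_pos _).le hBp
  · have h1 : pl⁻¹ ≤ (L : ℝ) ^ ε₂ := (le_max_left _ _).trans hc
    exact (inv_le_of_inv_le₀ hpl h1).trans hplp
  · have h1 := card_Zc (V := V) (i := i) (D := 2 * Dh) (by omega) hV.sgn hV.w1
    rw [nJ_div hia.le]
    have hw0 : (0 : ℝ) ≤ V.w := by
      have := hV.w1
      exact_mod_cast (by omega : (0 : ℤ) ≤ V.w)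
    have h2 : (V.w : ℝ) / ((2 * Dh : ℕ) : ℝ) ≤ V.w / wd' μ (2 ^ i) := div_le_div_of_nonneg_left hw0 (by linarith) hD1
    have hx : 1 ≤ (L : ℝ) ^ ε₂ := Real.one_le_rpow hLR hε₂.le
    have h3 : (0 : ℝ) ≤ V.Iv.card * (2 ^ (V.a - i) : ℕ) := by positivity
    have h4 : (V.Iv.card : ℝ) * (2 ^ (V.a - i) : ℕ) * ((V.w : ℝ) / ((2 * Dh : ℕ) : ℝ) + 1) ≤
        V.Iv.card * (2 ^ (V.a - i) : ℕ) * ((V.w : ℝ) / wd' μ (2 ^ i) + 1) :=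
      mul_le_mul_of_nonneg_left (by linarith) h3
    refine h1.trans (h4.trans ?_)
    refine le_mul_of_one_le_left (mul_nonneg h3 ?_) hx
    have : 0 ≤ (V.w : ℝ) / wd' μ (2 ^ i) := div_nonneg hw0 (by linarith)
    linarith
  · intro η hη S hS M hM _
    have hηB : η ∉ Bad := fun hh => hη (subset_toMeasurable _ _ hh)
    have hM0 : 0 < M := by linarith
    have h2ai : (L : ℝ) ^ e1 ≤ (2 ^ (V.a - i) : ℕ) := by
      refine h2a.trans ?_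
      push_cast
      exact pow_le_pow_right₀ (by norm_num) (by omega)
    have hgain := gainE (μ := μ) hV (e := e) (C := C) (R := R) (A := Aa) (A' := Ab) hi₁ hi hia hi3 hDh0 hC (by linarith) hwl
      (D := fun i => 2 * dH μ Cd i) (by rw [hDh]) (B := bC μ C Cd R A₀ A₁ n₁)
      (fun α q => by rw [bC_eq ⟨hi3, hn1i⟩, hAa, hAb, hDh]) (η := η)
      (fun T hT u hu htv => by
        by_contra hcon
        rw [not_lt] at hcon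
        refine hηB ?_
        rw [hBad]
        refine ⟨V.a, i, T, u, ?_, hia.le, h2ai, hu, htv, hcon⟩
        exact (hV.row_lt hT).le.trans hV.NL)
      hp0 (fun z _ => hpz z) (t := t) (by rw [ht]; linarith) hS hM0
    have e1' : t - (2 * Aa + Ab + 2) = EE' μ (2 ^ i) := by rw [ht]; ring
    rw [e1', min_eq_left hM] at hgain
    refine le_trans ?_ hgain
    rw [nJ_div hia.le]
    refine mul_le_mul_of_nonneg_right ?_ (by linarith)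
    have h1 : (2 ^ (V.a - i) : ℕ) = 2 * (2 ^ (V.a - i) / 2) := by
      have : V.a - i = (V.a - i - 1) + 1 := by omega
      rw [this, pow_succ]
      omega
    have h2 : ((2 ^ (V.a - i) : ℕ) : ℝ) = 2 * ((2 ^ (V.a - i) / 2 : ℕ) : ℝ) := by exact_mod_cast h1
    have h3 : ((L : ℝ) ^ ε₂)⁻¹ ≤ (2 : ℝ)⁻¹ := inv_anti₀ two_pos ((le_max_right _ _).trans hc)
    rw [h2, Nat.cast_mul]
    have h5 : (0 : ℝ) ≤ (V.Iv.card : ℝ) * (2 * ((2 ^ (V.a - i) / 2 : ℕ) : ℝ)) :=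
      mul_nonneg (Nat.cast_nonneg _) (mul_nonneg two_pos.le (Nat.cast_nonneg _))
    refine (mul_le_mul_of_nonneg_right h3 h5).trans (le_of_eq ?_)
    generalize ((2 ^ (V.a - i) / 2 : ℕ) : ℝ) = x
    ring

/-- **The natural price of near ties.** -/
theorem tieE_all (h : In μ c C₀ n₀) (hF : HF2 μ) : TieE μ := tieE_cell h hF (cellSt h hF)

end

end Pool.Agent.W_7d29a1_ZE
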