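import Pool.Agent.W_7d29a1_ZE.CellG
import Pool.Agent.W_7d29a1_ZE.Reg

/-!
STORM Z, SECOND STOREY (MP_7d29a1_pr), piece Cell: the number of the regular cells which a piece of the class meets, and the gain.
(helper37)
-/

namespace Pool.Agent.W_7d29a1_ZE

open MeasureTheory ProbabilityTheory Filter Topology Finset
open Pool.Agent.W_7d29a1_F Pool.Agent.W_7d29a1_X Pool.Agent.W_7d29a1_Z Pool.Agent.W_7d29a1_Z37
open Pool.Agent.W_7d29a1_SR (St)
open Pool.Agent.W_7d29a1_Z15 (Cls kC rC AdC NTc Own PC aC wC ZC mkDlr)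

noncomputable section

variable {μ : Measure ℝ}

theorem ps_range {b1 : ℕ} {x : ℤ} (hx0 : 0 ≤ x) (hx1 : x ≤ b1) (g : Finset ℕ) {t : ℕ} (ht : b1 ≤ t) :
    0 ≤ ps 0 b1 x g t ∧ ps 0 b1 x g t ≤ t := by
  have h1 : ps 0 b1 x g t = x + ((g ∩ Ico b1 t).card : ℤ) := by simp [ps]
  have h2 : (g ∩ Ico b1 t).card ≤ t - b1 := by
    refine (card_le_card inter_subset_right).trans ?_
    rw [Nat.card_Ico]
  rw [h1]
  omega

/-- The number of the layers with a large displacement. -/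
theorem card_big {n : ℕ} {f : ℕ → ℝ} {c : ℝ} (hc : 0 < c) (hf : ∀ k, 0 ≤ f k) (h : ∑ k ∈ range n, f k ≤ 2 * (c * n)) :
    (((range n).filter fun k => 8 * c < f k).card : ℝ) ≤ n / 4 := by
  classical
  have h1 : (((range n).filter fun k => 8 * c < f k).card : ℝ) * (8 * c) ≤ 2 * (c * n) := by
    refine le_trans ?_ h
    rw [← nsmul_eq_mul]
    refine le_trans ?_ (sum_le_sum_of_subset_of_nonneg (filter_subset (fun k => 8 * c < f k) (range n)) fun k _ _ => hf k)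
    exact card_nsmul_le_sum _ _ _ fun k hk => (mem_filter.1 hk).2.le
  have h2 : (((range n).filter fun k => 8 * c < f k).card : ℝ) * 4 * (2 * c) ≤ n * (2 * c) := by linarith
  have h3 := le_of_mul_le_mul_right h2 (by positivity)
  linarith

open scoped Classical in
/-- **The number of the regular cells.** -/
theorem card_reg {V : Win} {L : ℕ} (hV : V.Ok L) {e C R A A' : ℝ} {i i₁ Dh : ℕ} (hi₁ : i₁ ≤ V.a) (hi : i ≤ i₁) (hia : i < V.a)
    (hi3 : 3 ≤ i) (hDh : 0 < Dh) (hC : 0 < C) (hR : 0 ≤ R)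
    (hwl : Dh + R * wd' μ (2 ^ i / 4) < (L : ℝ) ^ (2 * e) * wd' μ (2 ^ i))
    {D : ℕ → ℕ} (hD : D i = 2 * Dh) {B : ℕ → ℕ → ℤ → Set Env} (hB : ∀ α q, B i α q = (GC μ C R A A' i Dh α q)ᶜ) {η : Env}
    (hreg : ∀ T ∈ V.Iv, ∀ u : ℕ → ℤ, |u T| ≤ 2 * L →
      ∑ k ∈ range (2 ^ (V.a - i)), |2 * ((u (T + (k + 1) * 2 ^ i) : ℝ) - u (T + k * 2 ^ i)) - (2 ^ i : ℕ)| ≤
        2 * (C * wd' μ (2 ^ i) * (2 ^ (V.a - i) : ℕ)) → ((irr B D V.a i T u η).card : ℝ) < ((2 ^ (V.a - i) : ℕ) : ℝ) / 4)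
    {b : ℕ × ℕ} (hb : b ∈ Br V) {x : ℤ} (hx0 : 0 ≤ x) (hx1 : x ≤ b.1) {g : Finset ℕ}
    (hg : CR 0 (PV V) (PhV μ V L e C i i₁) b.1 x b.2 g) :
    V.Iv.card * (2 ^ (V.a - i) / 2) ≤ #((Zc V i (2 * Dh)).filter fun z =>
      η ∈ (ce μ V L e C i Dh z).Reg μ 0 0 (PV V) (2 * A + A' + 2) ∧
      (ps 0 b.1 x g (ce μ V L e C i Dh z).t0, ps 0 b.1 x g (ce μ V L e C i Dh z).t3) ∈ (ce μ V L e C i Dh z).U) := by
  obtain ⟨u, hu⟩ : ∃ u : ℕ → ℤ, u = fun t => ps 0 b.1 x g t := ⟨_, rfl⟩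
  obtain ⟨nl, hnl⟩ : ∃ nl : ℕ, nl = 2 ^ (V.a - i) := ⟨_, rfl⟩
  have hnod : ∀ T ∈ V.Iv, Nod μ V L e C i T u := fun T hT => by
    rw [hu]
    exact hg.2 i le_rfl hi T hT
  have hbr := br_le hb
  have hcw : 0 < C * wd' μ (2 ^ i) := mul_pos hC (lt_of_lt_of_le one_pos (le_max_left _ _))
  have hurange : ∀ t, b.1 ≤ t → 0 ≤ u t ∧ u t ≤ t := fun t ht => by
    rw [hu]
    exact ps_range hx0 hx1 g ht
  -- the good layers
  obtain ⟨F, hF⟩ : ∃ F : ℕ → ℕ → ℝ, F = fun T k => |2 * ((u (T + (k + 1) * 2 ^ i) : ℝ) - u (T + k * 2 ^ i)) - (2 ^ i : ℕ)| := ⟨_, rfl⟩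
  obtain ⟨G, hG⟩ : ∃ G : ℕ → Finset ℕ, G = fun T => (range nl).filter fun k => k ∉ irr B D V.a i T u η ∧ F T k ≤ 8 * (C * wd' μ (2 ^ i)) :=
    ⟨_, rfl⟩
  have hcard : ∀ T ∈ V.Iv, nl / 2 ≤ (G T).card := by
    intro T hT
    have h1 := (hnod T hT).tv
    rw [← hnl] at h1
    have h2 := card_big (n := nl) (f := F T) hcw (fun k => by rw [hF]; exact abs_nonneg _) (by rw [hF]; exact h1.trans (le_of_eq (by ring)))
    have hTN : T ≤ V.N := (Nat.le_add_right _ _).trans (hV.row_lt hT).le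
    have huT := hurange T (hbr.2.2 T hT).1
    have h3 := hreg T hT u (by
      rw [abs_of_nonneg huT.1]
      have h4 : (V.N : ℤ) ≤ L := by exact_mod_cast hV.NL
      have h5 : (T : ℤ) ≤ V.N := by exact_mod_cast hTN
      linarith [huT.2]) (by rw [← hnl]; exact h1.trans (le_of_eq (by ring)))
    rw [← hnl] at h3
    have h4 : range nl ⊆ G T ∪ (irr B D V.a i T u η ∪ (range nl).filter fun k => 8 * (C * wd' μ (2 ^ i)) < F T k) := by
      intro k hk
      rw [mem_union, mem_union, mem_filter, hG]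
      by_cases h5 : k ∈ irr B D V.a i T u η
      · exact Or.inr (Or.inl h5)
      · rcases le_or_gt (F T k) (8 * (C * wd' μ (2 ^ i))) with h6 | h6
        · exact Or.inl (mem_filter.2 ⟨hk, h5, h6⟩)
        · exact Or.inr (Or.inr ⟨hk, h6⟩)
    have h5 := (card_le_card h4).trans ((card_union_le _ _).trans (Nat.add_le_add_left (card_union_le _ _) _))
    rw [card_range] at h5
    have h6 : (nl : ℝ) ≤ (G T).card + ((irr B D V.a i T u η).card + ((range nl).filter fun k => 8 * (C * wd' μ (2 ^ i)) < F T k).card) := by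
      exact_mod_cast h5
    have h7 : (nl : ℝ) / 2 ≤ (G T).card := by linarith
    have h8 : ((nl / 2 : ℕ) : ℝ) ≤ (G T).card := (Nat.cast_div_le).trans (by exact_mod_cast h7)
    exact_mod_cast h8
  have hsum : V.Iv.card * (nl / 2) ≤ (V.Iv.sigma fun T => G T).card := by
    rw [card_sigma, ← smul_eq_mul]
    exact card_nsmul_le_sum _ _ _ hcard
  rw [← hnl]
  refine hsum.trans ?_
  -- the cell of a good layer
  obtain ⟨f, hf⟩ : ∃ f : (_ : ℕ) × ℕ → Ce, f = fun p => (((p.1, p.2, 2 * u (p.1 + p.2 * 2 ^ i) / ((2 * Dh : ℕ) : ℤ)) : Ce)) := ⟨_, rfl⟩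
  refine card_le_card_of_injOn f ?_ ?_
  swap
  · rintro ⟨T, k⟩ _ ⟨T', k'⟩ _ h
    rw [hf] at h
    simp only [Prod.mk.injEq] at h
    obtain ⟨h1, h2, -⟩ := h
    subst h1
    subst h2
    rfl
  rintro ⟨T, k⟩ hp
  rw [mem_coe, mem_sigma] at hp
  obtain ⟨hT, hk⟩ := hp
  simp only at hT hk
  rw [hG, mem_filter, mem_range, hnl] at hk
  obtain ⟨hk1, hk2, hk3⟩ := hk
  obtain ⟨α, hα⟩ : ∃ α, α = T + k * 2 ^ i := ⟨_, rfl⟩
  obtain ⟨q, hq⟩ : ∃ q : ℤ, q = 2 * u α / ((2 * Dh : ℕ) : ℤ) := ⟨_, rfl⟩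
  have hzz : f ⟨T, k⟩ = ((T, k, q) : Ce) := by
    rw [hf, hq, hα]
  rw [hzz, mem_coe, mem_filter]
  have hal : al i ((T, k, q) : Ce) = α := by rw [hα]; rfl
  have hN := hnod T hT
  have hDZ : (0 : ℤ) < ((2 * Dh : ℕ) : ℤ) := by exact_mod_cast (by omega : 0 < 2 * Dh)
  have hq1 : ((2 * Dh : ℕ) : ℤ) * q ≤ 2 * u α := by
    rw [hq]
    exact Int.mul_ediv_self_le hDZ.ne'
  have hq2 : 2 * u α < ((2 * Dh : ℕ) : ℤ) * (q + 1) := by
    rw [hq, mul_add, mul_one]
    exact Int.lt_mul_ediv_self_add hDZ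
  have s1 := hN.step k hk1
  have w1 := hN.wall k hk1.le
  have w2 := hN.wall (k + 1) hk1
  have hαk : T + (k + 1) * 2 ^ i = α + 2 ^ i := by rw [hα]; ring
  rw [hαk, ← hα] at s1
  rw [← hα] at w1
  rw [hαk] at w2
  push_cast at w1 w2
  have hTa := hV.row_lt hT
  have hαT : T ≤ α := by rw [hα]; omega
  have hαN : α ≤ V.N := by
    have h1 := (al_le (z := ((T, k, q) : Ce)) hia.le hk1).2
    rw [hal] at h1
    have h1' : α + 2 ^ i ≤ T + 2 ^ V.a := h1
    exact (Nat.le_add_right _ _).trans (h1'.trans hTa.le)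
  have huα := hurange α ((hbr.2.2 T hT).1.trans hαT)
  have hwd0 : 0 ≤ R * wd' μ (2 ^ i / 4) := mul_nonneg hR (zero_le_one.trans (le_max_left _ _))
  have hZc : ((T, k, q) : Ce) ∈ Zc V i (2 * Dh) := by
    unfold Zc
    rw [mem_filter, mem_product, mem_product, mem_range]
    refine ⟨⟨hT, hk1, ?_⟩, ?_⟩
    · show q ∈ Icc _ _
      rw [mem_Icc]
      have hq0 : 0 ≤ q := by
        rw [hq]
        exact Int.ediv_nonneg (by linarith [huα.1]) hDZ.le
      have hqN : q ≤ 2 * u α := by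
        rw [hq]
        exact Int.ediv_le_self _ (by linarith [huα.1])
      have hαN' : (α : ℤ) ≤ V.N := by exact_mod_cast hαN
      have hw1 := hV.w1
      have hY := abs_nonneg V.Y
      have hN0 : (0 : ℤ) ≤ V.N := by positivity
      constructor
      · linarith
      · linarith [huα.2]
    · intro v hv1 hv2
      simp only at hv1 hv2
      rw [hal]
      have a1 : |(v : ℝ) - 2 * u α| < 2 * Dh := by
        have b1 : v - 2 * u α < 2 * Dh := by
          have := hq1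
          rw [mul_add, mul_one] at hv2
          push_cast at hv2 this ⊢
          linarith
        have b2 : -(2 * (Dh : ℤ)) < v - 2 * u α := by
          have := hq2
          rw [mul_add, mul_one] at this
          push_cast at hv1 this ⊢
          linarith
        have b1' : (v : ℝ) - 2 * u α < 2 * Dh := by exact_mod_cast b1
        have b2' : -(2 * (Dh : ℝ)) < (v : ℝ) - 2 * u α := by exact_mod_cast b2
        rw [abs_lt]
        exact ⟨b2', b1'⟩
      have a2 : |((v : ℝ) - α) - (2 * (u α : ℝ) - α)| < 2 * ((L : ℝ) ^ (2 * e) * wd' μ (2 ^ i)) := by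
        have e1 : ((v : ℝ) - α) - (2 * (u α : ℝ) - α) = v - 2 * u α := by ring
        rw [e1]
        linarith
      have a3 := abs_lt.1 a2
      rcases hV.sgn with h | h
      · rw [h] at w1 ⊢
        push_cast at w1
        constructor
        · have : (V.Y : ℝ) < 1 * ((v : ℝ) - α) := by linarith [a3.1, w1.1]
          exact_mod_cast this
        · have : 1 * ((v : ℝ) - α) ≤ (V.Y : ℝ) + V.w := by linarith [a3.2, w1.2]
          exact_mod_cast this
      · rw [h] at w1 ⊢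
        push_cast at w1
        constructor
        · have : (V.Y : ℝ) < -1 * ((v : ℝ) - α) := by linarith [a3.2, w1.1]
          exact_mod_cast this
        · have : -1 * ((v : ℝ) - α) ≤ (V.Y : ℝ) + V.w := by linarith [a3.1, w1.2]
          exact_mod_cast this
  refine ⟨hZc, ?_, ?_⟩
  · refine reg_GC hV.sgn hi3 hR hwl ?_
    rw [hal]
    show η ∈ GC μ C R A A' i Dh α q
    by_contra hc
    apply hk2
    unfold irr
    rw [mem_filter, mem_range]
    refine ⟨hk1, ?_⟩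
    rw [← hα, hD, ← hq, hB]
    exact hc
  · show (ps 0 b.1 x g (al i ((T, k, q) : Ce)), ps 0 b.1 x g (al i ((T, k, q) : Ce) + 2 ^ i)) ∈ Uc μ V L e C i Dh (T, k, q)
    rw [hal]
    have hu1 : ps 0 b.1 x g α = u α := by rw [hu]
    have hu2 : ps 0 b.1 x g (α + 2 ^ i) = u (α + 2 ^ i) := by rw [hu]
    rw [hu1, hu2]
    have h2i : (2 : ℤ) ^ i / 2 * 2 = 2 ^ i := by
      have : (2 : ℤ) ∣ 2 ^ i := dvd_pow_self 2 (by omega)
      exact Int.ediv_mul_cancel this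
    have h2iR : (((2 : ℤ) ^ i / 2 : ℤ) : ℝ) * 2 = (2 ^ i : ℕ) := by exact_mod_cast h2i
    have hw4 : 4 * (C * wd' μ (2 ^ i)) ≤ (w4 μ C i : ℝ) := Nat.le_ceil _
    have hF3 : |2 * ((u (α + 2 ^ i) : ℝ) - u α) - (2 ^ i : ℕ)| ≤ 8 * (C * wd' μ (2 ^ i)) := by
      rw [hF] at hk3
      simp only at hk3
      rw [hαk, ← hα] at hk3
      exact hk3
    have hF4 := abs_le.1 hF3
    have hlo : (((2 : ℤ) ^ i / 2 : ℤ) : ℝ) - w4 μ C i ≤ (u (α + 2 ^ i) : ℝ) - u α := by linarith [hF4.1]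
    have hhi : (u (α + 2 ^ i) : ℝ) - u α ≤ (((2 : ℤ) ^ i / 2 : ℤ) : ℝ) + w4 μ C i := by linarith [hF4.2]
    have hlo' : (2 : ℤ) ^ i / 2 - w4 μ C i ≤ u (α + 2 ^ i) - u α := by exact_mod_cast hlo
    have hhi' : u (α + 2 ^ i) - u α ≤ (2 : ℤ) ^ i / 2 + w4 μ C i := by exact_mod_cast hhi
    have hc1 : (Dh : ℤ) * q ≤ u α := by
      have := hq1
      push_cast at this
      linarith
    have hc2 : u α < (Dh : ℤ) * (q + 1) := by
      have := hq2
      push_cast at this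
      linarith
    unfold Uc
    rw [mem_filter, mem_product, mem_Ico, mem_Icc]
    refine ⟨⟨⟨hc1, hc2⟩, ?_, ?_⟩, ?_⟩
    · simp only
      linarith
    · simp only
      linarith
    · rw [hal]
      refine ⟨s1, w1.1, w1.2, ?_, ?_⟩
      · have := w2.1
        push_cast at this ⊢
        linarith
      · have := w2.2
        push_cast at this ⊢
        linarith

end

end Pool.Agent.W_7d29a1_ZE
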