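import Pool.Agent.W_7d29a1_ZE.CellG
import Pool.Agent.W_7d29a1_SR.Lucky

/-!
STORM Z, SECOND STOREY (MP_7d29a1_pr), piece Cell: the probabilities (translation invariance of the lucky event, good cells, number of the
cells). (helper37)
-/

namespace Pool.Agent.W_7d29a1_ZE

open MeasureTheory ProbabilityTheory Filter Topology Finset
open Pool.Agent.W_7d29a1_F Pool.Agent.W_7d29a1_X Pool.Agent.W_7d29a1_Z Pool.Agent.W_7d29a1_Z37
open Pool.Agent.W_7d29a1_SR (St)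
open Pool.Agent.W_7d29a1_G (EE EE_pos)

noncomputable section

variable {μ : Measure ℝ}

theorem cast_half (D : ℕ) : (((D : ℤ) / 2 : ℤ) : ℝ) = ((D / 2 : ℕ) : ℝ) := by
  have : ((D : ℤ) / 2 : ℤ) = ((D / 2 : ℕ) : ℤ) := by push_cast; rfl
  rw [this, Int.cast_natCast]

/-- The column as a region. -/
def Rc (α : ℤ) (D : ℕ) (q : ℤ) : Set Pt := {p | (D : ℤ) * q ≤ 2 * p.2 - (p.1 - α) ∧ 2 * p.2 - (p.1 - α) < (D : ℤ) * (q + 1)}

theorem col_eq (α D : ℕ) (q : ℤ) : (fun (t : ℕ) (y : ℤ) => y ∈ col α D q t) = PR (Rc α D q) := by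
  funext t y
  exact propext mem_col

/-- The kernel of the reference cell. -/
def k0 (μ : Measure ℝ) (i Dh : ℕ) (η : Env) : ℝ :=
  WR μ 0 (Rc 0 (2 * Dh) 0) η (((2 ^ i / 4 : ℕ) : ℤ), ((Dh / 2 : ℕ) : ℤ) + (2 ^ i / 8 : ℕ)) (2 ^ i / 2) ((2 ^ i / 4 : ℕ) : ℤ)

theorem kE_sh (V : Win) (L : ℕ) (e C : ℝ) {i : ℕ} (hi : 3 ≤ i) (Dh : ℕ) (z : Ce) (η : Env) :
    kE μ V L e C i Dh z η = k0 μ i Dh (sh ((al i z : ℤ), (Dh : ℤ) * z.2.2) η) := by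
  obtain ⟨m, hm⟩ : ∃ m : ℕ, 2 ^ i = 8 * m := ⟨2 ^ (i - 3), by
    have : (8 : ℕ) = 2 ^ 3 := by norm_num
    rw [this, ← pow_add]
    congr 1
    omega⟩
  have hb8 : 2 ^ i / 8 = m := by omega
  have hb4 : 2 ^ i / 4 = 2 * m := by omega
  have hb2 : 2 ^ i / 2 = 4 * m := by omega
  have hb34 : 3 * 2 ^ i / 4 = 6 * m := by omega
  have h1 : kE μ V L e C i Dh z η = KP μ 0 0 (PR (Rc (al i z) (2 * Dh) z.2.2)) η (al i z + 2 ^ i / 4)
      (Dh * z.2.2 + (Dh / 2 : ℕ) + (2 ^ i / 8 : ℕ)) (al i z + 3 * 2 ^ i / 4)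
      (Dh * z.2.2 + (Dh / 2 : ℕ) + (2 ^ i / 8 : ℕ) + (2 ^ i / 4 : ℕ)) := by
    rw [← col_eq]
    rfl
  rw [h1, KP_eq_WR' _ η (by omega)]
  unfold k0
  have h2 := WR_sh (μ := μ) (s := 0) (Rc (al i z) (2 * Dh) z.2.2) η
    (((2 ^ i / 4 : ℕ) : ℤ), ((Dh / 2 : ℕ) : ℤ) + (2 ^ i / 8 : ℕ)) ((al i z : ℤ), (Dh : ℤ) * z.2.2) (2 ^ i / 2) ((2 ^ i / 4 : ℕ) : ℤ)
  have e1 : {p : Pt | p + ((al i z : ℤ), (Dh : ℤ) * z.2.2) ∈ Rc (al i z) (2 * Dh) z.2.2} = Rc 0 (2 * Dh) 0 := by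
    ext p
    unfold Rc
    simp only [Set.mem_ofPred_eq, Prod.fst_add, Prod.snd_add]
    push_cast
    constructor
    · rintro ⟨a1, a2⟩
      constructor <;> linarith
    · rintro ⟨a1, a2⟩
      constructor <;> linarith
  rw [e1] at h2
  rw [h2]
  have e2 : ((((2 ^ i / 4 : ℕ) : ℤ), ((Dh / 2 : ℕ) : ℤ) + (2 ^ i / 8 : ℕ)) : Pt) + ((al i z : ℤ), (Dh : ℤ) * z.2.2) =
      (((al i z + 2 ^ i / 4 : ℕ) : ℤ), (Dh * z.2.2 + (Dh / 2 : ℕ) + (2 ^ i / 8 : ℕ))) := by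
    refine Prod.ext ?_ ?_
    · show ((2 ^ i / 4 : ℕ) : ℤ) + (al i z : ℤ) = ((al i z + 2 ^ i / 4 : ℕ) : ℤ)
      push_cast
      ring
    · show ((Dh / 2 : ℕ) : ℤ) + (2 ^ i / 8 : ℕ) + (Dh : ℤ) * z.2.2 = _
      ring
  rw [e2]
  congr 1
  · omega
  · ring

theorem k0_meas (i Dh : ℕ) : Measurable (k0 μ i Dh) := measurable_WR _ _ _ _

/-- The lucky event has the same probability for all the cells. -/
theorem prob_eq [IsProbabilityMeasure μ] (V : Win) (L : ℕ) (e C : ℝ) {i : ℕ} (hi : 3 ≤ i) (Dh : ℕ) (t : ℝ) (z : Ce) :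
    (law μ).real {η | Real.exp t ≤ kE μ V L e C i Dh z η} = (law μ).real {η | Real.exp t ≤ k0 μ i Dh η} := by
  have h1 : MeasurableSet {η : Env | Real.exp t ≤ k0 μ i Dh η} := measurableSet_le measurable_const (k0_meas i Dh)
  rw [← real_sh (μ := μ) ((al i z : ℤ), (Dh : ℤ) * z.2.2) h1]
  congr 1
  ext η
  show Real.exp t ≤ kE μ V L e C i Dh z η ↔ Real.exp t ≤ k0 μ i Dh (sh ((al i z : ℤ), (Dh : ℤ) * z.2.2) η)
  rw [kE_sh V L e C hi]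

/-- The kernel of the reference cell is at least the kernel of a tube. -/
theorem k0_ge {i Dh : ℕ} (hi : 3 ≤ i) {r : ℝ} (hr : 2 * r + 1 ≤ Dh) (hr0 : 0 ≤ r) (η : Env) :
    WR μ 0 (St r (((2 ^ i / 4 : ℕ) : ℤ), ((Dh / 2 : ℕ) : ℤ) + (2 ^ i / 8 : ℕ))) η
      (((2 ^ i / 4 : ℕ) : ℤ), ((Dh / 2 : ℕ) : ℤ) + (2 ^ i / 8 : ℕ)) (2 * (2 ^ i / 4)) ((2 ^ i / 4 : ℕ) : ℤ) ≤ k0 μ i Dh η := by
  obtain ⟨m, hm⟩ : ∃ m : ℕ, 2 ^ i = 8 * m := ⟨2 ^ (i - 3), by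
    have : (8 : ℕ) = 2 ^ 3 := by norm_num
    rw [this, ← pow_add]
    congr 1
    omega⟩
  have hb8 : 2 ^ i / 8 = m := by omega
  have hb4 : 2 ^ i / 4 = 2 * m := by omega
  have hb2 : 2 ^ i / 2 = 2 * (2 ^ i / 4) := by omega
  unfold k0
  rw [hb2]
  obtain ⟨t1, ht1⟩ : ∃ t1 : ℕ, t1 = 2 ^ i / 4 := ⟨_, rfl⟩
  obtain ⟨x, hx⟩ : ∃ x : ℤ, x = ((Dh / 2 : ℕ) : ℤ) + (2 ^ i / 8 : ℕ) := ⟨_, rfl⟩
  rw [← ht1, ← hx]
  have e1 : ∀ R : Set Pt, WR μ 0 R η (((t1 : ℕ) : ℤ), x) (2 * t1) ((t1 : ℕ) : ℤ) =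
      KP μ 0 0 (PR R) η t1 x (t1 + 2 * t1) (x + t1) := fun R => by
    rw [KP_eq_WR, add_sub_cancel_left]
  rw [e1, e1]
  refine Kc_mono_class _ _ _ _ _ _ fun S hS t ht => ?_
  have h1 : |2 * (((ps 0 t1 x S t : ℤ) : ℝ) - (x : ℝ)) - ((t : ℝ) - (t1 : ℝ))| ≤ 2 * r := by
    have := hS t ht
    unfold PR St at this
    simpa using this
  have h2 := abs_le.1 h1
  have hxR : (x : ℝ) = ((Dh / 2 : ℕ) : ℝ) + m := by
    rw [hx, hb8]
    push_cast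
    rw [cast_half]
  have ht1R : (t1 : ℝ) = 2 * m := by
    rw [ht1, hb4]
    push_cast
    ring
  have hd1 : (Dh : ℝ) ≤ 2 * ((Dh / 2 : ℕ) : ℝ) + 1 := by
    have : Dh ≤ 2 * (Dh / 2) + 1 := by omega
    exact_mod_cast this
  have hd2 : 2 * ((Dh / 2 : ℕ) : ℝ) ≤ Dh := by
    have : 2 * (Dh / 2) ≤ Dh := by omega
    exact_mod_cast this
  show (((t : ℤ), ps 0 t1 x S t) : Pt) ∈ Rc 0 (2 * Dh) 0
  unfold Rc
  simp only [Set.mem_ofPred_eq]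
  rw [hxR, ht1R] at h2
  constructor
  · have : (0 : ℝ) ≤ 2 * ((ps 0 t1 x S t : ℤ) : ℝ) - t := by linarith [h2.1]
    have h3 : (0 : ℤ) ≤ 2 * ps 0 t1 x S t - t := by exact_mod_cast this
    push_cast
    linarith
  · have : 2 * ((ps 0 t1 x S t : ℤ) : ℝ) - t < 2 * (Dh : ℝ) := by linarith [h2.2]
    have h3 : 2 * ps 0 t1 x S t - t < 2 * (Dh : ℤ) := by exact_mod_cast this
    push_cast
    linarith

variable [IsProbabilityMeasure μ]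

/-- Large partition functions are rare. -/
theorem V_big (hEM : Pool.Agent.W_7d29a1_h47.EM μ) (n : ℕ) (a : Pt) {u : ℝ} (hu : 0 < u) :
    (law μ).real {η | u * EE μ n < V μ 0 η a n} ≤ 1 / u := by
  have hms : MeasurableSet {η : Env | u * EE μ n < V μ 0 η 0 n} := measurableSet_lt measurable_const (measurable_V 0 n)
  have h0 : (law μ).real {η | u * EE μ n < V μ 0 η a n} = (law μ).real {η | u * EE μ n < V μ 0 η 0 n} := by
    rw [← real_sh (μ := μ) a hms]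
    congr 1
    ext η
    show u * EE μ n < V μ 0 η a n ↔ u * EE μ n < V μ 0 (sh a η) 0 n
    rw [V_sh, zero_add]
  rw [h0]
  have hE := EE_pos (μ := μ) n
  have hV : Integrable (fun η => V μ 0 η 0 n) (law μ) := (Sub_V (μ := μ) (s := 0) 0 n).integrable hEM
  have hI : Integrable (fun η => max (-V μ 0 η 0 n) 0) (law μ) :=
    ((Sub_V (μ := μ) (s := 0) 0 n).neg.max (Sub.const 0)).integrable hEM
  have hJ : Integrable (fun η => max (V μ 0 η 0 n) 0) (law μ) :=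
    ((Sub_V (μ := μ) (s := 0) 0 n).max (Sub.const 0)).integrable hEM
  have h1 := mul_meas_ge_le_integral_of_nonneg (μ := law μ) (f := fun η => max (V μ 0 η 0 n) 0)
    (ae_of_all _ fun η => le_max_right _ _) hJ (u * EE μ n)
  have h2 : (law μ).real {η | u * EE μ n < V μ 0 η 0 n} ≤
      (law μ).real {η | u * EE μ n ≤ max (V μ 0 η 0 n) 0} := by
    refine measureReal_mono (fun η hη => ?_) (measure_ne_top _ _)
    rw [Set.mem_ofPred_eq] at hη ⊢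
    exact le_max_of_le_left hη.le
  have h3 := Pool.Agent.W_7d29a1_SR.mean_neg_V (μ := μ) hEM (le_refl n)
  have h3' := integral_V_nonpos (μ := μ) hEM 0 n
  have h3'' : ∫ η, max (V μ 0 η 0 n) 0 ∂(law μ) ≤ EE μ n := by
    have h7 : ∀ η, max (V μ 0 η 0 n) 0 = V μ 0 η 0 n + max (-V μ 0 η 0 n) 0 := by
      intro η
      rcases le_total 0 (V μ 0 η 0 n) with h0 | h0
      · rw [max_eq_left h0, max_eq_right (by linarith)]
        ring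
      · rw [max_eq_right h0, max_eq_left (by linarith)]
        ring
    have h8 : ∫ η, max (V μ 0 η 0 n) 0 ∂(law μ) = ∫ η, V μ 0 η 0 n ∂(law μ) + ∫ η, max (-V μ 0 η 0 n) 0 ∂(law μ) := by
      rw [← integral_add hV hI]
      exact integral_congr_ae (ae_of_all _ h7)
    linarith
  have h4 : u * EE μ n * (law μ).real {η | u * EE μ n ≤ max (V μ 0 η 0 n) 0} ≤ EE μ n := by
    refine le_trans ?_ h3''
    simpa [Measure.real] using h1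
  rw [le_div_iff₀ hu]
  have h5 : u * (law μ).real {η | u * EE μ n ≤ max (V μ 0 η 0 n) 0} ≤ 1 := by
    by_contra hc
    rw [not_le] at hc
    have := mul_lt_mul_of_pos_right hc hE
    linarith
  have h6 := mul_le_mul_of_nonneg_left h2 hu.le
  linarith

/-- **The probability of a bad cell.** -/
theorem GC_prob {C R A A' q : ℝ} {i Dh : ℕ} (hi : 3 ≤ i)
    (hleg : ∀ (a : Pt) (k : ℤ), |2 * (k : ℝ) - (2 ^ i / 4 : ℕ)| ≤ 2 * w4 μ C i + Dh + 1 → (law μ).real (Lg μ R A (2 ^ i / 4) a k)ᶜ ≤ q)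
    (hV : ∀ a : Pt, (law μ).real {η | A' < V μ 0 η a (2 ^ i)} ≤ q) (α : ℕ) (q' : ℤ) :
    (law μ).real (GC μ C R A A' i Dh α q')ᶜ ≤ 6 * q := by
  obtain ⟨m, hm⟩ : ∃ m : ℕ, 2 ^ i = 8 * m := ⟨2 ^ (i - 3), by
    have : (8 : ℕ) = 2 ^ 3 := by norm_num
    rw [this, ← pow_add]
    congr 1
    omega⟩
  have hmZ : (2 : ℤ) ^ i = 8 * m := by exact_mod_cast hm
  have hb8 : 2 ^ i / 8 = m := by omega
  have hb4 : 2 ^ i / 4 = 2 * m := by omega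
  have hb2Z : (2 : ℤ) ^ i / 2 = 4 * m := by omega
  have hd1 : (Dh : ℝ) ≤ 2 * ((Dh / 2 : ℕ) : ℝ) + 1 := by
    have : Dh ≤ 2 * (Dh / 2) + 1 := by omega
    exact_mod_cast this
  have hd2 : 2 * ((Dh / 2 : ℕ) : ℝ) ≤ Dh := by
    have : 2 * (Dh / 2) ≤ Dh := by omega
    exact_mod_cast this
  have hd0 : (0 : ℝ) ≤ Dh := Nat.cast_nonneg _
  have hw0 : (0 : ℝ) ≤ w4 μ C i := Nat.cast_nonneg _
  have k1 : |2 * ((bE i Dh q' - (Dh : ℤ) * q' : ℤ) : ℝ) - (2 ^ i / 4 : ℕ)| ≤ 2 * w4 μ C i + Dh + 1 := by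
    unfold bE
    rw [hb8, hb4]
    push_cast
    rw [cast_half, abs_le]
    constructor <;> linarith
  have k2 : |2 * ((bE i Dh q' - (Dh : ℤ) * (q' + 1) : ℤ) : ℝ) - (2 ^ i / 4 : ℕ)| ≤ 2 * w4 μ C i + Dh + 1 := by
    unfold bE
    rw [hb8, hb4]
    push_cast
    rw [cast_half, abs_le]
    constructor <;> linarith
  have k3 : |2 * ((vM μ C i Dh q' - fE i Dh q' : ℤ) : ℝ) - (2 ^ i / 4 : ℕ)| ≤ 2 * w4 μ C i + Dh + 1 := by
    unfold vM fE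
    rw [hb8, hb4, hb2Z]
    push_cast
    rw [cast_half, abs_le]
    constructor <;> linarith
  have k4 : |2 * ((vP μ C i Dh q' - fE i Dh q' : ℤ) : ℝ) - (2 ^ i / 4 : ℕ)| ≤ 2 * w4 μ C i + Dh + 1 := by
    unfold vP fE
    rw [hb8, hb4, hb2Z]
    push_cast
    rw [cast_half, abs_le]
    constructor <;> linarith
  obtain ⟨E1, hE1⟩ : ∃ E1, E1 = Lg μ R A (2 ^ i / 4) ((α : ℤ), (Dh : ℤ) * q') (bE i Dh q' - (Dh : ℤ) * q') := ⟨_, rfl⟩
  obtain ⟨E2, hE2⟩ : ∃ E2, E2 = Lg μ R A (2 ^ i / 4) ((α : ℤ), (Dh : ℤ) * (q' + 1)) (bE i Dh q' - (Dh : ℤ) * (q' + 1)) := ⟨_, rfl⟩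
  obtain ⟨E3, hE3⟩ : ∃ E3, E3 = Lg μ R A (2 ^ i / 4) (((α + 3 * 2 ^ i / 4 : ℕ) : ℤ), fE i Dh q') (vM μ C i Dh q' - fE i Dh q') := ⟨_, rfl⟩
  obtain ⟨E4, hE4⟩ : ∃ E4, E4 = Lg μ R A (2 ^ i / 4) (((α + 3 * 2 ^ i / 4 : ℕ) : ℤ), fE i Dh q') (vP μ C i Dh q' - fE i Dh q') := ⟨_, rfl⟩
  obtain ⟨E5, hE5⟩ : ∃ E5 : Set Env, E5 = {η | V μ 0 η ((α : ℤ), (Dh : ℤ) * q') (2 ^ i) ≤ A'} := ⟨_, rfl⟩
  obtain ⟨E6, hE6⟩ : ∃ E6 : Set Env, E6 = {η | V μ 0 η ((α : ℤ), (Dh : ℤ) * (q' + 1)) (2 ^ i) ≤ A'} := ⟨_, rfl⟩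
  have p1 : (law μ).real E1ᶜ ≤ q := by rw [hE1]; exact hleg _ _ k1
  have p2 : (law μ).real E2ᶜ ≤ q := by rw [hE2]; exact hleg _ _ k2
  have p3 : (law μ).real E3ᶜ ≤ q := by rw [hE3]; exact hleg _ _ k3
  have p4 : (law μ).real E4ᶜ ≤ q := by rw [hE4]; exact hleg _ _ k4
  have p5 : (law μ).real E5ᶜ ≤ q := by
    rw [hE5]
    refine le_trans (measureReal_mono (fun η hη => ?_) (measure_ne_top _ _)) (hV ((α : ℤ), (Dh : ℤ) * q'))
    rw [Set.mem_compl_iff, Set.mem_ofPred_eq, not_le] at hη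
    exact hη
  have p6 : (law μ).real E6ᶜ ≤ q := by
    rw [hE6]
    refine le_trans (measureReal_mono (fun η hη => ?_) (measure_ne_top _ _)) (hV ((α : ℤ), (Dh : ℤ) * (q' + 1)))
    rw [Set.mem_compl_iff, Set.mem_ofPred_eq, not_le] at hη
    exact hη
  have hGC : GC μ C R A A' i Dh α q' = (E1 ∩ E2) ∩ (E3 ∩ E4) ∩ (E5 ∩ E6) := by
    rw [hE1, hE2, hE3, hE4, hE5, hE6]
    rfl
  rw [hGC, Set.compl_inter, Set.compl_inter, Set.compl_inter, Set.compl_inter, Set.compl_inter]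
  have u1 := measureReal_union_le (μ := law μ) ((E1ᶜ ∪ E2ᶜ) ∪ (E3ᶜ ∪ E4ᶜ)) (E5ᶜ ∪ E6ᶜ)
  have u2 := measureReal_union_le (μ := law μ) (E1ᶜ ∪ E2ᶜ) (E3ᶜ ∪ E4ᶜ)
  have u3 := measureReal_union_le (μ := law μ) E1ᶜ E2ᶜ
  have u4 := measureReal_union_le (μ := law μ) E3ᶜ E4ᶜ
  have u5 := measureReal_union_le (μ := law μ) E5ᶜ E6ᶜ
  linarith

omit [IsProbabilityMeasure μ] in
open scoped Classical in
/-- The number of the cells. -/
theorem card_Zc {V : Win} {i D : ℕ} (hD : 0 < D) (hsg : V.sg = 1 ∨ V.sg = -1) (hw : 1 ≤ V.w) :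
    (#(Zc V i D) : ℝ) ≤ V.Iv.card * (2 ^ (V.a - i) : ℕ) * ((V.w : ℝ) / D + 1) := by
  have hDZ : (0 : ℤ) < D := by exact_mod_cast hD
  have hDR : (0 : ℝ) < D := by exact_mod_cast hD
  obtain ⟨Q, hQ⟩ : ∃ Q : ℕ → ℕ → Finset ℤ, Q = fun T k => (Icc (-(2 * (V.N : ℤ) + |V.Y| + V.w)) (2 * (V.N : ℤ) + |V.Y| + V.w)).filter
    fun q => V.Y < V.sg * ((D : ℤ) * q - ((T + k * 2 ^ i : ℕ) : ℤ)) ∧ V.sg * ((D : ℤ) * q - ((T + k * 2 ^ i : ℕ) : ℤ)) ≤ V.Y + V.w := ⟨_, rfl⟩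
  have hsub : Zc V i D ⊆ (V.Iv.sigma fun T => (range (2 ^ (V.a - i))).sigma fun k => Q T k).image
      (fun p => ((p.1, p.2.1, p.2.2) : Ce)) := by
    rintro ⟨T, k, q⟩ hz
    unfold Zc at hz
    rw [mem_filter, mem_product, mem_product] at hz
    obtain ⟨⟨h1, h2, h3⟩, h4⟩ := hz
    rw [mem_image]
    refine ⟨⟨T, k, q⟩, ?_, rfl⟩
    rw [mem_sigma, mem_sigma]
    refine ⟨h1, h2, ?_⟩
    rw [hQ]
    refine mem_filter.2 ⟨h3, ?_⟩
    exact h4 ((D : ℤ) * q) le_rfl (by rw [mul_add, mul_one]; linarith)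
  have hQc : ∀ T k, ((Q T k).card : ℝ) ≤ (V.w : ℝ) / D + 1 := by
    intro T k
    rcases (Q T k).eq_empty_or_nonempty with h0 | h0
    · rw [h0, card_empty]
      have : (0 : ℝ) ≤ V.w := by exact_mod_cast (by omega : (0 : ℤ) ≤ V.w)
      have := div_nonneg this hDR.le
      push_cast
      linarith
    · obtain ⟨q0, hq0, hmin⟩ := exists_min_image (Q T k) id h0
      have hsub2 : Q T k ⊆ Icc q0 (q0 + V.w / D) := by
        intro q hq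
        have h1 := hmin q hq
        simp only [id] at h1
        rw [mem_Icc]
        refine ⟨h1, ?_⟩
        have h2 : (D : ℤ) * (q - q0) ≤ V.w := by
          rw [hQ] at hq hq0
          have a1 := (mem_filter.1 hq).2
          have a2 := (mem_filter.1 hq0).2
          rw [mul_sub]
          rcases hsg with h | h
          · rw [h] at a1 a2
            linarith [a1.2, a2.1]
          · rw [h] at a1 a2
            linarith [a1.1, a2.2]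
        have h3 : q - q0 ≤ V.w / D := by
          rw [Int.le_ediv_iff_mul_le hDZ]
          linarith
        linarith
      have h1 := card_le_card hsub2
      rw [Int.card_Icc] at h1
      have h2 : ((V.w / D : ℤ) : ℝ) ≤ (V.w : ℝ) / D := by
        have : (D : ℤ) * (V.w / D) ≤ V.w := Int.mul_ediv_self_le hDZ.ne'
        have h' : (D : ℝ) * ((V.w / D : ℤ) : ℝ) ≤ V.w := by exact_mod_cast this
        rw [le_div_iff₀ hDR]
        linarith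
      have h3 : (0 : ℤ) ≤ V.w / D := Int.ediv_nonneg (by omega) hDZ.le
      have h4 : (((q0 + V.w / D + 1 - q0).toNat : ℕ) : ℝ) = ((V.w / D : ℤ) : ℝ) + 1 := by
        have : ((q0 + V.w / D + 1 - q0).toNat : ℤ) = V.w / D + 1 := by omega
        have h' : (((q0 + V.w / D + 1 - q0).toNat : ℤ) : ℝ) = ((V.w / D + 1 : ℤ) : ℝ) := by rw [this]
        push_cast at h'
        exact h'
      have h5 : ((Q T k).card : ℝ) ≤ ((q0 + V.w / D + 1 - q0).toNat : ℕ) := by exact_mod_cast h1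
      rw [h4] at h5
      linarith
  have h1 : (#(Zc V i D) : ℝ) ≤ ∑ T ∈ V.Iv, ∑ k ∈ range (2 ^ (V.a - i)), ((Q T k).card : ℝ) := by
    have h2 := (card_le_card hsub).trans card_image_le
    rw [card_sigma] at h2
    simp only [card_sigma] at h2
    exact_mod_cast h2
  refine h1.trans ?_
  calc ∑ T ∈ V.Iv, ∑ k ∈ range (2 ^ (V.a - i)), ((Q T k).card : ℝ)
      ≤ ∑ T ∈ V.Iv, ∑ k ∈ range (2 ^ (V.a - i)), ((V.w : ℝ) / D + 1) := sum_le_sum fun T _ => sum_le_sum fun k _ => hQc T k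
    _ = V.Iv.card * (2 ^ (V.a - i) : ℕ) * ((V.w : ℝ) / D + 1) := by
        rw [sum_const, sum_const, card_range, nsmul_eq_mul, nsmul_eq_mul]
        ring

end

end Pool.Agent.W_7d29a1_ZE
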