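import Pool.Agent.W_7d29a1_ZE.CellN
import Pool.Agent.W_7d29a1_ZE.CellP

/-!
STORM Z, SECOND STOREY (MP_7d29a1_pr), piece Cell: the gain of all the cells, the quarter of a scale. (helper37)
-/

namespace Pool.Agent.W_7d29a1_ZE

open MeasureTheory ProbabilityTheory Filter Topology Finset
open Pool.Agent.W_7d29a1_F Pool.Agent.W_7d29a1_X Pool.Agent.W_7d29a1_Z Pool.Agent.W_7d29a1_Z37
open Pool.Agent.W_7d29a1_Z15 (Cls kC rC AdC NTc Own PC aC wC ZC rC_pos)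
open Pool.Agent.W_7d29a1_SR (St)

noncomputable section

variable {μ : Measure ℝ}

/-- **The gain of all the cells.** -/
theorem gainE [IsProbabilityMeasure μ] {V : Win} {L : ℕ} (hV : V.Ok L) {e C R A A' : ℝ} {i i₁ Dh : ℕ} (hi₁ : i₁ ≤ V.a)
    (hi : i ≤ i₁) (hia : i < V.a) (hi3 : 3 ≤ i) (hDh : 0 < Dh) (hC : 0 < C) (hR : 0 ≤ R)
    (hwl : Dh + R * wd' μ (2 ^ i / 4) < (L : ℝ) ^ (2 * e) * wd' μ (2 ^ i))
    {D : ℕ → ℕ} (hD : D i = 2 * Dh) {B : ℕ → ℕ → ℤ → Set Env} (hB : ∀ α q, B i α q = (GC μ C R A A' i Dh α q)ᶜ) {η : Env}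
    (hreg : ∀ T ∈ V.Iv, ∀ u : ℕ → ℤ, |u T| ≤ 2 * L →
      ∑ k ∈ range (2 ^ (V.a - i)), |2 * ((u (T + (k + 1) * 2 ^ i) : ℝ) - u (T + k * 2 ^ i)) - (2 ^ i : ℕ)| ≤
        2 * (C * wd' μ (2 ^ i) * (2 ^ (V.a - i) : ℕ)) → ((irr B D V.a i T u η).card : ℝ) < ((2 ^ (V.a - i) : ℕ) : ℝ) / 4)
    {t p : ℝ} (hp : 0 < p) (hpr : ∀ z ∈ Zc V i (2 * Dh), (law μ).real {η | Real.exp t ≤ (ce μ V L e C i Dh z).K μ 0 0 η} = p)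
    (ht : 2 * A + A' + 2 ≤ t) {S : Finset ℕ} (hS : S ∈ PC V.N V.y (InL V.sg V.J V.Y) (clE μ V L e C i i₁) (Br V)) {M : ℝ}
    (hM : 0 < M) :
    ((V.Iv.card * (2 ^ (V.a - i) / 2) : ℕ) : ℝ) * min (t - (2 * A + A' + 2)) M ≤ ∑ z ∈ Zc V i (2 * Dh),
      min (Real.log (W_7d29a1_Z59.rsh t (kE μ V L e C i Dh) (fun S => rE μ V L e C i i₁ S) (oE μ V L e C i i₁ Dh) S z η) -
        Real.log (rE μ V L e C i i₁ S η)) M := by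
  classical
  unfold PC at hS
  rw [mem_filter] at hS
  obtain ⟨-, -, hInL, hAd⟩ := hS
  have hCd := cdat (μ := μ) hV (e := e) (C := C) hi₁ hi hDh hp hpr
  have hrE : 0 < rE μ V L e C i i₁ S η := rC_pos (own_L V) (fun b hb => (Br_ok hV b hb).1) hInL hAd η
  have hR' : 0 < rR μ 0 0 0 (PV V) (PhV μ V L e C i i₁) (Br V) (denV μ V) 0 0 S η := by
    rw [← rE_eq]
    exact hrE
  have h1 := hCd.gain hM ht hR' (n := V.Iv.card * (2 ^ (V.a - i) / 2)) (fun b hb S' _ _ hCR => by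
    have hpos : 0 ≤ ps 0 0 0 S b.1 ∧ ps 0 0 0 S b.1 ≤ b.1 := ps_range le_rfl le_rfl S (Nat.zero_le _)
    exact card_reg hV hi₁ hi hia hi3 hDh hC hR hwl hD hB hreg hb hpos.1 hpos.2 hCR)
  refine h1.trans (le_of_eq (sum_congr rfl fun z _ => ?_))
  unfold W_7d29a1_Z59.rsh kE oE
  dsimp only
  rw [rE_eq]

/-- The quarter of a scale. -/
theorem quarter {i : ℕ} (hi : 2 ≤ i) : 2 ^ i / 4 = 2 ^ (i - 2) ∧ 1 ≤ 2 ^ i / 4 ∧ 2 ^ i / 4 ≤ 2 ^ i ∧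
    ((2 ^ i : ℕ) : ℝ) / ((2 ^ i / 4 : ℕ) : ℝ) = 4 := by
  have h1 : 2 ^ i = 4 * 2 ^ (i - 2) := by
    have : (4 : ℕ) = 2 ^ 2 := by norm_num
    rw [this, ← pow_add]
    congr 1
    omega
  have h2 : 2 ^ i / 4 = 2 ^ (i - 2) := by
    rw [h1]
    exact Nat.mul_div_cancel_left _ (by norm_num)
  have h3 : 0 < 2 ^ (i - 2) := Nat.pos_of_ne_zero (by positivity)
  refine ⟨h2, by rw [h2]; exact h3, Nat.div_le_self _ _, ?_⟩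
  rw [h2, h1]
  push_cast
  field_simp

theorem quarter_wd {a K : ℝ} (ha : 0 < a) (hK : 1 ≤ K) (hw : ∀ m n : ℕ, 1 ≤ m → m ≤ n →
    wd' μ m ≤ K * wd' μ n ∧ K⁻¹ * ((n : ℝ) / m) ^ a * wd' μ m ≤ wd' μ n ∧ wd' μ n ≤ K * ((n : ℝ) / m) ^ (1 - a) * wd' μ m)
    {i : ℕ} (hi : 2 ≤ i) : wd' μ (2 ^ i / 4) ≤ K * wd' μ (2 ^ i) ∧ wd' μ (2 ^ i) ≤ 4 * K * wd' μ (2 ^ i / 4) := by
  obtain ⟨-, h1, h2, h3⟩ := quarter hi
  obtain ⟨g1, -, g3⟩ := hw _ _ h1 h2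
  refine ⟨g1, g3.trans ?_⟩
  have hw0 : 0 ≤ wd' μ (2 ^ i / 4) := zero_le_one.trans (le_max_left _ _)
  refine mul_le_mul_of_nonneg_right ?_ hw0
  rw [h3]
  have h4 : (4 : ℝ) ^ (1 - a) ≤ (4 : ℝ) ^ (1 : ℝ) := Real.rpow_le_rpow_of_exponent_le (by norm_num) (by linarith)
  rw [Real.rpow_one] at h4
  nlinarith

theorem quarter_EE {K : ℝ} (hE : ∀ m n : ℕ, 1 ≤ m → m ≤ n → EE' μ n ≤ K * Real.sqrt ((n : ℝ) / m) * EE' μ m)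
    {i : ℕ} (hi : 2 ≤ i) : EE' μ (2 ^ i) ≤ 2 * K * EE' μ (2 ^ i / 4) := by
  obtain ⟨-, h1, h2, h3⟩ := quarter hi
  have g3 := hE _ _ h1 h2
  rw [h3] at g3
  have h4 : Real.sqrt 4 = 2 := by
    rw [show (4 : ℝ) = 2 ^ 2 by norm_num]
    exact Real.sqrt_sq (by norm_num)
  rw [h4] at g3
  linarith

end

end Pool.Agent.W_7d29a1_ZE
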