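import Pool.Agent.W_7d29a1_Z15.NTc

/-!
STORM Z, SECOND STOREY (MP_7d29a1_pr): near ties of the natural size (`q = 1 / E`). Definitions.

A WINDOW `V` consists of intervals of pure rows `Ioc T (T + 2 ^ a)`, `T ∈ Iv`, and a strip of width `w` behind the line `Y` (as in
`Rr`). At the scale `h = 2 ^ i` the interval `T` has `2 ^ (a - i)` LAYERS `[T + k h, T + (k + 1) h]`; the NODES of a path are its
positions at the times `T + k h`. The class `Cls i₀ i₁` of competitors: all rows of the window in the strip, and the conditions `Nod`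
on the nodes at all the scales `2 ^ i`, `i₀ ≤ i ≤ i₁`. Fewer conditions if `i₀` grows.
-/

namespace Pool.Agent.W_7d29a1_ZE

open MeasureTheory ProbabilityTheory Filter Topology Finset
open Pool.Agent.W_7d29a1_F Pool.Agent.W_7d29a1_X Pool.Agent.W_7d29a1_Z
open Pool.Agent.W_7d29a1_Z15 (Cls kC rC AdC NTc)
open scoped ENNReal

noncomputable section

/-- A window (with the system `(N, y)` and the largest duration `H` of the brackets). -/
structure Win where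
  N : ℕ
  y : ℤ
  H : ℕ
  a : ℕ
  Iv : Finset ℕ
  sg : ℤ
  Y : ℤ
  w : ℤ

/-- The rows of the window. -/
def Win.J (V : Win) : Finset ℕ := V.Iv.biUnion fun T => Ioc T (T + 2 ^ V.a)

/-- The number of rows of the window. -/
def Win.nJ (V : Win) : ℕ := V.Iv.card * 2 ^ V.a

structure Win.Ok (V : Win) (L : ℕ) : Prop where
  NL : V.N ≤ L
  y0 : 0 ≤ V.y
  yN : V.y ≤ V.N
  ne : V.Iv.Nonempty
  le : ∀ T ∈ V.Iv, T + 2 ^ V.a < V.N
  sep : ∀ T ∈ V.Iv, ∀ T' ∈ V.Iv, T ≠ T' → T + 2 ^ V.a ≤ T' ∨ T' + 2 ^ V.a ≤ T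
  sgn : V.sg = 1 ∨ V.sg = -1
  w1 : 1 ≤ V.w
  wL : V.w ≤ L

/-- The brackets: pairs of times around the window, at most `H` apart. -/
def Br (V : Win) : Finset (ℕ × ℕ) :=
  ((range (V.N + 1)) ×ˢ (range (V.N + 1))).filter fun b => b.2 ≤ b.1 + V.H ∧ ∀ i ∈ V.J, b.1 < i ∧ i < b.2

/-- The conditions on the nodes `u (T + k h)` at the scale `h = 2 ^ i` in the interval `T`. -/
structure Nod (μ : Measure ℝ) (V : Win) (L : ℕ) (e C : ℝ) (i T : ℕ) (u : ℕ → ℤ) : Prop where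
  step : ∀ k < 2 ^ (V.a - i), |2 * ((u (T + (k + 1) * 2 ^ i) : ℝ) - u (T + k * 2 ^ i)) - (2 ^ i : ℕ)| ≤
    2 * ((L : ℝ) ^ e * wd' μ (2 ^ i))
  tv : ∑ k ∈ range (2 ^ (V.a - i)), |2 * ((u (T + (k + 1) * 2 ^ i) : ℝ) - u (T + k * 2 ^ i)) - (2 ^ i : ℕ)| ≤
    2 * (C * wd' μ (2 ^ i) * (2 ^ (V.a - i) : ℕ))
  wall : ∀ k ≤ 2 ^ (V.a - i),
    (V.Y : ℝ) + 2 * ((L : ℝ) ^ (2 * e) * wd' μ (2 ^ i)) ≤
      V.sg * (2 * (u (T + k * 2 ^ i) : ℝ) - (T + k * 2 ^ i : ℕ)) ∧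
    V.sg * (2 * (u (T + k * 2 ^ i) : ℝ) - (T + k * 2 ^ i : ℕ)) ≤
      V.Y + V.w - 2 * ((L : ℝ) ^ (2 * e) * wd' μ (2 ^ i))

/-- The class of the competitors (start time, start position, end time, piece). -/
def clE (μ : Measure ℝ) (V : Win) (L : ℕ) (e C : ℝ) (i₀ i₁ : ℕ) : Cls := fun a x b g =>
  Reg (Rr V.sg V.J V.Y V.w) 0 a x b g ∧ ∀ i, i₀ ≤ i → i ≤ i₁ → ∀ T ∈ V.Iv, Nod μ V L e C i T (ps 0 a x g)

/-- The class of the pieces left of the line. -/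
def clL (V : Win) : Cls := fun a x b g => Reg (Lr V.sg V.J V.Y) 0 a x b g

/-- The class `C` with the further condition `Φ`. -/
def cAnd (C Φ : Cls) : Cls := fun a x b g => C a x b g ∧ Φ a x b g

/-- The ratio `r_S`: the sum over the brackets of the kernel of the class divided by the kernel left of the line. -/
def rE (μ : Measure ℝ) (V : Win) (L : ℕ) (e C : ℝ) (i₀ i₁ : ℕ) (S : Finset ℕ) (η : Env) : ℝ :=
  rC μ (clE μ V L e C i₀ i₁) (clL V) (Br V) S η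

/-- The part of the ratio carried by the competitors with the further condition `Φ`. -/
def rP (μ : Measure ℝ) (V : Win) (L : ℕ) (e C : ℝ) (i₀ i₁ : ℕ) (Φ : Cls) (S : Finset ℕ) (η : Env) : ℝ :=
  rC μ (cAnd (clE μ V L e C i₀ i₁) Φ) (clL V) (Br V) S η

/-- NEAR TIE of the depth `M` for the class. -/
def NTE (μ : Measure ℝ) (V : Win) (L : ℕ) (e C : ℝ) (i₀ i₁ : ℕ) (M : ℝ) (η : Env) (S : Finset ℕ) : Prop :=
  InL V.sg V.J V.Y S ∧ NTc μ (clE μ V L e C i₀ i₁) (clL V) (Br V) M η S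

/-! ### Cells -/

/-- The columns: the positions `x` at the time `t` with `D q ≤ 2 x - (t - α) < D (q + 1)`. -/
def col (α D : ℕ) (q : ℤ) (t : ℕ) : Finset ℤ :=
  Ico (((D : ℤ) * q + ((t : ℤ) - α) + 1) / 2) (((D : ℤ) * (q + 1) + ((t : ℤ) - α) + 1) / 2)

theorem mem_col {α D : ℕ} {q : ℤ} {t : ℕ} {x : ℤ} :
    x ∈ col α D q t ↔ (D : ℤ) * q ≤ 2 * x - ((t : ℤ) - α) ∧ 2 * x - ((t : ℤ) - α) < (D : ℤ) * (q + 1) := by
  unfold col
  rw [mem_Ico]
  generalize (D : ℤ) * q = A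
  generalize (D : ℤ) * (q + 1) = B
  omega

/-- The rows of the cells of the layer `[α, α + h]`: the middle half. -/
def mid (α h : ℕ) : Finset ℕ := Ioc (α + h / 4) (α + 3 * h / 4)

/-- The sites of the cell `q` of the layer. -/
def box (α h D : ℕ) (q : ℤ) : Finset Pt := sJ (mid α h) (col α D q)

/-- A cell: interval, layer, column. -/
abbrev Ce := ℕ × ℕ × ℤ

/-- The start of the layer `k` of the interval `T` at the scale `2 ^ i`. -/
def al (i : ℕ) (z : Ce) : ℕ := z.1 + z.2.1 * 2 ^ i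

/-- The sites of a cell at the scale `2 ^ i`. -/
def Tz (i D : ℕ) (z : Ce) : Finset Pt := box (al i z) (2 ^ i) D z.2.2

open scoped Classical in
/-- The cells of the window at the scale `2 ^ i`: all the columns inside the strip. -/
def Zc (V : Win) (i D : ℕ) : Finset Ce :=
  (V.Iv ×ˢ (range (2 ^ (V.a - i)) ×ˢ Icc (-(2 * (V.N : ℤ) + |V.Y| + V.w)) (2 * (V.N : ℤ) + |V.Y| + V.w))).filter fun z =>
    ∀ v : ℤ, (D : ℤ) * z.2.2 ≤ v → v < (D : ℤ) * (z.2.2 + 1) →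
      V.Y < V.sg * (v - (al i z : ℤ)) ∧ V.sg * (v - (al i z : ℤ)) ≤ V.Y + V.w

/-- The piece avoids the sites of the cell. -/
def AvZ (i D : ℕ) (z : Ce) : Cls := fun a x _ g => ∀ t ∈ mid (al i z) (2 ^ i), ps 0 a x g t ∉ col (al i z) D z.2.2 t

/-- The piece visits the cell. -/
def ToZ (i D : ℕ) (z : Ce) : Cls := fun a x b g => ¬ AvZ i D z a x b g

/-! ### One layer -/

/-- The kernel of one layer `[α, α + h]` from `u` to `u'`: all the rows in the strip. -/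
def kL (μ : Measure ℝ) (V : Win) (η : Env) (α h : ℕ) (u u' : ℤ) : ℝ :=
  Kc μ 0 0 (Reg (Rr V.sg V.J V.Y V.w) 0 α u (α + h)) η α u (α + h) u'

/-- The same with a further condition on the piece. -/
def kLP (μ : Measure ℝ) (V : Win) (Φ : ℤ → Finset ℕ → Prop) (η : Env) (α h : ℕ) (u u' : ℤ) : ℝ :=
  Kc μ 0 0 (fun g => Reg (Rr V.sg V.J V.Y V.w) 0 α u (α + h) g ∧ Φ u g) η α u (α + h) u'

/-- The pairs of nodes which occur in the class, at the start `α` of a layer of the scale `2 ^ i`. -/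
structure Pr (μ : Measure ℝ) (V : Win) (L : ℕ) (e : ℝ) (i α : ℕ) (u u' : ℤ) : Prop where
  step : |2 * ((u' : ℝ) - u) - (2 ^ i : ℕ)| ≤ 2 * ((L : ℝ) ^ e * wd' μ (2 ^ i))
  w0 : (V.Y : ℝ) + 2 * ((L : ℝ) ^ (2 * e) * wd' μ (2 ^ i)) ≤ V.sg * (2 * (u : ℝ) - (α : ℝ))
  w1 : V.sg * (2 * (u : ℝ) - (α : ℝ)) ≤ V.Y + V.w - 2 * ((L : ℝ) ^ (2 * e) * wd' μ (2 ^ i))
  w0' : (V.Y : ℝ) + 2 * ((L : ℝ) ^ (2 * e) * wd' μ (2 ^ i)) ≤ V.sg * (2 * (u' : ℝ) - ((α : ℝ) + (2 ^ i : ℕ)))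
  w1' : V.sg * (2 * (u' : ℝ) - ((α : ℝ) + (2 ^ i : ℕ))) ≤ V.Y + V.w - 2 * ((L : ℝ) ^ (2 * e) * wd' μ (2 ^ i))

end

end Pool.Agent.W_7d29a1_ZE
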