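import Pool.Agent.W_7d29a1_ZE.F0
import Pool.Agent.W_7d29a1_Z9.ConfD9

/-!
STORM Z, second storey (MP_7d29a1_pr): DETOURS. In every layer of the window, between any two nodes of the class, every column can be
avoided at the cost `L ^ ε₂ EE' h`, outside an event of the probability `exp (- L ^ c)`: the path goes to the level `Zt` beside the
column in the first quarter, follows it for the middle half, and goes to the second node in the last quarter. (helper9)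
-/

namespace Pool.Agent.W_7d29a1_ZE

open MeasureTheory ProbabilityTheory Filter Topology Finset
open Pool.Agent.W_7d29a1_F Pool.Agent.W_7d29a1_X Pool.Agent.W_7d29a1_Z
open Pool.Agent.W_7d29a1_G (HF2)
open Pool.Agent.W_7d29a1_SR (In wd)
open Pool.Agent.W_7d29a1_Z9 (Sb CBox WR_mul_le9 WR_mono_on9 WR_off9 ev_ge conf9)
open scoped ENNReal

noncomputable section

variable {μ : Measure ℝ}

/-- The absolute lower bound of the weights of the paths which avoid a column. -/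
def LowD (μ : Measure ℝ) (V : Win) (L : ℕ) (e : ℝ) (i D : ℕ) (ct : ℝ) (η : Env) : Prop :=
  ∀ T ∈ V.Iv, ∀ k < 2 ^ (V.a - i), ∀ u u' : ℤ, Pr μ V L e i (T + k * 2 ^ i) u u' → ∀ q : ℤ,
    Real.exp (-ct) ≤ kLP μ V (AvL (T + k * 2 ^ i) (2 ^ i) D q) η (T + k * 2 ^ i) (2 ^ i) u u'

/-- The region of the layer without the column. -/
def Rq (V : Win) (α h D : ℕ) (q : ℤ) : Set Pt :=
  {p : Pt | (V.Y < V.sg * (2 * p.2 - p.1) ∧ V.sg * (2 * p.2 - p.1) ≤ V.Y + V.w) ∧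
    ∀ t : ℕ, (t : ℤ) = p.1 → t ∈ mid α h → p.2 ∉ col α D q t}

theorem rq_le (V : Win) (η : Env) (α h D : ℕ) (q u u' : ℤ) :
    WR μ 0 (Rq V α h D q) η ((α : ℤ), u) h (u' - u) ≤ kLP μ V (AvL α h D q) η α h u u' := by
  have h1 := WR_eq_Kc (μ := μ) (s := 0) (Rq V α h D q) η α u h (u' - u)
  rw [add_sub_cancel] at h1
  rw [h1]
  unfold kLP
  refine Kc_mono_cl (fun g hg => ⟨fun t ht hJ => (hg t ht).1, fun t ht => ?_⟩) _ _ _ _ _
  have h2 := mid_sub ht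
  exact (hg t (mem_Ioc.2 h2)).2 t rfl ht

theorem kL_le (V : Win) (η : Env) (α h : ℕ) (u u' : ℤ) : kL μ V η α h u u' ≤ W μ 0 η ((α : ℤ), u) h (u' - u) := by
  have h1 := WR_eq_Kc (μ := μ) (s := 0) (Rr V.sg V.J V.Y V.w) η α u h (u' - u)
  rw [add_sub_cancel] at h1
  unfold kL
  rw [← h1]
  exact WR_mono_on9 (μ := μ) (s := 0) η _ h _ fun p _ _ _ => Set.mem_univ p

theorem kLP_le_kL (V : Win) (Φ : ℤ → Finset ℕ → Prop) (η : Env) (α h : ℕ) (u u' : ℤ) :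
    kLP μ V Φ η α h u u' ≤ kL μ V η α h u u' := by
  unfold kLP kL
  exact Kc_mono_cl (fun g hg => hg.1) _ _ _ _ _

/-- THE DETERMINISTIC PART: three confined legs. -/
theorem det_legs {V : Win} {L i D r : ℕ} {e A C₇ : ℝ} {η : Env} {s₀ : ℤ} (hr : 2 ^ i = 4 * r) (hr1 : 1 ≤ r) {α : ℕ}
    (hαL : α + 2 ^ i ≤ L) {u u' q : ℤ} (hp : Pr μ V L e i α u u') (hu : |u - s₀| + (2 ^ i : ℕ) ≤ 2 * L) (hsg : V.sg = 1 ∨ V.sg = -1)
    (hC₇ : 0 ≤ C₇) {Dv : ℝ} {B : ℕ} (hB : C₇ * wd' μ (2 ^ i) + 2 ≤ B)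
    (hDv : 2 * ((L : ℝ) ^ e * wd' μ (2 ^ i)) + D + 2 * B ≤ Dv)
    (hT : C₇ * wd' μ (2 ^ i) + 2 * Dv + 2 < 2 * ((L : ℝ) ^ (2 * e) * wd' μ (2 ^ i)))
    (hleg : ∀ Dv' : ℝ, 0 ≤ Dv' → Dv' ≤ Dv → ∀ s m : ℕ, 2 ^ i ≤ 4 * m → 2 * m ≤ 2 ^ i → s + m ≤ L → ∀ x : ℤ,
      |x - s₀| + m ≤ 2 * L → ∀ y : ℤ, |2 * (y : ℝ) - m| ≤ Dv' + 2 →
        Real.exp (-A) ≤ WR μ 0 (Sb (C₇ * wd' μ (2 ^ i) + Dv') ((s : ℤ), x)) η ((s : ℤ), x) m y) :
    Real.exp (-(3 * A)) ≤ kLP μ V (AvL α (2 ^ i) D q) η α (2 ^ i) u u' := by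
  refine le_trans ?_ (rq_le V η α (2 ^ i) D q u u')
  have hw0 : 0 ≤ wd' μ (2 ^ i) := zero_le_one.trans (le_max_left _ _)
  have hW0 : 0 ≤ C₇ * wd' μ (2 ^ i) := mul_nonneg hC₇ hw0
  obtain ⟨G, hG⟩ : ∃ G : ℝ, G = C₇ * wd' μ (2 ^ i) := ⟨_, rfl⟩
  obtain ⟨F, hF⟩ : ∃ F : ℝ, F = 2 * ((L : ℝ) ^ e * wd' μ (2 ^ i)) := ⟨_, rfl⟩
  have hF0 : 0 ≤ F := by rw [hF]; positivity
  rw [← hG] at hB hT hW0
  rw [← hF] at hDv
  have hD0 : (0 : ℝ) ≤ D := Nat.cast_nonneg D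
  have hBR : (0 : ℝ) ≤ B := Nat.cast_nonneg B
  have hDv0 : 0 ≤ Dv := by linarith
  obtain ⟨hst, hw1, hw2, -, -⟩ := hp
  rw [← hF] at hst
  obtain ⟨F2, hF2⟩ : ∃ F2 : ℝ, F2 = 2 * ((L : ℝ) ^ (2 * e) * wd' μ (2 ^ i)) := ⟨_, rfl⟩
  rw [← hF2] at hw1 hw2 hT
  -- the level
  obtain ⟨Zt, hZ1, hZ2⟩ : ∃ Zt : ℤ, |Zt - 2 * u| ≤ (D : ℤ) + 2 * B ∧
      (Zt ≤ (D : ℤ) * q - B ∨ (D : ℤ) * (q + 1) + B ≤ Zt) := by
    have e0 : (D : ℤ) * (q + 1) = D * q + D := by ring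
    by_cases c1 : 2 * u ≤ (D : ℤ) * q - B
    · exact ⟨2 * u, by rw [sub_self, abs_zero]; positivity, Or.inl c1⟩
    · by_cases c2 : (D : ℤ) * (q + 1) + B ≤ 2 * u
      · exact ⟨2 * u, by rw [sub_self, abs_zero]; positivity, Or.inr c2⟩
      · refine ⟨(D : ℤ) * (q + 1) + B, ?_, Or.inr le_rfl⟩
        rw [abs_le]
        constructor <;> omega
  obtain ⟨v, hv⟩ : ∃ v : ℤ, v = (Zt + r + 1) / 2 := ⟨_, rfl⟩
  have hv1 : Zt ≤ 2 * v - r := by omega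
  have hv2 : 2 * v - r ≤ Zt + 1 := by omega
  have hv1R : (Zt : ℝ) ≤ 2 * v - r := by exact_mod_cast hv1
  have hv2R : 2 * (v : ℝ) - r ≤ Zt + 1 := by exact_mod_cast hv2
  have hZR : |(Zt : ℝ) - 2 * u| ≤ D + 2 * B := by exact_mod_cast hZ1
  rw [abs_le] at hZR
  have hdev : |2 * ((v : ℝ) - u) - r| ≤ D + 2 * B + 1 := by
    rw [abs_le]
    constructor <;> linarith [hZR.1, hZR.2]
  have hrR : ((2 ^ i : ℕ) : ℝ) = 4 * r := by
    rw [hr]
    push_cast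
    ring
  rw [hrR] at hst
  rw [abs_le] at hst hdev
  -- the three legs
  have l1 := hleg Dv hDv0 le_rfl α r (by omega) (by omega) (by omega) u (by omega) (v - u) (by
    push_cast
    rw [abs_le]
    constructor <;> linarith [hdev.1, hdev.2])
  have i1 : 0 ≤ v - u ∧ v - u ≤ r := by
    by_contra hcon
    rw [WR_off9 _ η _ hcon] at l1
    exact absurd l1 (not_le.2 (Real.exp_pos _))
  have l2 := hleg 0 le_rfl hDv0 (α + r) (2 * r) (by omega) (by omega) (by omega) v (by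
    have h5 : |v - s₀| ≤ |u - s₀| + |v - u| := by
      have := abs_add_le (u - s₀) (v - u)
      have e1 : u - s₀ + (v - u) = v - s₀ := by ring
      rwa [e1] at this
    rw [abs_of_nonneg i1.1] at h5
    omega) (r : ℤ) (by
    push_cast
    rw [abs_le]
    constructor <;> linarith)
  have l3 := hleg Dv hDv0 le_rfl (α + 3 * r) r (by omega) (by omega) (by omega) (v + r) (by
    have h5 : |v + r - s₀| ≤ |u - s₀| + |v + r - u| := by
      have := abs_add_le (u - s₀) (v + r - u)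
      have e1 : u - s₀ + (v + r - u) = v + r - s₀ := by ring
      rwa [e1] at this
    rw [abs_of_nonneg (show 0 ≤ v + r - u by omega)] at h5
    omega) (u' - (v + r)) (by
    push_cast
    rw [abs_le]
    constructor <;> linarith [hdev.1, hdev.2, hst.1, hst.2])
  -- the regions
  rw [← hG] at l1 l2 l3
  rw [add_zero] at l2
  have hw1' : (V.Y : ℝ) + F2 ≤ V.sg * (2 * (u : ℝ) - α) := hw1
  have hw2' : V.sg * (2 * (u : ℝ) - α) ≤ V.Y + V.w - F2 := hw2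
  -- a site at distance at most `Tt` from the start is in the strip
  have hstrip : ∀ p : Pt, |2 * ((p.2 : ℝ) - u) - ((p.1 : ℝ) - α)| ≤ G + 2 * Dv + 2 →
      V.Y < V.sg * (2 * p.2 - p.1) ∧ V.sg * (2 * p.2 - p.1) ≤ V.Y + V.w := by
    intro p hp'
    rw [abs_le] at hp'
    have hR : (V.Y : ℝ) < V.sg * (2 * (p.2 : ℝ) - p.1) ∧ V.sg * (2 * (p.2 : ℝ) - p.1) ≤ V.Y + V.w := by
      rcases hsg with h1 | h1
      · rw [h1] at hw1' hw2' ⊢
        push_cast at hw1' hw2' ⊢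
        rw [one_mul] at hw1' hw2' ⊢
        constructor <;> linarith [hp'.1, hp'.2]
      · rw [h1] at hw1' hw2' ⊢
        push_cast at hw1' hw2' ⊢
        rw [neg_one_mul] at hw1' hw2' ⊢
        constructor <;> linarith [hp'.1, hp'.2]
    exact ⟨by exact_mod_cast hR.1, by exact_mod_cast hR.2⟩
  have hmid : ∀ t : ℕ, t ∈ mid α (2 ^ i) → α + r < t ∧ t ≤ α + 3 * r := by
    intro t ht
    unfold mid at ht
    rw [mem_Ioc, hr] at ht
    have e1 : 4 * r / 4 = r := by omega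
    have e2 : 3 * (4 * r) / 4 = 3 * r := by omega
    rw [e1, e2] at ht
    exact ht
  have m1 : Real.exp (-A) ≤ WR μ 0 (Rq V α (2 ^ i) D q) η ((α : ℤ), u) r (v - u) := by
    refine l1.trans (WR_mono_on9 η _ r _ ?_)
    intro p hp' hp1 hp2
    have h6 : |2 * ((p.2 : ℝ) - (u : ℝ)) - ((p.1 : ℝ) - (((α : ℕ) : ℤ) : ℝ))| ≤ G + Dv := hp'
    rw [Int.cast_natCast] at h6
    refine ⟨hstrip p (by linarith), fun t ht htm => ?_⟩
    have h7 := hmid t htm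
    have h8 : p.1 ≤ (α : ℤ) + r := hp2
    omega
  have m2 : Real.exp (-A) ≤ WR μ 0 (Rq V α (2 ^ i) D q) η (((α : ℤ), u).1 + (r : ℤ), ((α : ℤ), u).2 + (v - u)) (2 * r) r := by
    have e4 : ((((α : ℤ), u) : Pt).1 + (r : ℤ), (((α : ℤ), u) : Pt).2 + (v - u)) = (((α + r : ℕ) : ℤ), v) := by
      refine Prod.ext ?_ ?_
      · show (α : ℤ) + r = ((α + r : ℕ) : ℤ)
        push_cast
        ring
      · show u + (v - u) = v
        ring
    rw [e4]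
    refine l2.trans (WR_mono_on9 η _ (2 * r) _ ?_)
    intro p hp' hp1 hp2
    have h6 : |2 * ((p.2 : ℝ) - (v : ℝ)) - ((p.1 : ℝ) - (((α + r : ℕ) : ℤ) : ℝ))| ≤ G := hp'
    push_cast at h6
    rw [abs_le] at h6
    refine ⟨hstrip p ?_, fun t ht htm hcol => ?_⟩
    · rw [abs_le]
      constructor <;> linarith [h6.1, h6.2, hdev.1, hdev.2]
    · rw [mem_col] at hcol
      obtain ⟨c1, c2⟩ := hcol
      have htR : (t : ℝ) = p.1 := by exact_mod_cast ht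
      have c1R : (D : ℝ) * q ≤ 2 * (p.2 : ℝ) - ((t : ℝ) - α) := by exact_mod_cast c1
      have c2R : 2 * (p.2 : ℝ) - ((t : ℝ) - α) < (D : ℝ) * (q + 1) := by exact_mod_cast c2
      rw [htR] at c1R c2R
      rcases hZ2 with h9 | h9
      · have h9R : (Zt : ℝ) ≤ (D : ℝ) * q - B := by exact_mod_cast h9
        linarith [h6.1, h6.2]
      · have h9R : (D : ℝ) * (q + 1) + B ≤ Zt := by exact_mod_cast h9
        linarith [h6.1, h6.2]
  have m3 : Real.exp (-A) ≤ WR μ 0 (Rq V α (2 ^ i) D q) η (((α : ℤ), u).1 + ((r + 2 * r : ℕ) : ℤ), ((α : ℤ), u).2 + (v - u + r)) r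
      (u' - (v + r)) := by
    have e4 : ((((α : ℤ), u) : Pt).1 + ((r + 2 * r : ℕ) : ℤ), (((α : ℤ), u) : Pt).2 + (v - u + r)) =
        (((α + 3 * r : ℕ) : ℤ), v + r) := by
      refine Prod.ext ?_ ?_
      · show (α : ℤ) + ((r + 2 * r : ℕ) : ℤ) = ((α + 3 * r : ℕ) : ℤ)
        push_cast
        ring
      · show u + (v - u + r) = v + r
        ring
    rw [e4]
    refine l3.trans (WR_mono_on9 η _ r _ ?_)
    intro p hp' hp1 hp2
    have h6 : |2 * ((p.2 : ℝ) - ((v + r : ℤ) : ℝ)) - ((p.1 : ℝ) - (((α + 3 * r : ℕ) : ℤ) : ℝ))| ≤ G + Dv := hp'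
    push_cast at h6
    rw [abs_le] at h6
    refine ⟨hstrip p ?_, fun t ht htm => ?_⟩
    · rw [abs_le]
      constructor <;> linarith [h6.1, h6.2, hdev.1, hdev.2]
    · have h7 := hmid t htm
      have h8 : ((α + 3 * r : ℕ) : ℤ) < p.1 := hp1
      push_cast at h8
      omega
  have j1 := WR_mul_le9 (μ := μ) (s := 0) (Rq V α (2 ^ i) D q) η ((α : ℤ), u) r (2 * r) (k := v - u) r i1.1 i1.2
  have j2 := WR_mul_le9 (μ := μ) (s := 0) (Rq V α (2 ^ i) D q) η ((α : ℤ), u) (r + 2 * r) r (k := v - u + r) (u' - (v + r))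
    (by omega) (by push_cast; omega)
  have e5 : r + 2 * r + r = 2 ^ i := by omega
  have e6 : v - u + r + (u' - (v + r)) = u' - u := by ring
  rw [e5, e6] at j2
  refine le_trans ?_ j2
  have e7 : Real.exp (-(3 * A)) = (Real.exp (-A) * Real.exp (-A)) * Real.exp (-A) := by
    rw [← Real.exp_add, ← Real.exp_add]
    congr 1
    ring
  rw [e7]
  have j3 : Real.exp (-A) * Real.exp (-A) ≤ WR μ 0 (Rq V α (2 ^ i) D q) η ((α : ℤ), u) (r + 2 * r) (v - u + r) :=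
    (mul_le_mul m1 m2 (Real.exp_nonneg _) (Pool.Agent.W_7d29a1_F.WR_nonneg _ _ _ _ _)).trans j1
  exact mul_le_mul j3 m3 (Real.exp_nonneg _) (Pool.Agent.W_7d29a1_F.WR_nonneg _ _ _ _ _)

end

end Pool.Agent.W_7d29a1_ZE
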