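import Pool.Agent.W_7d29a1_ZE.Defs
import Pool.Agent.W_7d29a1_Z59.TVC

/-!
STORM Z, SECOND STOREY (MP_7d29a1_pr): the ordinary path has the node conditions `Nod` of the class `clE`. (helper59)
-/

namespace Pool.Agent.W_7d29a1_ZE

open MeasureTheory ProbabilityTheory Filter Topology Finset
open Pool.Agent.W_7d29a1_F Pool.Agent.W_7d29a1_X Pool.Agent.W_7d29a1_G Pool.Agent.W_7d29a1_Z
open Pool.Agent.W_7d29a1_SR (In wd)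
open scoped ENNReal

noncomputable section

variable {μ : Measure ℝ}

/-- The total variation of the layers `[T + k 2 ^ i, T + (k + 1) 2 ^ i]`, `k < 2 ^ (a - i)`, of the nodes `u`. -/
def tvN (a i T : ℕ) (u : ℕ → ℤ) : ℝ :=
  ∑ k ∈ range (2 ^ (a - i)), |2 * ((u (T + (k + 1) * 2 ^ i) : ℝ) - u (T + k * 2 ^ i)) - (2 ^ i : ℕ)|

theorem tvN_pos (a i T : ℕ) (S : Finset ℕ) : tvN a i T (pos S) = 2 * Pool.Agent.W_7d29a1_Z59.tv (2 ^ i) (2 ^ (a - i)) T S := by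
  unfold tvN Pool.Agent.W_7d29a1_Z59.tv
  rw [Finset.mul_sum]
  refine Finset.sum_congr rfl fun k _ => ?_
  have h1 := Pool.Agent.W_7d29a1_Z59.pos_sub S (a := T + k * 2 ^ i) (b := T + k * 2 ^ i + 2 ^ i) (Nat.le_add_right _ _)
  have h2 : T + (k + 1) * 2 ^ i = T + k * 2 ^ i + 2 ^ i := by ring
  rw [h2]
  have h3 : ((pos S (T + k * 2 ^ i + 2 ^ i) : ℤ) : ℝ) - pos S (T + k * 2 ^ i) =
      ((S ∩ Ico (T + k * 2 ^ i) (T + k * 2 ^ i + 2 ^ i)).card : ℝ) := by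
    rw [← Int.cast_sub, h1]
    simp
  rw [h3]
  rw [← abs_two, ← abs_mul, abs_two]
  congr 1
  push_cast
  ring

/-- **(TVC) The ordinary path has the total variation of the class `clE` in all intervals and at all scales `2 ^ i ≥ L ^ e₁` with
`2 ^ (a - i) ≥ L ^ e₁`.** -/
theorem tvE [IsProbabilityMeasure μ] {c C : ℝ} {n₀ : ℕ} (hI : In μ c C n₀) (hF : HF2 μ) : ∃ Ct : ℝ, 0 < Ct ∧ ∀ e₁ : ℝ, 0 < e₁ →
    ∃ ε' c' : ℝ, 0 < ε' ∧ 0 < c' ∧ ∃ L₀ : ℕ, ∀ L : ℕ, L₀ ≤ L → ∀ N : ℕ, N ≤ L → ∀ y : ℤ, 0 ≤ y → y ≤ N →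
      P1 μ N y (fun _ S => NSp μ L N ε' S ∧ ∃ a i T : ℕ, (L : ℝ) ^ e₁ ≤ (2 ^ i : ℕ) ∧ (L : ℝ) ^ e₁ ≤ (2 ^ (a - i) : ℕ) ∧ i ≤ a ∧
        T + 2 ^ a ≤ N ∧ 2 * (Ct * wd' μ (2 ^ i) * (2 ^ (a - i) : ℕ)) < tvN a i T (pos S)) ≤
      ENNReal.ofReal (Real.exp (-(L : ℝ) ^ c')) := by
  obtain ⟨Ct, hCt, n₁, hn₁, htv⟩ := Pool.Agent.W_7d29a1_Z59.tvc (μ := μ) hI hF
  refine ⟨Ct, hCt, fun e₁ he₁ => ?_⟩
  obtain ⟨ε', c', hε', hc', L₀, hL₀⟩ := htv e₁ he₁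
  have hlim : Tendsto (fun L : ℕ => (L : ℝ) ^ e₁) atTop atTop := (tendsto_rpow_atTop he₁).comp tendsto_natCast_atTop_atTop
  obtain ⟨L₁, hL₁⟩ := eventually_atTop.1 (hlim.eventually_ge_atTop (n₁ : ℝ))
  refine ⟨ε', c', hε', hc', max L₀ L₁, fun L hL N hNL y hy0 hy1 => ?_⟩
  refine le_trans (P1_mono ?_) (hL₀ L ((le_max_left _ _).trans hL) N hNL y hy0 hy1)
  rintro η S _ ⟨hns, a, i, T, h1, h2, h3, h4, h5⟩
  refine ⟨hns, 2 ^ i, T, 2 ^ (a - i), ?_, h2, ?_, ?_⟩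
  · have := (hL₁ L ((le_max_right _ _).trans hL)).trans h1
    exact_mod_cast this
  · rw [← pow_add, Nat.sub_add_cancel h3]
    exact h4
  · rw [tvN_pos] at h5
    have h6 : wd μ (2 ^ i) ≤ wd' μ (2 ^ i) := le_max_right _ _
    have h7 : Ct * wd μ (2 ^ i) * (2 ^ (a - i) : ℕ) ≤ Ct * wd' μ (2 ^ i) * (2 ^ (a - i) : ℕ) := by
      gcongr
    linarith

/-- Pure: the node conditions of the ordinary path from `NSp`, the total variation and the distance of the walls. -/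
theorem nod_of {V : Win} {L : ℕ} {e e' C : ℝ} {i T : ℕ} {S : Finset ℕ} (hL : 1 ≤ L) (he : e' ≤ e) (hi : i ≤ V.a)
    (hT : T + 2 ^ V.a ≤ V.N) (hns : NSp μ L V.N e' S) (htv : tvN V.a i T (pos S) ≤ 2 * (C * wd' μ (2 ^ i) * (2 ^ (V.a - i) : ℕ)))
    (hw : ∀ t, T ≤ t → t ≤ T + 2 ^ V.a → (V.Y : ℝ) + 2 * ((L : ℝ) ^ (2 * e) * wd' μ (2 ^ i)) ≤
        V.sg * (2 * (pos S t : ℝ) - (t : ℕ)) ∧
      V.sg * (2 * (pos S t : ℝ) - (t : ℕ)) ≤ V.Y + V.w - 2 * ((L : ℝ) ^ (2 * e) * wd' μ (2 ^ i))) :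
    Nod μ V L e C i T (pos S) := by
  have hle : ∀ k ≤ 2 ^ (V.a - i), T + k * 2 ^ i ≤ T + 2 ^ V.a := fun k hk => by
    have h1 : k * 2 ^ i ≤ 2 ^ (V.a - i) * 2 ^ i := Nat.mul_le_mul_right _ hk
    rw [← pow_add, Nat.sub_add_cancel hi] at h1
    omega
  refine ⟨fun k hk => ?_, htv, fun k hk => hw _ (Nat.le_add_right _ _) (hle k hk)⟩
  have h1 := hle (k + 1) hk
  have h2 : T + (k + 1) * 2 ^ i = T + k * 2 ^ i + 2 ^ i := by ring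
  rw [h2] at h1 ⊢
  have h3 := hns (T + k * 2 ^ i) (2 ^ i) Nat.one_le_two_pow (h1.trans hT)
  rw [Int.cast_sub] at h3
  refine h3.trans ?_
  have hLR : (1 : ℝ) ≤ L := by exact_mod_cast hL
  have h4 : (L : ℝ) ^ e' ≤ (L : ℝ) ^ e := Real.rpow_le_rpow_of_exponent_le hLR he
  have h5 : 0 ≤ wd' μ (2 ^ i) := le_trans zero_le_one (le_max_left _ _)
  have h6 := mul_le_mul_of_nonneg_right h4 h5
  linarith

end

end Pool.Agent.W_7d29a1_ZE
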