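import Pool.Agent.W_7d29a1_Z.NT72
import Pool.Agent.W_7d29a1_ZE.MapE

/-!
STORM Z, SECOND STOREY: a bad junction of a cluster is a near tie of the class (4.2 and 4.3 of the text with `NXE`), deterministic part.
After `NT72` of helper72. (helper36)
-/

namespace Pool.Agent.W_7d29a1_ZE

open MeasureTheory ProbabilityTheory Filter Topology Finset
open Pool.Agent.W_7d29a1_F Pool.Agent.W_7d29a1_X Pool.Agent.W_7d29a1_G Pool.Agent.W_7d29a1_Z
open Pool.Agent.W_7d29a1_Z86 (phi sp1 sp2 Wd Meet BadJ Runs)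
open Pool.Agent.W_7d29a1_Z86.GX (WT NRel NOk)
open Pool.Agent.W_7d29a1_Z.Asm72
open Pool.Agent.W_7d29a1_Z.R72
open Pool.Agent.W_7d29a1_Z36 (kk LocC BadC)
open scoped ENNReal

noncomputable section

variable {μ : Measure ℝ}

/-- The classes depend only on the strip. -/
theorem cE_eq (N : ℕ) (y : ℤ) (a : ℕ) (W : WT) (H : ℕ) (sg Y : ℤ) (L : ℕ) (e C : ℝ) (i₀ i₁ : ℕ) :
    cE μ (winE N y a W H sg Y) L e C i₀ i₁ = cE μ (winE N 0 a W 0 sg Y) L e C i₀ i₁ := by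
  funext u
  refine propext ⟨fun h => ⟨h.1, fun i h0 h1 T hT => ?_⟩, fun h => ⟨h.1, fun i h0 h1 T hT => ?_⟩⟩
  · have h2 := h.2 i h0 h1 T hT
    exact ⟨h2.step, h2.tv, h2.wall⟩
  · have h2 := h.2 i h0 h1 T hT
    exact ⟨h2.step, h2.tv, h2.wall⟩

/-- The path `S`, seen in the frame of `S'`, is in the class. -/
theorem cE_of {N t τ k0 b : ℕ} {n1 : ℕ → ℕ} {e0 E : ℕ} {p : Par} (hp : POk μ t n1 e0 E p) {W : WT}
    (hW : W ∈ Wd N t τ k0 n1 e0 E b) {v : ℕ → ℤ} {S : Finset ℕ} (hTV : TVp μ N p S) {sg Y s₀ : ℤ} (_hsg : sg = 1 ∨ sg = -1)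
    (hR : InR sg W.2.2 (Y - 2 * sg * s₀) ((2 ^ (W.1 + 3) : ℕ) : ℤ) S)
    (hs : ∀ i ∈ W.2.2, sv v 0 i = s₀) (hm : ∀ i ∈ W.2.2, 2 ^ W.1 ≤ 8 * (sg * (2 * pos S i - i) - (Y - 2 * sg * s₀)))
    (y : ℤ) (H : ℕ) :
    cE μ (winE N y p.a W H sg Y) p.L p.e p.C p.i₀ p.i₁ fun i => pos S i + sv v 0 i := by
  obtain ⟨he0, heE, hW0, hj, hJ, hcard⟩ := Pool.Agent.W_7d29a1_Z86.mem_Wd.1 hW
  -- at a row of the window
  have hrow : ∀ i ∈ W.2.2, Y < sg * (2 * (pos S i + sv v 0 i) - i) ∧ sg * (2 * (pos S i + sv v 0 i) - i) ≤ Y + 2 ^ (W.1 + 3) ∧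
      2 ^ W.1 ≤ 8 * (sg * (2 * (pos S i + sv v 0 i) - i) - Y) := by
    intro i hi
    have h1 := hR i hi
    have h2 := hm i hi
    rw [hs i hi]
    push_cast at h1
    have e1 : sg * (2 * (pos S i + s₀) - i) = sg * (2 * pos S i - i) + 2 * sg * s₀ := by ring
    rw [e1]
    refine ⟨by linarith [h1.1], by linarith [h1.2], by linarith⟩
  have hP : (0 : ℤ) < 2 ^ W.1 := by positivity
  have e3 : (2 : ℤ) ^ (W.1 + 3) = 8 * 2 ^ W.1 := by ring
  have e4 : (2 : ℤ) ^ (W.1 + 4) = 16 * 2 ^ W.1 := by ring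
  refine ⟨fun i hi => ?_, fun i h0 h1 T hT => ?_⟩
  · have h1 := hrow i (winE_J _ _ _ _ _ _ _ hi)
    refine ⟨h1.1, ?_⟩
    show sg * (2 * (pos S i + sv v 0 i) - i) ≤ Y + 2 ^ (W.1 + 4)
    rw [e4]
    rw [e3] at h1
    linarith [h1.2.1]
  · have hT' : T ∈ stv N p.a W.2.2 := hT
    obtain ⟨-, -, hTJ⟩ := mem_stv.1 hT'
    have hia : i ≤ p.a := h1.trans hp.i₁a
    have hk : ∀ k, k ≤ 2 ^ (p.a - i) → T + k * 2 ^ i ∈ W.2.2 := fun k hk => by
      refine hTJ (mem_Icc.2 ⟨Nat.le_add_right _ _, ?_⟩)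
      have h2 : k * 2 ^ i ≤ 2 ^ (p.a - i) * 2 ^ i := Nat.mul_le_mul_right _ hk
      rw [← pow_add, Nat.sub_add_cancel hia] at h2
      omega
    have hTN : T + 2 ^ p.a ≤ N := (hJ _ (hTJ (mem_Icc.2 ⟨Nat.le_add_right _ _, le_rfl⟩))).2.le
    obtain ⟨h3, h4⟩ := hTV i h0 h1 T hTN
    -- the shift cancels
    have hsub : ∀ k, k < 2 ^ (p.a - i) → ((pos S (T + (k + 1) * 2 ^ i) + sv v 0 (T + (k + 1) * 2 ^ i) : ℤ) : ℝ) -
        ((pos S (T + k * 2 ^ i) + sv v 0 (T + k * 2 ^ i) : ℤ) : ℝ) =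
        (pos S (T + (k + 1) * 2 ^ i) : ℝ) - pos S (T + k * 2 ^ i) := fun k hk' => by
      rw [hs _ (hk (k + 1) hk'), hs _ (hk k hk'.le)]
      push_cast
      ring
    refine ⟨fun k hk' => ?_, ?_, fun k hk' => ?_⟩
    · rw [hsub k hk']
      exact h3 k hk'
    · refine le_trans (le_of_eq ?_) h4
      unfold tvN
      refine sum_congr rfl fun k hk' => ?_
      rw [hsub k (mem_range.1 hk')]
    · have h5 := hrow _ (hk k hk')
      have hw := hp.wall W.1 he0 heE i h0 h1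
      obtain ⟨z, hz⟩ : ∃ z : ℤ, z = sg * (2 * (pos S (T + k * 2 ^ i) + sv v 0 (T + k * 2 ^ i)) - ((T + k * 2 ^ i : ℕ) : ℤ)) :=
        ⟨_, rfl⟩
      rw [← hz] at h5
      have hzR : (sg : ℝ) * (2 * ((pos S (T + k * 2 ^ i) + sv v 0 (T + k * 2 ^ i) : ℤ) : ℝ) - ((T + k * 2 ^ i : ℕ) : ℝ)) = z := by
        rw [hz]
        push_cast
        ring
      have hgoal : (Y : ℝ) + 2 * ((p.L : ℝ) ^ (2 * p.e) * wd' μ (2 ^ i)) ≤ z ∧
          (z : ℝ) ≤ Y + ((2 ^ (W.1 + 4) : ℤ) : ℝ) - 2 * ((p.L : ℝ) ^ (2 * p.e) * wd' μ (2 ^ i)) := by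
        rw [e3] at h5
        have h6 : (z : ℝ) ≤ Y + 8 * 2 ^ W.1 := by exact_mod_cast h5.2.1
        have h7 : (2 : ℝ) ^ W.1 ≤ 8 * (z - Y) := by exact_mod_cast h5.2.2
        have h8 : (((2 : ℤ) ^ (W.1 + 4) : ℤ) : ℝ) = 16 * 2 ^ W.1 := by
          rw [e4]
          push_cast
          ring
        have h9 : (0 : ℝ) < 2 ^ W.1 := by positivity
        rw [h8]
        constructor <;> linarith
      rw [← hzR] at hgoal
      exact hgoal

/-- The bad events of the depth for the classes, for all brackets and windows. -/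
def BadDX (μ : Measure ℝ) (N t τ k₀ k₁ e0 E : ℕ) (n1 : ℕ → ℕ) (p : Par) (I : Finset ℕ) (V : ℕ → ℤ) (lm : ℝ) :
    Set (Env × Finset ℕ × Finset ℕ) :=
  {θ | ∃ l r b a b' : ℕ, k₀ ≤ l ∧ l < r ∧ r ≤ k₁ ∧ k₀ ≤ b ∧ b ≤ k₁ ∧ a ≤ b' ∧ b' ≤ N ∧ ∃ W ∈ Wd N t τ k₀ n1 e0 E b,
    ∃ sg Y : ℤ, (sg = 1 ∨ sg = -1) ∧ |sg * (2 * pos θ.2.2 W.2.1 - W.2.1) - Y| ≤ ((2 ^ (W.1 + 3) : ℕ) : ℤ) ∧
      (∀ i ∈ W.2.2, a < i ∧ i < b') ∧
      Pcs (pat t τ I V) a b' W.2.2 (Qp t τ l r (qlo t τ W.2.2 l a) (qhi t τ W.2.2 r b')) ∧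
      BadC μ (pat t τ I V) a b' (Qp t τ l r (qlo t τ W.2.2 l a) (qhi t τ W.2.2 r b')) (cL (winE N 0 p.a W 0 sg Y))
        (cE μ (winE N 0 p.a W 0 sg Y) p.L p.e p.C p.i₀ p.i₁) lm θ.1 θ.2.1 θ.2.2}

/-- **4.2 + 4.3, second storey.** A bad junction of a cluster is nearly tied for the pair (sheared environment, `S'`). -/
theorem near_tieX (y : ℤ) {L N t τ B k₀ k₁ K s e0 E : ℕ} {n1 : ℕ → ℕ} {I : Finset ℕ} {V : ℕ → ℤ} {w A h lm Del : ℝ} {η : Env}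
    {S S' : Finset ℕ} {pr : Par} (hpr : POk μ t n1 e0 E pr) (hTV : TVp μ N pr S) (ht : 16 ≤ t) (hI : I ⊆ Core t)
    (hk : k₀ < k₁) (hk1 : k₁ ≤ B) (hkN : za t τ k₁ ≤ N)
    (hV : VOK t τ N k₀ k₁ s I V) (hs : s ≤ K) (hA : 0 ≤ A) (hR : RA μ L t τ B I w A K η)
    (hR' : RA μ L t τ B I w A K (shr 0 (pat t τ I V) η)) (hX : Tame L N t w (pos S)) (hX' : Tame L N t w (pos S'))
    (hw : 4 * w + 8 * (s * I.card) ≤ t) (hsep : SepOK N t τ k₀ k₁ e0 E (pat t τ I V) S S')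
    (hn1 : ∀ e, e0 ≤ e → e ≤ E → 1 ≤ n1 e) (hF : FlatP N e0 E n1 S) (hF' : FlatP N e0 E n1 S')
    (hD : 64 * (s * I.card) ≤ 2 ^ e0) (hyS : pos S N = pos S' N) {p : ℕ × ℕ}
    (hp : p ∈ Runs (BadJ t τ k₀ k₁ (pat t τ I V) S S') k₀ k₁) {b : ℕ} (hb1 : p.1 ≤ b) (hb2 : b ≤ p.2)
    (hb : BadJ t τ k₀ k₁ (pat t τ I V) S S' b)
    (hBD : (η, S, S') ∉ BadDX μ N t τ k₀ k₁ e0 E n1 pr I V lm)
    (hH : |∑ b ∈ Ico p.1 p.2, (fb μ t τ I η b (V b) (pos S) - fb μ t τ I η b 0 (pos S) -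
      Db μ t τ I s η b 0 (pos S) / 4)| ≤ h * √((p.2 - p.1 : ℕ) : ℝ) * (s * A))
    (hH' : |∑ b ∈ Ico p.1 p.2, (fb μ t τ I (shr 0 (pat t τ I V) η) b (-V b) (pos S') -
      fb μ t τ I (shr 0 (pat t τ I V) η) b 0 (pos S') - Db μ t τ I s (shr 0 (pat t τ I V) η) b 0 (pos S') / 4)| ≤
      h * √((p.2 - p.1 : ℕ) : ℝ) * (s * A))
    (hDel : |∑ b ∈ Ico p.1 p.2, Db μ t τ I s η b 0 (pos S)| ≤ Del)
    (hDel' : |∑ b ∈ Ico p.1 p.2, Db μ t τ I s (shr 0 (pat t τ I V) η) b 0 (pos S')| ≤ Del) :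
    ∃ a b' : ℕ, (za t τ p.1 ≤ a ∨ p.1 = k₀) ∧ (b' ≤ zb t τ (p.2 - 1) ∨ p.2 = k₁) ∧ b' ≤ N ∧
      ∃ W ∈ Wd N t τ k₀ n1 e0 E b, (∀ i ∈ W.2.2, a < i ∧ i < b') ∧ ∀ H M, b' ≤ a + H →
        2 * (Del / 4 + h * √((p.2 - p.1 : ℕ) : ℝ) * (s * A) + 6 * (s * A)) + 3 * lm ≤ M →
        NXE μ N y pr W H M (shr 0 (pat t τ I V) η) S' := by
  set v := pat t τ I V with hv
  have hpm := Pool.Agent.W_7d29a1_Z86.mem_Runs.1 hp
  obtain ⟨p1, p2, p3, -, -, -, -⟩ := hpm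
  have h0m : Meet v S S' 0 := by
    unfold Meet px
    rw [pos_zero, pos_zero, sv_self, sub_zero]
  have hNm : Meet v S S' N := by
    unfold Meet px
    rw [hV.svN, sub_zero, hyS]
  have hzk : zb t τ (k₁ - 1) ≤ za t τ k₁ := by
    have := za_lt (t := t) (τ := τ) (show k₁ - 1 < k₁ by omega)
    rw [zb_eq]
    omega
  obtain ⟨a, b', ha, hb', hb'N, hap, hbp, hβs⟩ := Pool.Agent.W_7d29a1_Z86.bracket (by omega) h0m hNm
    (hzk.trans hkN) hp
  obtain ⟨β, hβ, haβ, hβb, hno⟩ := hβs b hb1 hb2 hb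
  have hbk0 : k₀ ≤ b := p1.trans hb1
  have hbk1 : b ≤ k₁ := hb2.trans p2
  have hfr := hsep.fr b β hbk0 hbk1 hβ (hβb.trans hb'N) hno
  obtain ⟨W, hW, sg, Y, s₀, ⟨hsg, hY, hYd, hL, hRr, hab, hs₀⟩, hmar⟩ := Pool.Agent.W_7d29a1_Z86.brk_m (n1 := n1) (E := E) ht hI hbk0 hβ
    ha hb' haβ hβb hb'N hfr hsep.far hn1 hF hF' (fun i _ => by
      have h1 := hV.svb i
      have h2 : 64 * |sv (pat t τ I V) 0 i| ≤ 64 * (s * I.card : ℤ) := by linarith
      exact h2.trans (by exact_mod_cast hD)) hV.gap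
  have hWm := Pool.Agent.W_7d29a1_Z86.mem_Wd.1 hW
  have hplace := Pool.Agent.W_7d29a1_Z86.Wd0_place hWm.2.2.1
  -- the rows of the window against the zones
  have hJc : ∀ i ∈ W.2.2, ∀ c, i ≤ za t τ c + t / 4 ∨ zb t τ c ≤ i + t / 4 := by
    intro i hi c
    rcases hplace with h1 | h1 | h1
    · have h2 := h1 i hi
      rcases Nat.lt_trichotomy c (b - 1) with h3 | h3 | h3
      · have := za_lt (t := t) (τ := τ) h3
        rw [zb_eq] at h2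
        right
        rw [zb_eq]
        omega
      · right
        rw [h3]
        omega
      · have := za_lt (t := t) (τ := τ) h3
        rw [zb_eq] at h2
        left
        omega
    · have h2 := h1 i hi
      rcases Nat.lt_trichotomy c b with h3 | h3 | h3
      · have := za_lt (t := t) (τ := τ) h3
        right
        rw [zb_eq]
        omega
      · left
        rw [h3]
        omega
      · have := za_lt (t := t) (τ := τ) h3
        left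
        omega
    · rcases h1 i hi c with h2 | h2
      · left
        omega
      · right
        omega
  obtain ⟨bJ, hbJ⟩ : ∃ bJ, ∀ i ∈ W.2.2, ∀ c, za t τ c < i → i < zb t τ c → c = bJ := by
    rcases hplace with h1 | h1 | h1
    · refine ⟨b - 1, fun i hi c h3 h4 => ?_⟩
      have h2 := h1 i hi
      rcases Nat.lt_trichotomy c (b - 1) with h5 | h5 | h5
      · have := za_lt (t := t) (τ := τ) h5
        rw [zb_eq] at h2 h4
        omega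
      · exact h5
      · have := za_lt (t := t) (τ := τ) h5
        rw [zb_eq] at h2
        omega
    · refine ⟨b, fun i hi c h3 h4 => ?_⟩
      have h2 := h1 i hi
      rcases Nat.lt_trichotomy c b with h5 | h5 | h5
      · have := za_lt (t := t) (τ := τ) h5
        rw [zb_eq] at h4
        omega
      · exact h5
      · have := za_lt (t := t) (τ := τ) h5
        omega
    · refine ⟨0, fun i hi c h3 h4 => ?_⟩
      rcases h1 i hi c with h2 | h2 <;> omega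
  -- the pieces
  have ha' : a ≤ za t τ p.1 + t / 4 := by
    rcases hap with h1 | h1
    · exact h1.2
    · rw [h1.1]
      omega
  have hb'' : zb t τ (p.2 - 1) ≤ b' + t / 4 := by
    rcases hbp with h1 | h1
    · omega
    · rw [h1.1, h1.2]
      have := hzk.trans hkN
      omega
  obtain ⟨hP, hQ⟩ := pcs_bracket (V := V) (J := W.2.2) hI p3 ha' hb''
    (by
      rcases hap with h1 | h1
      · exact Or.inl h1.1
      · right
        intro c hc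
        exact hV.z0 c (Or.inl (by omega)))
    (by
      rcases hbp with h1 | h1
      · exact Or.inl h1.2
      · right
        intro c hc
        exact hV.z0 c (Or.inr (by omega))) hJc
  have hrN : ∀ c, p.1 ≤ c → c < p.2 → zb t τ c ≤ N := by
    intro c _ hc
    have h1 : za t τ c ≤ za t τ (k₁ - 1) := za_mono' (by omega)
    rw [zb_eq] at hzk ⊢
    omega
  obtain ⟨hc1, hc2⟩ := coneQ_Qp hrN hP hV.bd hw hX hX'
  -- the sizes
  have hz1 := depth_size (h := h) (by omega) hA hR (p2.trans hk1) hrN hX hV.bd hs hP hbJ hH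
  have hV' : ∀ c, |(-V) c| ≤ (s : ℤ) := fun c => by
    rw [Pi.neg_apply, abs_neg]
    exact hV.bd c
  have hz2 := depth_size (h := h) (V := -V) (by omega) hA hR' (p2.trans hk1) hrN hX' hV' hs hP hbJ hH'
  have hneg : pat t τ I (-V) = -pat t τ I V := by
    funext k
    unfold pat
    simp only [Pi.neg_apply]
    split_ifs <;> simp
  have hback := A12.Xd_back (μ := μ) (pat t τ I V) (Qp t τ p.1 p.2 (qlo t τ W.2.2 p.1 a) (qhi t τ W.2.2 p.2 b'))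
    (fun q hq => (hQ.sub q hq).2.1) η S'
  rw [hneg, hback, abs_neg] at hz2
  have hcl := cE_of hpr hW hTV hsg hRr hs₀ (fun i hi => (hmar i hi).2)
  have hne : (stv N pr.a W.2.2).Nonempty := by
    have h5 := stv_card hW ht (hpr.an1 W.1 hWm.1 hWm.2.1) hpr.at8
    have h6 := hn1 W.1 hWm.1 hWm.2.1
    rw [← card_pos]
    by_contra hcon
    have h7 : (stv N pr.a W.2.2).card = 0 := by omega
    rw [h7, zero_mul] at h5
    omega
  have hWN : ∀ i ∈ W.2.2, 1 ≤ i ∧ i < N := hWm.2.2.2.2.1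
  refine ⟨a, b', ?_, ?_, hb'N, W, hW, hab, fun H M hH1 hM => ⟨sg, Y, hsg, hY, hYd, hne, ?_⟩⟩
  · rcases hap with h1 | h1
    · exact Or.inl h1.1
    · exact Or.inr h1.2
  · rcases hbp with h1 | h1
    · exact Or.inl h1.2
    · exact Or.inr h1.2
  -- the depth
  refine nte_of_pair (a := a) (b := b') (Q := Qp t τ p.1 p.2 (qlo t τ W.2.2 p.1 a) (qhi t τ W.2.2 p.2 b')) (lm := lm) ?_ ?_
    ha hb' (fun i hi => hL i (winE_J _ _ _ _ _ _ _ hi)) (hcl y H) hc1 hc2 ?_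
  · unfold Br
    rw [mem_filter, mem_product, mem_range, mem_range]
    refine ⟨⟨?_, ?_⟩, hH1, fun i hi => hab i (winE_J _ _ _ _ _ _ _ hi)⟩
    · show a < N + 1
      omega
    · show b' < N + 1
      omega
  · intro hB
    rw [cE_eq] at hB
    exact hBD ⟨p.1, p.2, b, a, b', p1, p3, p2, hbk0, hbk1, by omega, hb'N, W, hW, sg, Y, hsg, hYd, hab, hQ, hB⟩
  · have h8 := abs_le.1 hz1
    have h9 := abs_le.1 hz2
    linarith [h8.1, h9.2]

end

end Pool.Agent.W_7d29a1_ZE
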