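import Pool.Agent.W_7d29a1_Z59.TVA
import Pool.Agent.W_7d29a1_Z.PB

/-!
STORM Z: upper bounds off the cone. Outside an event of probability `exp (- L ^ c)` all the point to point weights of the box are at
most `exp (L ^ ε EE' n - κ (EE' n / wd' n) |2 y - n|)`. (helper18)
-/

namespace Pool.Agent.W_7d29a1_ZE

open MeasureTheory ProbabilityTheory Filter Topology Finset
open Pool.Agent.W_7d29a1_F Pool.Agent.W_7d29a1_G Pool.Agent.W_7d29a1_Z
open Pool.Agent.W_7d29a1_SR (In wd)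
open Pool.Agent.W_7d29a1_Z59 (Zt Zt_pos Zt_nonneg Zt_dom tv_mom)
open scoped ENNReal

noncomputable section

variable {μ : Measure ℝ}

/-- Upper bound of all the weights of the box, with a linear decay off the cone. -/
def OffC (μ : Measure ℝ) (L : ℕ) (ε κ : ℝ) (η : Env) : Prop :=
  ∀ i n : ℕ, i + n ≤ L → ∀ x : ℤ, |x| ≤ 2 * L → ∀ y : ℤ, 0 ≤ y → y ≤ n →
    W μ 0 η ((i : ℤ), x) n y ≤ Real.exp ((L : ℝ) ^ ε * EE' μ n - κ * (EE' μ n / wd' μ n) * |2 * (y : ℝ) - n|)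

theorem W_le_Zt {r : ℕ} {h : ℝ} (η : Env) (a : Pt) {y : ℤ} (h0 : 0 ≤ y) (h1 : y ≤ r) :
    W μ 0 η a r y * Real.exp (h * |(y : ℝ) - r / 2|) ≤ Zt μ h r 1 η a := by
  have h2 : Zt μ h r 1 η a = ∑ y ∈ Icc (0 : ℤ) r, W μ 0 η a r y * (Real.exp (h * |(y : ℝ) - r / 2|) * 1) := rfl
  rw [h2]
  refine le_trans (le_of_eq ?_) (single_le_sum (f := fun y : ℤ => W μ 0 η a r y * (Real.exp (h * |(y : ℝ) - r / 2|) * 1))
    (fun y _ => mul_nonneg (W_nonneg _ _ _ _) (mul_nonneg (Real.exp_pos _).le zero_le_one)) (mem_Icc.2 ⟨h0, h1⟩))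
  ring

variable [IsProbabilityMeasure μ] {c C : ℝ} {n₀ : ℕ}

/-- The tail of the tilted partition function of one layer. -/
theorem zt_tail (h : In μ c C n₀) : ∃ K κ : ℝ, 1 ≤ K ∧ 0 < κ ∧ ∃ n₁ : ℕ, 1 ≤ n₁ ∧ ∀ r, n₁ ≤ r → 4 ≤ wd μ r ∧
    ∀ (a : Pt) (u : ℝ), (law μ).real {η | Real.exp (u * (C * EE μ r)) < Zt μ (κ * EE μ r / wd μ r) r 1 η a} ≤
      K * Real.exp (-u) := by
  obtain ⟨K, κ, hK, hκ, n₁, hn₁, hM⟩ := tv_mom h
  refine ⟨K, κ, hK, hκ, n₁, hn₁, fun r hr => ?_⟩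
  obtain ⟨hw4, hM'⟩ := hM r hr
  refine ⟨hw4, fun a u => ?_⟩
  have hC1 := h.C1
  have hE1 : 1 ≤ EE μ r := one_le_EE r
  obtain ⟨g, hg⟩ : ∃ g : ℝ, g = κ * EE μ r / wd μ r := ⟨_, rfl⟩
  have hm := hM' 1 a
  rw [← hg, pow_one] at hm
  rw [← hg]
  obtain ⟨θ, hθ⟩ : ∃ θ : ℝ, θ = 1 / (C * EE μ r) := ⟨_, rfl⟩
  have hθ0 : 0 < θ := by rw [hθ]; positivity
  rw [← hθ] at hm
  have hint : Integrable (fun η => Real.exp (θ * Real.log (Zt μ g r 1 η a))) (law μ) := by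
    have h2 := (Zt_dom (μ := μ) (h := g) (r := r) 1 a).rpow_int h.em hθ0.le
    refine h2.congr (Eventually.of_forall fun η => ?_)
    show Zt μ g r 1 η a ^ θ = Real.exp (θ * Real.log (Zt μ g r 1 η a))
    rw [Real.rpow_def_of_pos (Zt_pos 1 η a), mul_comm]
  have h1 := mul_meas_ge_le_integral_of_nonneg (μ := law μ) (Eventually.of_forall fun η => Real.exp_nonneg _) hint
    (Real.exp u)
  have h2 : (law μ).real {η | Real.exp (u * (C * EE μ r)) < Zt μ g r 1 η a} ≤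
      (law μ).real {η | Real.exp u ≤ Real.exp (θ * Real.log (Zt μ g r 1 η a))} := by
    refine measureReal_mono fun η hη => ?_
    have hη' : Real.exp (u * (C * EE μ r)) < Zt μ g r 1 η a := hη
    refine Real.exp_le_exp.2 ?_
    have e1 : u = θ * (u * (C * EE μ r)) := by
      rw [hθ]
      field_simp
    rw [e1]
    refine mul_le_mul_of_nonneg_left ?_ hθ0.le
    rw [← Real.log_exp (u * (C * EE μ r))]
    exact Real.log_le_log (Real.exp_pos _) hη'.le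
  refine h2.trans ?_
  have h3 : Real.exp u * (law μ).real {η | Real.exp u ≤ Real.exp (θ * Real.log (Zt μ g r 1 η a))} ≤ K := h1.trans hm
  have h4 : K = Real.exp u * (K * Real.exp (-u)) := by
    rw [mul_left_comm, ← Real.exp_add, add_neg_cancel, Real.exp_zero, mul_one]
  rw [h4] at h3
  exact le_of_mul_le_mul_left h3 (Real.exp_pos _)

/-- **Upper bounds off the cone.** -/
theorem offc (h : In μ c C n₀) (hF : HF2 μ) : ∃ κ : ℝ, 0 < κ ∧ ∀ ε : ℝ, 0 < ε → ∃ c' : ℝ, 0 < c' ∧ ∃ L₀ : ℕ, ∀ L : ℕ,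
    L₀ ≤ L → law μ {η | ¬ OffC μ L ε κ η} ≤ ENNReal.ofReal (Real.exp (-(L : ℝ) ^ c')) := by
  obtain ⟨K, κ, hK, hκ, n₁, hn₁, hM⟩ := zt_tail h
  have hC1 := h.C1
  refine ⟨κ / 2, by positivity, fun ε hε => ?_⟩
  obtain ⟨δ, cp, hδ, hcp, Lp, hpb⟩ := pbox h hF (ε / 2) (by positivity)
  -- large L
  have ev1 : ∀ᶠ L : ℕ in atTop, κ * n₁ + 1 ≤ (L : ℝ) ^ (ε / 2) :=
    ((tendsto_rpow_atTop (by positivity : 0 < ε / 2)).comp tendsto_natCast_atTop_atTop).eventually_ge_atTop _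
  have ev2 := Pool.Agent.W_7d29a1_Z22.absorb (40 * K) 3 (b := 1 / C) (g := ε) (by positivity) hε
  have ev3 : ∀ᶠ L : ℕ in atTop, Real.exp (-(L : ℝ) ^ cp) + Real.exp (-(L : ℝ) ^ (ε / 2)) ≤
      Real.exp (-(L : ℝ) ^ (min cp (ε / 2) / 2)) := by
    have hm : 0 < min cp (ε / 2) := lt_min hcp (by positivity)
    have e1 := Pool.Agent.W_7d29a1_Z22.absorb 2 0 (b := 1) (g := min cp (ε / 2)) one_pos hm
    filter_upwards [e1, eventually_ge_atTop 1] with L h1 h2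
    have hL : (1 : ℝ) ≤ L := by exact_mod_cast h2
    rw [Real.rpow_zero, mul_one, one_mul] at h1
    have h3 : Real.exp (-(L : ℝ) ^ cp) ≤ Real.exp (-(L : ℝ) ^ min cp (ε / 2)) :=
      Real.exp_le_exp.2 (neg_le_neg (Real.rpow_le_rpow_of_exponent_le hL (min_le_left _ _)))
    have h4 : Real.exp (-(L : ℝ) ^ (ε / 2)) ≤ Real.exp (-(L : ℝ) ^ min cp (ε / 2)) :=
      Real.exp_le_exp.2 (neg_le_neg (Real.rpow_le_rpow_of_exponent_le hL (min_le_right _ _)))
    linarith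
  obtain ⟨L₁, hL₁⟩ := eventually_atTop.1 ((ev1.and ev2).and ev3)
  have hm : 0 < min cp (ε / 2) := lt_min hcp (by positivity)
  refine ⟨min cp (ε / 2) / 2, by positivity, max (max Lp L₁) 1, fun L hL => ?_⟩
  have hLp : Lp ≤ L := (le_max_left _ _).trans ((le_max_left _ _).trans hL)
  obtain ⟨⟨k1, k2⟩, k3⟩ := hL₁ L ((le_max_right _ _).trans ((le_max_left _ _).trans hL))
  have hL1 : 1 ≤ L := (le_max_right _ _).trans hL
  have hLR : (1 : ℝ) ≤ L := by exact_mod_cast hL1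
  have hL0 : (0 : ℝ) < L := by linarith
  -- the events
  let Bad : ℕ → ℕ → ℤ → Set Env := fun i n x => if n₁ ≤ n then
    {η | Real.exp ((L : ℝ) ^ ε / C * (C * EE μ n)) < Zt μ (κ * EE μ n / wd μ n) n 1 η ((i : ℤ), x)} else ∅
  have hsub : {η | ¬ OffC μ L ε (κ / 2) η} ⊆ {η | ¬ PBox μ L δ (ε / 2) η} ∪
      ⋃ i ∈ Finset.range (L + 1), ⋃ n ∈ Finset.range (L + 1), ⋃ x ∈ Finset.Icc (-(2 * L : ℤ)) (2 * L), Bad i n x := by
    intro η hη
    by_contra hcon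
    rw [Set.mem_union, not_or] at hcon
    obtain ⟨hc1, hc2⟩ := hcon
    have hP : PBox μ L δ (ε / 2) η := by
      by_contra hP
      exact hc1 hP
    refine hη ?_
    intro i n hin x hx y h0 h1
    have hEp : 0 < EE' μ n := lt_of_lt_of_le zero_lt_one (le_max_left _ _)
    have hwp : 1 ≤ wd' μ n := le_max_left _ _
    rcases le_or_gt n₁ n with hn | hn
    · obtain ⟨hw4, _⟩ := hM n hn
      have hE1 : 1 ≤ EE μ n := one_le_EE n
      have hEE : EE' μ n = EE μ n := max_eq_right hE1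
      have hww : wd' μ n = wd μ n := max_eq_right (by linarith)
      have hnb : η ∉ Bad i n x := by
        intro hb
        refine hc2 ?_
        simp only [Set.mem_iUnion]
        rw [abs_le] at hx
        exact ⟨i, Finset.mem_range.2 (by omega), n, Finset.mem_range.2 (by omega), x,
          Finset.mem_Icc.2 ⟨by linarith [hx.1], by linarith [hx.2]⟩, hb⟩
      simp only [Bad, if_pos hn, Set.mem_ofPred_eq, not_lt] at hnb
      have h2 := (W_le_Zt (μ := μ) (h := κ * EE μ n / wd μ n) η ((i : ℤ), x) h0 h1).trans hnb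
      have e1 : (L : ℝ) ^ ε / C * (C * EE μ n) = (L : ℝ) ^ ε * EE μ n := by field_simp
      rw [e1] at h2
      rw [hEE, hww, sub_eq_add_neg, Real.exp_add]
      have e2 : κ * EE μ n / wd μ n * |(y : ℝ) - n / 2| = κ / 2 * (EE μ n / wd μ n) * |2 * (y : ℝ) - n| := by
        have : |2 * (y : ℝ) - n| = 2 * |(y : ℝ) - n / 2| := by
          rw [← abs_two (α := ℝ), ← abs_mul]
          congr 1
          ring
        rw [this]
        ring
      rw [e2] at h2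
      have h3 := mul_le_mul_of_nonneg_right h2 (Real.exp_pos (-(κ / 2 * (EE μ n / wd μ n) * |2 * (y : ℝ) - n|))).le
      rw [mul_assoc, ← Real.exp_add, add_neg_cancel, Real.exp_zero, mul_one] at h3
      exact h3
    · have h2 := (hP i n hin x hx y h0 h1).1
      refine h2.trans (Real.exp_le_exp.2 ?_)
      have h3 : |2 * (y : ℝ) - n| ≤ n₁ := by
        have q1 : (0 : ℝ) ≤ y := by exact_mod_cast h0
        have q2 : (y : ℝ) ≤ n := by exact_mod_cast h1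
        have q3 : (n : ℝ) ≤ n₁ := by exact_mod_cast hn.le
        rw [abs_le]
        constructor <;> linarith
      have h4 : EE' μ n / wd' μ n ≤ EE' μ n := div_le_self hEp.le hwp
      have h5 : κ / 2 * (EE' μ n / wd' μ n) * |2 * (y : ℝ) - n| ≤ κ * n₁ * EE' μ n := by
        have q0 : 0 ≤ EE' μ n / wd' μ n := div_nonneg hEp.le (by linarith)
        calc κ / 2 * (EE' μ n / wd' μ n) * |2 * (y : ℝ) - n| ≤ κ * EE' μ n * n₁ := by
              refine mul_le_mul ?_ h3 (abs_nonneg _) (by positivity)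
              exact mul_le_mul (by linarith) h4 q0 hκ.le
          _ = _ := by ring
      have e1 : (L : ℝ) ^ ε = (L : ℝ) ^ (ε / 2) * (L : ℝ) ^ (ε / 2) := by
        rw [← Real.rpow_add hL0]
        congr 1
        ring
      have h6 : 1 ≤ (L : ℝ) ^ (ε / 2) := Real.one_le_rpow hLR (by positivity)
      have h7 : (L : ℝ) ^ (ε / 2) + κ * n₁ ≤ (L : ℝ) ^ ε := by
        rw [e1]
        have hk0 : 0 ≤ κ * n₁ := by positivity
        nlinarith
      have h8 := mul_le_mul_of_nonneg_right h7 hEp.le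
      rw [add_mul] at h8
      linarith
  have hBad : ∀ i n x, law μ (Bad i n x) ≤ ENNReal.ofReal (K * Real.exp (-((L : ℝ) ^ ε / C))) := by
    intro i n x
    by_cases hn : n₁ ≤ n
    · simp only [Bad, if_pos hn]
      have h2 := (hM n hn).2 ((i : ℤ), x) ((L : ℝ) ^ ε / C)
      rw [measureReal_def] at h2
      rw [← ENNReal.ofReal_toReal (measure_ne_top (law μ) _)]
      exact ENNReal.ofReal_le_ofReal h2
    · simp only [Bad, if_neg hn, measure_empty]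
      exact bot_le
  have hp0 : 0 ≤ K * Real.exp (-((L : ℝ) ^ ε / C)) := by positivity
  refine (measure_mono hsub).trans ((measure_union_le _ _).trans ?_)
  have hU : law μ (⋃ i ∈ Finset.range (L + 1), ⋃ n ∈ Finset.range (L + 1), ⋃ x ∈ Finset.Icc (-(2 * L : ℤ)) (2 * L), Bad i n x) ≤
      ENNReal.ofReal (Real.exp (-(L : ℝ) ^ (ε / 2))) := by
    have h1 : ∀ i n, law μ (⋃ x ∈ Finset.Icc (-(2 * L : ℤ)) (2 * L), Bad i n x) ≤
        (4 * L + 1 : ℕ) * ENNReal.ofReal (K * Real.exp (-((L : ℝ) ^ ε / C))) := by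
      intro i n
      refine (measure_biUnion_finset_le _ _).trans ((Finset.sum_le_sum fun x _ => hBad i n x).trans ?_)
      rw [sum_const, nsmul_eq_mul]
      have hc : (Finset.Icc (-(2 * L : ℤ)) (2 * L)).card = 4 * L + 1 := by
        rw [Int.card_Icc]
        omega
      rw [hc]
    have h2 : ∀ i, law μ (⋃ n ∈ Finset.range (L + 1), ⋃ x ∈ Finset.Icc (-(2 * L : ℤ)) (2 * L), Bad i n x) ≤
        (L + 1 : ℕ) * ((4 * L + 1 : ℕ) * ENNReal.ofReal (K * Real.exp (-((L : ℝ) ^ ε / C)))) := by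
      intro i
      refine (measure_biUnion_finset_le _ _).trans ((Finset.sum_le_sum fun n _ => h1 i n).trans ?_)
      rw [sum_const, nsmul_eq_mul, card_range]
    have h3 : law μ (⋃ i ∈ Finset.range (L + 1), ⋃ n ∈ Finset.range (L + 1), ⋃ x ∈ Finset.Icc (-(2 * L : ℤ)) (2 * L),
        Bad i n x) ≤ (L + 1 : ℕ) * ((L + 1 : ℕ) * ((4 * L + 1 : ℕ) * ENNReal.ofReal (K * Real.exp (-((L : ℝ) ^ ε / C))))) := by
      refine (measure_biUnion_finset_le _ _).trans ((Finset.sum_le_sum fun i _ => h2 i).trans ?_)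
      rw [sum_const, nsmul_eq_mul, card_range]
    refine h3.trans ?_
    rw [← ENNReal.ofReal_natCast (L + 1), ← ENNReal.ofReal_natCast (4 * L + 1), ← ENNReal.ofReal_mul (by positivity),
      ← ENNReal.ofReal_mul (by positivity), ← ENNReal.ofReal_mul (by positivity)]
    refine ENNReal.ofReal_le_ofReal ?_
    have e1 : (L : ℝ) ^ ε / C = 1 / C * (L : ℝ) ^ ε := by ring
    rw [e1]
    refine le_trans ?_ k2
    have e3 : (L : ℝ) ^ (3 : ℝ) = (L : ℝ) ^ (3 : ℕ) := by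
      rw [← Real.rpow_natCast]
      norm_num
    rw [e3]
    have e4 : ((L + 1 : ℕ) : ℝ) * (((L + 1 : ℕ) : ℝ) * (((4 * L + 1 : ℕ) : ℝ) * (K * Real.exp (-(1 / C * (L : ℝ) ^ ε))))) =
        (((L + 1 : ℕ) : ℝ) * ((L + 1 : ℕ) : ℝ) * ((4 * L + 1 : ℕ) : ℝ)) * (K * Real.exp (-(1 / C * (L : ℝ) ^ ε))) := by ring
    rw [e4]
    have e5 : (((L + 1 : ℕ) : ℝ) * ((L + 1 : ℕ) : ℝ) * ((4 * L + 1 : ℕ) : ℝ)) ≤ 40 * (L : ℝ) ^ (3 : ℕ) := by
      have q1 : ((L + 1 : ℕ) : ℝ) ≤ 2 * L := by push_cast; linarith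
      have q2 : ((4 * L + 1 : ℕ) : ℝ) ≤ 5 * L := by push_cast; linarith
      have q3 : (0 : ℝ) ≤ ((L + 1 : ℕ) : ℝ) := by positivity
      have q4 : (0 : ℝ) ≤ ((4 * L + 1 : ℕ) : ℝ) := by positivity
      calc (((L + 1 : ℕ) : ℝ) * ((L + 1 : ℕ) : ℝ) * ((4 * L + 1 : ℕ) : ℝ)) ≤ (2 * L * (2 * L)) * (5 * L) :=
            mul_le_mul (mul_le_mul q1 q1 q3 (by positivity)) q2 q4 (by positivity)
        _ ≤ 40 * (L : ℝ) ^ (3 : ℕ) := by
            have : (0 : ℝ) ≤ (L : ℝ) ^ (3 : ℕ) := by positivity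
            nlinarith
    have e6 : 0 ≤ K * Real.exp (-(1 / C * (L : ℝ) ^ ε)) := by positivity
    calc _ ≤ 40 * (L : ℝ) ^ (3 : ℕ) * (K * Real.exp (-(1 / C * (L : ℝ) ^ ε))) := mul_le_mul_of_nonneg_right e5 e6
      _ = _ := by ring
  calc law μ {η | ¬ PBox μ L δ (ε / 2) η} + law μ (⋃ i ∈ Finset.range (L + 1), ⋃ n ∈ Finset.range (L + 1),
        ⋃ x ∈ Finset.Icc (-(2 * L : ℤ)) (2 * L), Bad i n x)
      ≤ ENNReal.ofReal (Real.exp (-(L : ℝ) ^ cp)) + ENNReal.ofReal (Real.exp (-(L : ℝ) ^ (ε / 2))) :=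
        add_le_add (hpb L hLp) hU
    _ = ENNReal.ofReal (Real.exp (-(L : ℝ) ^ cp) + Real.exp (-(L : ℝ) ^ (ε / 2))) := by
        rw [ENNReal.ofReal_add (Real.exp_pos _).le (Real.exp_pos _).le]
    _ ≤ _ := ENNReal.ofReal_le_ofReal k3

end

end Pool.Agent.W_7d29a1_ZE
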