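import Pool.Agent.W_7d29a1_ZE.MapE

/-!
STORM Z, SECOND STOREY: the price of the near ties `NXE` at the windows of the lists `Wd` (input `GX.TieInX`) from the tie lemma `TieE` for
one line. (helper36)
-/

namespace Pool.Agent.W_7d29a1_ZE

open MeasureTheory ProbabilityTheory Filter Topology Finset
open Pool.Agent.W_7d29a1_F Pool.Agent.W_7d29a1_X Pool.Agent.W_7d29a1_G Pool.Agent.W_7d29a1_Z
open Pool.Agent.W_7d29a1_Z86 (Wd mem_Wd)
open Pool.Agent.W_7d29a1_Z86.GX (WT NRel NOk TieInX)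
open Pool.Agent.W_7d29a1_Z17 (P1_mono17 P1_exists17 P1_sum_le card_grid num_exp)
open scoped ENNReal

noncomputable section

variable {μ : Measure ℝ}

/-! ### The sum over the lines -/

/-- Near ties for some line of the grid, from near ties for one line; any relation `R sg Y`. -/
theorem lines_sum {L N : ℕ} {y : ℤ} (hN : N ≤ L) {j₀ : ℕ} (hj₀ : j₀ ≤ N) {g w : ℕ} (hg : 1 ≤ g) (hwL : w ≤ L)
    (hL : 1 ≤ L) {J : Finset ℕ} {R : ℤ → ℤ → Env → Finset ℕ → Prop} {q e : ℝ} (hq0 : 0 ≤ q) (he0 : 0 ≤ e)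
    (hR : ∀ sg Y : ℤ, (sg = 1 ∨ sg = -1) → ∀ A : Env → Finset ℕ → Prop, Ms A → OffRows J A →
      P1 μ N y (fun η S => A η S ∧ R sg Y η S) ≤ ENNReal.ofReal q * P1 μ N y A + ENNReal.ofReal e)
    {A : Env → Finset ℕ → Prop} (hA : Ms A) (hAJ : OffRows J A) :
    P1 μ N y (fun η S => A η S ∧ ∃ sg Y : ℤ, (sg = 1 ∨ sg = -1) ∧ (g : ℤ) ∣ Y ∧ |sg * (2 * pos S j₀ - j₀) - Y| ≤ w ∧
      R sg Y η S) ≤ ENNReal.ofReal (4 * ((w : ℝ) / g + 1) * q) * P1 μ N y A + ENNReal.ofReal (10 * L * e) := by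
  classical
  have hg0 : (0 : ℝ) < g := by exact_mod_cast hg
  -- the lines
  obtain ⟨G, hG⟩ : ∃ G : Finset ℤ, G = Icc (-(2 * L : ℤ)) (2 * L) := ⟨_, rfl⟩
  obtain ⟨T, hT⟩ : ∃ T : Finset (ℤ × ℤ), T = (({1, -1} : Finset ℤ) ×ˢ G).filter fun p => (g : ℤ) ∣ p.2 := ⟨_, rfl⟩
  obtain ⟨Q, hQ⟩ : ∃ Q : ℤ × ℤ → Finset ℕ → Prop, Q = fun p S => |p.1 * (2 * pos S j₀ - j₀) - p.2| ≤ w := ⟨_, rfl⟩
  have hsub : P1 μ N y (fun η S => A η S ∧ ∃ sg Y : ℤ, (sg = 1 ∨ sg = -1) ∧ (g : ℤ) ∣ Y ∧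
      |sg * (2 * pos S j₀ - j₀) - Y| ≤ w ∧ R sg Y η S) ≤
      P1 μ N y (fun η S => ∃ p ∈ T, (A η S ∧ Q p S) ∧ R p.1 p.2 η S) := by
    refine P1_mono17 fun η S _ hS => ?_
    obtain ⟨hAS, sg, Y, hsg, hgY, hYS, hNT⟩ := hS
    refine ⟨(sg, Y), ?_, ⟨hAS, by rw [hQ]; exact hYS⟩, hNT⟩
    rw [hT, mem_filter, mem_product]
    refine ⟨⟨?_, ?_⟩, hgY⟩
    · rw [mem_insert, mem_singleton]
      exact hsg
    · rw [hG, mem_Icc]
      have h2 := abs_le.1 hYS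
      have h3 := pos_nonneg S j₀
      have h4 := pos_le S j₀
      have h5 : (j₀ : ℤ) ≤ L := by exact_mod_cast hj₀.trans hN
      have h6 : (w : ℤ) ≤ L := by exact_mod_cast hwL
      rcases hsg with rfl | rfl
      · constructor <;> linarith [h2.1, h2.2]
      · constructor <;> linarith [h2.1, h2.2]
  refine hsub.trans ((P1_exists17 T _).trans ?_)
  have hone : ∀ p ∈ T, P1 μ N y (fun η S => (A η S ∧ Q p S) ∧ R p.1 p.2 η S) ≤
      ENNReal.ofReal q * P1 μ N y (fun η S => A η S ∧ Q p S) + ENNReal.ofReal e := by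
    intro p hp
    rw [hT, mem_filter, mem_product] at hp
    have hp1 : p.1 = 1 ∨ p.1 = -1 := by
      have := hp.1.1
      rwa [mem_insert, mem_singleton] at this
    exact hR p.1 p.2 hp1 (fun η S => A η S ∧ Q p S) (fun S => by
      by_cases h3 : Q p S
      · simpa [h3] using hA S
      · simp [h3]) (fun η η' S hη => and_congr_left' (hAJ η η' S hη))
  refine (sum_le_sum hone).trans ?_
  rw [sum_add_distrib, ← mul_sum, sum_const, nsmul_eq_mul]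
  have hcount : ∀ S ∈ (range N).powerset, ((T.filter fun p => Q p S).card : ℝ) ≤ 4 * ((w : ℝ) / g + 1) := by
    intro S _
    have h2 : T.filter (fun p => Q p S) ⊆
        ((G.filter fun Y => (g : ℤ) ∣ Y ∧ |(2 * pos S j₀ - j₀) - Y| ≤ w).image fun Y => ((1 : ℤ), Y)) ∪
        ((G.filter fun Y => (g : ℤ) ∣ Y ∧ |(-(2 * pos S j₀ - j₀)) - Y| ≤ w).image fun Y => ((-1 : ℤ), Y)) := by
      intro p hp
      rw [mem_filter, hT, mem_filter, mem_product, mem_insert, mem_singleton, hQ] at hp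
      obtain ⟨⟨⟨h3, h4⟩, h5⟩, h6⟩ := hp
      rw [mem_union, mem_image, mem_image]
      rcases h3 with h3 | h3
      · left
        refine ⟨p.2, ?_, Prod.ext h3.symm rfl⟩
        rw [mem_filter]
        refine ⟨h4, h5, ?_⟩
        rw [h3, one_mul] at h6
        exact h6
      · right
        refine ⟨p.2, ?_, Prod.ext h3.symm rfl⟩
        rw [mem_filter]
        refine ⟨h4, h5, ?_⟩
        rw [h3, neg_one_mul] at h6
        exact h6
    have h3 : (T.filter fun p => Q p S).card ≤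
        (G.filter fun Y => (g : ℤ) ∣ Y ∧ |(2 * pos S j₀ - j₀) - Y| ≤ w).card +
        (G.filter fun Y => (g : ℤ) ∣ Y ∧ |(-(2 * pos S j₀ - j₀)) - Y| ≤ w).card :=
      (card_le_card h2).trans ((card_union_le _ _).trans (add_le_add card_image_le card_image_le))
    have h4 := card_grid G hg (2 * pos S j₀ - j₀) w
    have h5 := card_grid G hg (-(2 * pos S j₀ - j₀)) w
    have h6 : ((T.filter fun p => Q p S).card : ℝ) ≤
        ((G.filter fun Y => (g : ℤ) ∣ Y ∧ |(2 * pos S j₀ - j₀) - Y| ≤ w).card : ℝ) +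
        ((G.filter fun Y => (g : ℤ) ∣ Y ∧ |(-(2 * pos S j₀ - j₀)) - Y| ≤ w).card : ℝ) := by exact_mod_cast h3
    linarith
  have h2 := P1_sum_le (μ := μ) T (N := N) (y := y) A Q hcount
  refine add_le_add ?_ ?_
  · refine (mul_le_mul_right h2 _).trans ?_
    rw [← mul_assoc, ← ENNReal.ofReal_mul hq0]
    exact mul_le_mul_left (ENNReal.ofReal_le_ofReal (le_of_eq (by ring))) _
  · have h3 : (T.card : ℝ) ≤ 10 * L := by
      have h4 : T.card ≤ 2 * (4 * L + 1) := by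
        rw [hT]
        refine (card_filter_le _ _).trans ?_
        rw [card_product, hG, Int.card_Icc]
        have h5 : ({1, -1} : Finset ℤ).card ≤ 2 := card_le_two
        have h6 : ((2 * L : ℤ) + 1 - -(2 * L : ℤ)).toNat = 4 * L + 1 := by omega
        rw [h6]
        exact Nat.mul_le_mul_right _ h5
      have h5 : (T.card : ℝ) ≤ ((2 * (4 * L + 1) : ℕ) : ℝ) := by exact_mod_cast h4
      have h6 : (1 : ℝ) ≤ L := by exact_mod_cast hL
      push_cast at h5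
      linarith
    rw [← ENNReal.ofReal_natCast, ← ENNReal.ofReal_mul (Nat.cast_nonneg _)]
    exact ENNReal.ofReal_le_ofReal (mul_le_mul_of_nonneg_right h3 he0)

/-! ### The price -/

theorem OffRows.mono36 {J J' : Finset ℕ} (h : J ⊆ J') {A : Env → Finset ℕ → Prop} (hA : OffRows J' A) : OffRows J A :=
  fun η η' S hη => hA η η' S fun q hq => hη q fun h1 => hq ⟨h1.1, h h1.2⟩

/-- The price at the windows of the lists from the price for one line. -/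
theorem tieInX_win {N t : ℕ} {n1 : ℕ → ℕ} {e0 E : ℕ} {y : ℤ} {p : Par} {x δ : ℝ} (hx : 0 ≤ x)
    (hδ : 0 ≤ δ) (hNL : N ≤ p.L) (hL : 1 ≤ p.L) (hy0 : 0 ≤ y) (hyN : y ≤ N) (hE : 2 ^ (E + 4) ≤ p.L) (ht : 16 ≤ t)
    (hp : POk μ t n1 e0 E p)
    (hw : ∀ g, e0 ≤ g → g ≤ E → ∀ m : ℕ, n1 g ≤ 1024 * m → (2 : ℝ) ^ (g + 4) * 2 ^ p.a ≤ (p.L : ℝ) ^ p.e * wd' μ (2 ^ p.a) * m)
    (hone : ∀ V : Win, V.Ok p.L → V.a = p.a → (V.w : ℝ) * 2 ^ V.a ≤ (p.L : ℝ) ^ p.e * wd' μ (2 ^ V.a) * V.nJ →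
      ∀ M : ℝ, 1 ≤ M → ∀ A : Env → Finset ℕ → Prop, Ms A → OffRows V.J A →
      P1 μ V.N V.y (fun η S => A η S ∧ NTE μ V p.L p.e p.C p.i₀ p.i₁ M η S) ≤
        ENNReal.ofReal (x * M) * P1 μ V.N V.y (fun η S => A η S ∧ InL V.sg V.J V.Y S) + ENNReal.ofReal δ) (τ k₀ : ℕ) :
    TieInX μ (NXE μ N y p) N y t τ k₀ n1 e0 E (36 * x) (10 * p.L * δ) := by
  intro b W hW H M hM F hF hoff
  obtain ⟨he0, heE, hW0, hj, hJ, hcard⟩ := mem_Wd.1 hW
  have hM0 : 0 ≤ M := by linarith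
  have h1 := lines_sum (μ := μ) (L := p.L) (N := N) (y := y) hNL (j₀ := W.2.1) (hJ _ hj).2.le (g := 2 ^ W.1) (w := 2 ^ (W.1 + 3))
    Nat.one_le_two_pow ((Nat.pow_le_pow_right (by norm_num) (by omega)).trans hE) hL (J := W.2.2)
    (R := fun sg Y η S => (stv N p.a W.2.2).Nonempty ∧ NTE μ (winE N y p.a W H sg Y) p.L p.e p.C p.i₀ p.i₁ M η S)
    (q := x * M) (e := δ) (by positivity) hδ (fun sg Y hsg A hA hAJ => by
      have hok := winE_ok hW ht (hp.an1 W.1 he0 heE) hp.at8 hy0 hyN hNL hE H hsg Y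
      have h2 := hone (winE N y p.a W H sg Y) hok rfl (by
        have h3 := hw W.1 he0 heE _ (stv_card hW ht (hp.an1 W.1 he0 heE) hp.at8)
        rw [winE_nJ]
        refine le_trans (le_of_eq ?_) h3
        show (((2 : ℤ) ^ (W.1 + 4) : ℤ) : ℝ) * 2 ^ p.a = _
        push_cast
        rfl) M hM A hA (OffRows.mono36 (winE_J _ _ _ _ _ _ _) hAJ)
      refine (P1_mono17 fun η S _ hS => ?_).trans (h2.trans (add_le_add (mul_le_mul_right (P1_mono17 fun η S _ hS => hS.1) _) le_rfl))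
      exact ⟨hS.1, hS.2.2⟩) hF hoff
  refine le_trans (le_of_eq ?_) (h1.trans (le_of_eq ?_))
  · rfl
  · have h2 : (((2 ^ (W.1 + 3) : ℕ)) : ℝ) / ((2 ^ W.1 : ℕ) : ℝ) = 8 := by
      have h3 : (0 : ℝ) < 2 ^ W.1 := by positivity
      push_cast
      rw [div_eq_iff h3.ne', pow_add]
      ring
    rw [h2]
    congr 3
    ring

end

end Pool.Agent.W_7d29a1_ZE
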