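import Pool.Agent.W_7d29a1_ZE.NTX
import Pool.Agent.W_7d29a1_Z86.OneDX

/-!
STORM Z, SECOND STOREY (MP_7d29a1_pr): the production of near ties of the class outside a small set, in the form `hPX` of
`Z86.OneZX`. The set is the union of the bad events of the depth (`BadDX`) and of the irregular paths (`not TVp`). (helper15)
-/

namespace Pool.Agent.W_7d29a1_ZE

open MeasureTheory ProbabilityTheory Filter Topology Finset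
open Pool.Agent.W_7d29a1_F Pool.Agent.W_7d29a1_X Pool.Agent.W_7d29a1_G Pool.Agent.W_7d29a1_Z
open Pool.Agent.W_7d29a1_Z86 (phi sp1 sp2 Wd Meet BadJ Runs RegT hp0_86)
open Pool.Agent.W_7d29a1_Z86.GX (WT NRel NOk NJ)
open Pool.Agent.W_7d29a1_Z.Asm72
open Pool.Agent.W_7d29a1_Z.R72
open scoped ENNReal

variable {μ : Measure ℝ}

/-- Outside of `BadS`, of `BadDX` and of the irregular paths the bad junctions of the clusters are near ties of the class. -/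
theorem nj_of_badX {L N t τ B k₀ k₁ K s e0 E : ℕ} {n1 : ℕ → ℕ} {I : Finset ℕ} {V : ℕ → ℤ} {w A h lm : ℝ} {y : ℤ}
    {θ : Env × Finset ℕ × Finset ℕ} {pr : Par} (hpr : POk μ t n1 e0 E pr) (ht : 16 ≤ t) (hI : I ⊆ Core t) (hk : k₀ < k₁)
    (hk1 : k₁ ≤ B) (hkN : za t τ k₁ ≤ N) (hV : VOK t τ N k₀ k₁ s I V) (hs : s ≤ K) (hA : 0 ≤ A)
    (hw : 4 * w + 8 * (s * I.card) ≤ t) (hn1 : ∀ e, e0 ≤ e → e ≤ E → 1 ≤ n1 e) (hD : 64 * (s * I.card) ≤ 2 ^ e0)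
    (hθ : θ ∉ BadS μ L N y t τ B k₀ k₁ K s e0 E n1 I w A h lm V)
    (hBD : θ ∉ BadDX μ N t τ k₀ k₁ e0 E n1 pr I V lm) (hTV : TVp μ N pr θ.2.1) :
    NJ μ (NXE μ N y pr) N t τ k₀ k₁ s e0 E n1 I A h lm V θ := by
  obtain ⟨c1, c2, c3, c4, c5, c6, -, c8, c9⟩ := badS_not hθ
  intro p hp b hb1 hb2 hb Del hDel hDel'
  have hpm := Pool.Agent.W_7d29a1_Z86.mem_Runs.1 hp
  obtain ⟨p1, p2, p3, -, -, -, -⟩ := hpm
  exact near_tieX y hpr hTV ht hI hk hk1 hkN hV hs hA c2 c3 c4.1 c5.1 hw c6 hn1 c4.2 c5.2 hD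
    (c1.2.2.1.trans c1.2.2.2.symm) hp hb1 hb2 hb hBD (c8 p.1 p.2 ⟨p1, p3, p2⟩) (c9 p.1 p.2 ⟨p1, p3, p2⟩) hDel hDel'

/-- The additional bad set of the second storey. -/
def BadPX (μ : Measure ℝ) (N t τ k₀ k₁ e0 E : ℕ) (n1 : ℕ → ℕ) (pr : Par) (I : Finset ℕ) (V : ℕ → ℤ) (lm : ℝ) :
    Set (Env × Finset ℕ × Finset ℕ) :=
  {θ | ¬ TVp μ N pr θ.2.1} ∪ BadDX μ N t τ k₀ k₁ e0 E n1 pr I V lm

/-- Irregular paths are as rare as irregular scales plus irregular paths with regular scales. -/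
theorem P1_tvp {L N : ℕ} {y : ℤ} {ε p1 p2 : ℝ} {pr : Par} (hp1 : 0 ≤ p1) (hp2 : 0 ≤ p2)
    (h1 : P1 μ N y (fun _ S => ¬ NSp μ L N ε S) ≤ ENNReal.ofReal p1)
    (h2 : P1 μ N y (fun _ S => NSp μ L N ε S ∧ ¬ TVp μ N pr S) ≤ ENNReal.ofReal p2) :
    P1 μ N y (fun _ S => ¬ TVp μ N pr S) ≤ ENNReal.ofReal (p1 + p2) := by
  rw [ENNReal.ofReal_add hp1 hp2]
  refine le_trans ?_ ((P1_or _ _).trans (add_le_add h1 h2))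
  refine P1_mono' fun η S _ _ h3 => ?_
  by_cases h4 : NSp μ L N ε S
  · exact Or.inr ⟨h4, h3⟩
  · exact Or.inl h4

/-- The price of `BadPX`. -/
theorem badPX_pr [IsProbabilityMeasure μ] {N t τ k₀ k₁ e0 E : ℕ} {n1 : ℕ → ℕ} {pr : Par} {I : Finset ℕ} {V : ℕ → ℤ}
    {lm p r : ℝ} {y : ℤ} (h0 : 0 ≤ y) (h1 : y ≤ N) (hp : 0 ≤ p)
    (hTV : P1 μ N y (fun _ S => ¬ TVp μ N pr S) ≤ ENNReal.ofReal p)
    (hBD : (sp2 μ h0 h1 (pat t τ I V)).pr (BadDX μ N t τ k₀ k₁ e0 E n1 pr I V lm) ≤ r) :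
    (sp2 μ h0 h1 (pat t τ I V)).pr (BadPX μ N t τ k₀ k₁ e0 E n1 pr I V lm) ≤ p + r := by
  refine ((sp2 μ h0 h1 (pat t τ I V)).union _ _).trans (add_le_add ?_ hBD)
  refine le_trans (le_of_eq (hp0_86 h0 h1 (pat t τ I V) {q | ¬ TVp μ N pr q.2})) ?_
  exact ENNReal.toReal_le_of_le_ofReal hp hTV

/-- **The witness of `hPX`** (`Z86.OneZX`, `Z86.InnAX`) for one `V`. -/
theorem hPX_of [IsProbabilityMeasure μ] {L N t τ B k₀ k₁ K s e0 E X : ℕ} {n1 : ℕ → ℕ} {I : Finset ℕ} {V : ℕ → ℤ}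
    {w A h lm p : ℝ} {y : ℤ} {pr : Par} (h0 : 0 ≤ y) (h1 : y ≤ N) (hpr : POk μ t n1 e0 E pr) (ht : 16 ≤ t)
    (hI : I ⊆ Core t) (hk : k₀ < k₁) (hk1 : k₁ ≤ B) (hkN : za t τ k₁ ≤ N) (hV : VOK t τ N k₀ k₁ s I V) (hs : s ≤ K)
    (hA : 0 ≤ A) (hw : 4 * w + 8 * (s * I.card) ≤ t) (hn1 : ∀ e, e0 ≤ e → e ≤ E → 1 ≤ n1 e)
    (hD : 64 * (s * I.card) ≤ 2 ^ e0) (hp : 0 ≤ p)
    (hTV : P1 μ N y (fun _ S => ¬ TVp μ N pr S) ≤ ENNReal.ofReal p)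
    (hBD : (sp2 μ h0 h1 (pat t τ I V)).pr (BadDX μ N t τ k₀ k₁ e0 E n1 pr I V lm) ≤
      (10 * ((L : ℝ) + 1)) ^ 6 * X * Real.exp (-lm)) :
    ∃ Bd : Set (Env × Finset ℕ × Finset ℕ),
      (sp2 μ h0 h1 (pat t τ I V)).pr Bd ≤ p + (10 * ((L : ℝ) + 1)) ^ 6 * X * Real.exp (-lm) ∧
      ∀ θ : Env × Finset ℕ × Finset ℕ, θ ∉ BadS μ L N y t τ B k₀ k₁ K s e0 E n1 I w A h lm V → θ ∉ Bd →
        NJ μ (NXE μ N y pr) N t τ k₀ k₁ s e0 E n1 I A h lm V θ := by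
  refine ⟨BadPX μ N t τ k₀ k₁ e0 E n1 pr I V lm, badPX_pr h0 h1 hp hTV hBD, fun θ hθ hθ' => ?_⟩
  have h2 : θ ∉ BadDX μ N t τ k₀ k₁ e0 E n1 pr I V lm := fun h3 => hθ' (Or.inr h3)
  have h3 : TVp μ N pr θ.2.1 := by
    by_contra h4
    exact hθ' (Or.inl h4)
  exact nj_of_badX hpr ht hI hk hk1 hkN hV hs hA hw hn1 hD hθ h2 h3

end Pool.Agent.W_7d29a1_ZE
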